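import Pool.Agent.SF.Model
import Pool.Agent.Helper399.Galois72

/-! Job B (MP_d5741c_al): generic places of `M/Ω`. -/

set_option autoImplicit false
set_option linter.all false

open Module FF IntermediateField

namespace SF

section valHom
variable {Ω M : Type} [Field Ω] [Field M] [Algebra Ω M] [IsAlgClosed Ω] [CharZero Ω] [IsFF Ω M]

/-- the value as a ring homomorphism on the valuation ring -/
noncomputable def valHom (P : Place Ω M) : P.O →+* Ω :=
  ((RingEquiv.ofBijective _ (bijective_RF P)).symm : P.RF →+* Ω).comp P.resHom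

theorem valHom_apply (P : Place Ω M) (f : P.O) : valHom P f = val P f.1 := by
  unfold valHom val
  rw [P.red_of_reg f.2]
  rfl

/-- the embedding of a subfield consisting of regular elements -/
noncomputable def eHom (P : Place Ω M) (K : Subfield M) (h : ∀ f ∈ K, P.Reg f) : K →+* Ω :=
  (valHom P).comp ((K.subtype).codRestrict P.O (fun x => h x x.2))

theorem eHom_apply (P : Place Ω M) (K : Subfield M) (h : ∀ f ∈ K, P.Reg f) (f : K) :
    eHom P K h f = val P f.1 := by
  unfold eHom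
  rw [RingHom.comp_apply, valHom_apply]
  rfl

theorem ord_eq_zero_of_val_ne (P : Place Ω M) {f : M} (hf : P.Reg f) (h : val P f ≠ 0) :
    P.ord f = 0 := by
  have h1 := val_eq_iff P hf 0
  rw [map_zero, sub_zero] at h1
  have h2 : ¬ (f = 0 ∨ 0 < P.ord f) := fun h3 => h (h1.2 h3)
  push Not at h2
  have h3 := (P.reg_iff h2.1).1 hf
  omega

/-- polynomials in a regular element with coefficients in `T` -/
theorem reg_aeval (P : Place Ω M) (T : Subfield Ω) {x : M} (hx : P.Reg x) (p : Polynomial T) :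
    P.Reg (Polynomial.aeval x p) ∧ val P (Polynomial.aeval x p) = Polynomial.aeval (val P x) p := by
  induction p using Polynomial.induction_on' with
  | add p q hp hq =>
    rw [map_add, map_add, val_add P hp.1 hq.1, hp.2, hq.2]
    exact ⟨P.reg_add hp.1 hq.1, rfl⟩
  | monomial n a =>
    have hpow : P.Reg (x ^ n) ∧ val P (x ^ n) = val P x ^ n := by
      induction n with
      | zero =>
        rw [pow_zero, pow_zero]
        refine ⟨P.reg_one, ?_⟩
        have := val_const P (1 : Ω)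
        rwa [map_one] at this
      | succ n ih =>
        rw [pow_succ, pow_succ, val_mul P ih.1 hx, ih.2]
        exact ⟨P.reg_mul ih.1 hx, rfl⟩
    rw [Polynomial.aeval_monomial, Polynomial.aeval_monomial]
    have ha : algebraMap T M a = algebraMap Ω M (a : Ω) := rfl
    rw [ha, val_mul P (P.reg_const _) hpow.1, val_const, hpow.2]
    exact ⟨P.reg_mul (P.reg_const _) hpow.1, rfl⟩

theorem ord_N (P : Place Ω M) (T : Subfield Ω) {x : M} (hx : P.Reg x)
    (htr : Transcendental T (val P x)) (a : T⟮x⟯) : P.Reg (a : M) := by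
  obtain ⟨r, s, hrs⟩ := (mem_adjoin_simple_iff T (a : M)).1 a.2
  have hs0 : ∀ s : Polynomial T, s ≠ 0 → P.ord (Polynomial.aeval x s) = 0 := by
    intro s hs
    obtain ⟨h1, h2⟩ := reg_aeval P T hx s
    apply ord_eq_zero_of_val_ne P h1
    rw [h2]
    intro h3
    exact htr ⟨s, hs, h3⟩
  rw [hrs]
  by_cases hs : s = 0
  · rw [hs, map_zero, div_zero]; exact P.reg_zero
  · rw [div_eq_mul_inv]
    apply P.reg_mul (reg_aeval P T hx r).1
    right
    rw [P.ord_inv, hs0 s hs, neg_zero]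

end valHom

section
variable {F Ω L M : Type} [Field F] [Field Ω] [Algebra F Ω] [Field L] [Algebra F L]
    [Field M] [Algebra Ω M] [Algebra L M]

theorem Model.const_mem (m : Model F Ω L M) (T : Subfield Ω) {t : Ω} (ht : t ∈ T) :
    algebraMap Ω M t ∈ m.comp T := Subfield.subset_closure (Or.inl ⟨t, ht, rfl⟩)

theorem Model.L_mem (m : Model F Ω L M) (T : Subfield Ω) (l : L) :
    algebraMap L M l ∈ m.comp T := Subfield.subset_closure (Or.inr ⟨l, rfl⟩)

theorem Model.comp_mono (m : Model F Ω L M) {T T' : Subfield Ω} (h : T ≤ T') : m.comp T ≤ m.comp T' := by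
  apply Subfield.closure_mono
  apply Set.union_subset_union_left
  exact Set.image_mono h

/-- `F(ξ)` is mapped to `T(ξ)` -/
theorem Model.map_mem (m : Model F Ω L M) (T : Subfield Ω) (hT : ∀ c, algebraMap F Ω c ∈ T)
    (E : Subfield M) (hE : ∀ t ∈ T, algebraMap Ω M t ∈ E) (s : Set L) (hs : ∀ l ∈ s, algebraMap L M l ∈ E)
    {l : L} (hl : l ∈ adjoin F s) : algebraMap L M l ∈ E := by
  have h1 : (adjoin F s).toSubfield ≤ E.comap (algebraMap L M) := by
    rw [adjoin_toSubfield, Subfield.closure_le]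
    rintro _ (⟨c, rfl⟩ | h)
    · show algebraMap L M (algebraMap F L c) ∈ E
      rw [← m.compat]
      exact hE _ (hT c)
    · exact hs _ h
  exact h1 hl

theorem Model.isAlgebraic_L [IsFF F L] (m : Model F Ω L M) (ξ : L) (hξ : Transcendental F ξ)
    (T : Subfield Ω) (hT : ∀ c, algebraMap F Ω c ∈ T) (l : L) :
    IsAlgebraic T⟮algebraMap L M ξ⟯ (algebraMap L M l) := by
  have h0 := IsFF.isAlgebraic hξ
  obtain ⟨p, hp0, hp⟩ := h0.isAlgebraic l
  have hmem : ∀ x : F⟮ξ⟯, algebraMap L M (x : L) ∈ T⟮algebraMap L M ξ⟯ := by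
    intro x
    refine m.map_mem T hT (T⟮algebraMap L M ξ⟯).toSubfield ?_ {ξ} ?_ x.2
    · intro t ht
      exact (T⟮algebraMap L M ξ⟯).algebraMap_mem (⟨t, ht⟩ : T)
    · rintro _ rfl
      exact mem_adjoin_simple_self T _
  let φ : F⟮ξ⟯ →+* T⟮algebraMap L M ξ⟯ :=
    ((algebraMap L M).comp (algebraMap F⟮ξ⟯ L)).codRestrict (T⟮algebraMap L M ξ⟯) hmem
  refine ⟨p.map φ, (Polynomial.map_ne_zero_iff φ.injective).2 hp0, ?_⟩
  rw [Polynomial.aeval_def, Polynomial.eval₂_map]
  have h2 : (algebraMap T⟮algebraMap L M ξ⟯ M).comp φ = (algebraMap L M).comp (algebraMap F⟮ξ⟯ L) := rfl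
  rw [h2, ← Polynomial.hom_eval₂, ← Polynomial.aeval_def, hp, map_zero]

theorem Model.isAlgebraic_comp [IsFF F L] (m : Model F Ω L M) (ξ : L) (hξ : Transcendental F ξ)
    (T : Subfield Ω) (hT : ∀ c, algebraMap F Ω c ∈ T) {f : M} (hf : f ∈ m.comp T) :
    IsAlgebraic T⟮algebraMap L M ξ⟯ f := by
  have h1 : m.comp T ≤ (algebraicClosure T⟮algebraMap L M ξ⟯ M).toSubfield := by
    unfold Model.comp
    rw [Subfield.closure_le]
    rintro _ (⟨t, ht, rfl⟩ | ⟨l, rfl⟩)
    · show algebraMap Ω M t ∈ algebraicClosure T⟮algebraMap L M ξ⟯ M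
      have h2 : algebraMap Ω M t = algebraMap T⟮algebraMap L M ξ⟯ M
        ⟨algebraMap Ω M t, (T⟮algebraMap L M ξ⟯).algebraMap_mem (⟨t, ht⟩ : T)⟩ := rfl
      rw [mem_algebraicClosure_iff, h2]
      exact isAlgebraic_algebraMap _
    · show algebraMap L M l ∈ algebraicClosure T⟮algebraMap L M ξ⟯ M
      rw [mem_algebraicClosure_iff]
      exact m.isAlgebraic_L ξ hξ T hT l
  exact mem_algebraicClosure_iff.1 (h1 hf)

theorem Model.act_fix (m : Model F Ω L M) (T : Subfield Ω) (σ : Ω ≃ₐ[F] Ω) (hσ : ∀ u ∈ T, σ u = u)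
    {f : M} (hf : f ∈ m.comp T) : m.act σ f = f := by
  have h1 : m.comp T ≤ ((m.act σ : M →+* M)).eqLocusField (RingHom.id M) := by
    unfold Model.comp
    rw [Subfield.closure_le]
    rintro _ (⟨t, ht, rfl⟩ | ⟨l, rfl⟩)
    · show m.act σ (algebraMap Ω M t) = algebraMap Ω M t
      rw [m.act_const, hσ t ht]
    · show m.act σ (algebraMap L M l) = algebraMap L M l
      rw [m.act_L]
  exact h1 hf

theorem Model.exists_gen [IsFF F L] : ∃ s : Finset L, adjoin F (s : Set L) = ⊤ := by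
  have h := IsFF.ess (k := F) (K := L)
  obtain ⟨s, hs⟩ := IntermediateField.fg_top F L
  exact ⟨s, hs⟩

theorem Model.countable_comp [IsFF F L] (m : Model F Ω L M) (T : Subfield Ω)
    (hT : ∀ c, algebraMap F Ω c ∈ T) (hc : Countable T) : Countable (m.comp T) := by
  obtain ⟨s, hs⟩ := Model.exists_gen (F := F) (L := L)
  let E := adjoin T (algebraMap L M '' (s : Set L))
  have h1 : m.comp T ≤ E.toSubfield := by
    unfold Model.comp
    rw [Subfield.closure_le]
    rintro _ (⟨t, ht, rfl⟩ | ⟨l, rfl⟩)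
    · exact E.algebraMap_mem (⟨t, ht⟩ : T)
    · refine m.map_mem T hT E.toSubfield (fun t ht => E.algebraMap_mem (⟨t, ht⟩ : T)) s ?_
        (by rw [hs]; trivial)
      intro l hl
      exact subset_adjoin _ _ ⟨l, hl, rfl⟩
  have h2 : Cardinal.mk E ≤ Cardinal.aleph0 := by
    refine (IntermediateField.cardinalMk_adjoin_le T _).trans ?_
    have h3 : Cardinal.mk T ≤ Cardinal.aleph0 := Cardinal.mk_le_aleph0_iff.2 hc
    have h4 : Cardinal.mk (algebraMap L M '' (s : Set L)) ≤ Cardinal.aleph0 := by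
      rw [Cardinal.mk_le_aleph0_iff]
      exact ((Finset.finite_toSet s).image _).countable.to_subtype
    exact max_le (max_le h3 h4) le_rfl
  have h3 : Countable E := Cardinal.mk_le_aleph0_iff.1 h2
  exact (Set.inclusion_injective h1).countable


section
variable [IsAlgClosed Ω] [CharZero Ω]

theorem Model.reg_comp [IsFF Ω M] [IsFF F L] (m : Model F Ω L M) (ξ : L) (hξ : Transcendental F ξ)
    (T : Subfield Ω) (hT : ∀ c, algebraMap F Ω c ∈ T) (q : Place Ω M)
    (h1 : q.Reg (algebraMap L M ξ)) (h2 : Transcendental T (val q (algebraMap L M ξ)))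
    {f : M} (hf : f ∈ m.comp T) : q.Reg f :=
  q.reg_of_isIntegral (A := T⟮algebraMap L M ξ⟯) (fun a => ord_N q T h1 h2 a)
    (m.isAlgebraic_comp ξ hξ T hT hf).isIntegral

/-- (B1) a place whose `ξ`-value is transcendental over `T` is trivial on `T.L`. -/
theorem generic_trivial [IsFF Ω M] [IsFF F L] (m : Model F Ω L M) (ξ : L) (hξ : Transcendental F ξ)
    (T : Subfield Ω) (hT : ∀ c, algebraMap F Ω c ∈ T) (q : Place Ω M)
    (h1 : q.Reg (algebraMap L M ξ)) (h2 : Transcendental T (val q (algebraMap L M ξ))) :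
    ∀ f ∈ m.comp T, q.ord f = 0 := by
  intro f hf
  by_cases hf0 : f = 0
  · rw [hf0, q.ord_zero]
  · have h3 := (q.reg_iff hf0).1 (m.reg_comp ξ hξ T hT q h1 h2 hf)
    have h4 := (q.reg_iff (inv_ne_zero hf0)).1
      (m.reg_comp ξ hξ T hT q h1 h2 ((m.comp T).inv_mem hf))
    rw [q.ord_inv] at h4
    omega

end

/-- `ξ` stays transcendental over `Ω` -/
theorem Model.transcendental (m : Model F Ω L M) (ξ : L) (hξ : Transcendental F ξ) :
    Transcendental Ω (algebraMap L M ξ) := by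
  rw [transcendental_iff]
  intro p hp
  have h1 : LinearIndependent F (fun n : ℕ => ξ ^ n) := by
    have h2 := (Polynomial.basisMonomials F).linearIndependent.map' (Polynomial.aeval ξ).toLinearMap
      (LinearMap.ker_eq_bot.2 (transcendental_iff_injective.1 hξ))
    have h3 : (fun n : ℕ => ξ ^ n) =
        (Polynomial.aeval (R := F) ξ).toLinearMap ∘ (Polynomial.basisMonomials F) := by
      funext n
      simp [Polynomial.aeval_monomial]
    rw [h3]
    exact h2
  have h2 := m.indep _ h1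
  rw [linearIndependent_iff'] at h2
  have h3 := h2 (Finset.range (p.natDegree + 1)) p.coeff (by
    rw [Polynomial.aeval_eq_sum_range] at hp
    rw [← hp]
    refine Finset.sum_congr rfl fun i _ => ?_
    rw [map_pow])
  ext n
  rw [Polynomial.coeff_zero]
  by_cases hn : n ≤ p.natDegree
  · exact h3 n (Finset.mem_range.2 (by omega))
  · exact Polynomial.coeff_eq_zero_of_natDegree_lt (by omega)

/-- the intermediate field `T.L` over `T(ξ)` -/
noncomputable def Model.KN (m : Model F Ω L M) (T : Subfield Ω) (ξ : L) :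
    IntermediateField T⟮algebraMap L M ξ⟯ M :=
  (m.comp T).toIntermediateField (by
    intro n
    have h1 : T⟮algebraMap L M ξ⟯ ≤ (m.comp T).toIntermediateField
        (fun t : T => m.const_mem T t.2) := by
      rw [adjoin_simple_le_iff]
      exact m.L_mem T ξ
    exact h1 n.2)

theorem Model.mem_KN (m : Model F Ω L M) (T : Subfield Ω) (ξ : L) {f : M} :
    f ∈ m.KN T ξ ↔ f ∈ m.comp T := Iff.rfl

theorem Model.finite_KN [IsFF F L] (m : Model F Ω L M) (ξ : L) (hξ : Transcendental F ξ)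
    (T : Subfield Ω) (hT : ∀ c, algebraMap F Ω c ∈ T) :
    FiniteDimensional T⟮algebraMap L M ξ⟯ (m.KN T ξ) := by
  obtain ⟨s, hs⟩ := Model.exists_gen (F := F) (L := L)
  have hfin : Finite (algebraMap L M '' (s : Set L)) := (Finset.finite_toSet s).image _
  have h0 : FiniteDimensional T⟮algebraMap L M ξ⟯
      (adjoin T⟮algebraMap L M ξ⟯ (algebraMap L M '' (s : Set L))) := by
    apply IntermediateField.finiteDimensional_adjoin
    rintro _ ⟨l, hl, rfl⟩
    exact (m.isAlgebraic_L ξ hξ T hT l).isIntegral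
  have hTm : ∀ t ∈ T, algebraMap Ω M t ∈
      (adjoin T⟮algebraMap L M ξ⟯ (algebraMap L M '' (s : Set L))).toSubfield := by
    intro t ht
    exact (adjoin T⟮algebraMap L M ξ⟯ (algebraMap L M '' (s : Set L))).algebraMap_mem
      ⟨algebraMap Ω M t, (T⟮algebraMap L M ξ⟯).algebraMap_mem (⟨t, ht⟩ : T)⟩
  have h1 : m.KN T ξ ≤ adjoin T⟮algebraMap L M ξ⟯ (algebraMap L M '' (s : Set L)) := by
    have h2 : m.comp T ≤ (adjoin T⟮algebraMap L M ξ⟯ (algebraMap L M '' (s : Set L))).toSubfield := by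
      unfold Model.comp
      rw [Subfield.closure_le]
      rintro _ (⟨t, ht, rfl⟩ | ⟨l, rfl⟩)
      · exact hTm t ht
      · refine m.map_mem T hT _ hTm s ?_ (by rw [hs]; trivial)
        intro l hl
        exact subset_adjoin _ _ ⟨l, hl, rfl⟩
    exact h2
  exact Submodule.finiteDimensional_of_le (S₁ := (m.KN T ξ).toSubalgebra.toSubmodule)
    (S₂ := (adjoin T⟮algebraMap L M ξ⟯ (algebraMap L M '' (s : Set L))).toSubalgebra.toSubmodule) h1

theorem Model.finrank_le [IsFF Ω M] [IsFF F L] (m : Model F Ω L M) (ξ : L) (hξ : Transcendental F ξ)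
    (T : Subfield Ω) (hT : ∀ c, algebraMap F Ω c ∈ T) :
    finrank Ω⟮algebraMap L M ξ⟯ M ≤ finrank T⟮algebraMap L M ξ⟯ (m.KN T ξ) := by
  have hfin := m.finite_KN ξ hξ T hT
  have hmem : ∀ n : T⟮algebraMap L M ξ⟯, (n : M) ∈ Ω⟮algebraMap L M ξ⟯ := by
    intro n
    have h1 : T⟮algebraMap L M ξ⟯ ≤ (Ω⟮algebraMap L M ξ⟯).toSubfield.toIntermediateField
        (fun t : T => (Ω⟮algebraMap L M ξ⟯).algebraMap_mem (t : Ω)) := by
      rw [adjoin_simple_le_iff]
      exact mem_adjoin_simple_self Ω _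
    exact h1 n.2
  let i : T⟮algebraMap L M ξ⟯ →+* Ω⟮algebraMap L M ξ⟯ :=
    (algebraMap T⟮algebraMap L M ξ⟯ M).codRestrict (Ω⟮algebraMap L M ξ⟯) hmem
  letI : Algebra T⟮algebraMap L M ξ⟯ Ω⟮algebraMap L M ξ⟯ := i.toAlgebra
  haveI : IsScalarTower T⟮algebraMap L M ξ⟯ Ω⟮algebraMap L M ξ⟯ M :=
    IsScalarTower.of_algebraMap_eq (fun _ => rfl)
  have h0 := adjoin_rank_le_of_isAlgebraic Ω⟮algebraMap L M ξ⟯ (m.KN T ξ)
    (Or.inr (Algebra.IsAlgebraic.of_finite _ _))
  have h2 : adjoin Ω⟮algebraMap L M ξ⟯ ((m.KN T ξ : IntermediateField _ _) : Set M) = ⊤ := by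
    rw [eq_top_iff]
    intro f _
    obtain ⟨p, q, hp, hq, -, rfl⟩ := m.frac f
    have h3 : ∀ x ∈ Submodule.span Ω (Set.range (algebraMap L M)),
        x ∈ adjoin Ω⟮algebraMap L M ξ⟯ ((m.KN T ξ : IntermediateField _ _) : Set M) := by
      intro x hx
      induction hx using Submodule.span_induction with
      | mem x hx =>
        obtain ⟨l, rfl⟩ := hx
        exact subset_adjoin _ _ (m.L_mem T l)
      | zero => exact zero_mem _
      | add x y _ _ hx hy => exact add_mem hx hy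
      | smul c x _ hx =>
        rw [Algebra.smul_def]
        refine mul_mem ?_ hx
        exact IntermediateField.algebraMap_mem _ (algebraMap Ω Ω⟮algebraMap L M ξ⟯ c)
    exact div_mem (h3 p hp) (h3 q hq)
  rw [h2, IntermediateField.rank_top'] at h0
  exact Cardinal.toNat_le_toNat h0 (rank_lt_aleph0 _ _)


/-- two homs on `T(ξ)` -/
theorem hom_N_ext (T : Subfield Ω) {x : M} (a b : T⟮x⟯ →+* Ω)
    (hT : ∀ t : T, a (algebraMap T T⟮x⟯ t) = b (algebraMap T T⟮x⟯ t))
    (hx : a ⟨x, mem_adjoin_simple_self T x⟩ = b ⟨x, mem_adjoin_simple_self T x⟩) : a = b := by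
  have h1 : T⟮x⟯ ≤ ((a.eqLocusField b).map (algebraMap T⟮x⟯ M)).toIntermediateField
      (fun t : T => ⟨algebraMap T T⟮x⟯ t, hT t, rfl⟩) := by
    rw [adjoin_simple_le_iff]
    exact ⟨⟨x, mem_adjoin_simple_self T x⟩, hx, rfl⟩
  ext n
  obtain ⟨n', hn', h2⟩ := h1 n.2
  have h3 : n' = n := Subtype.ext h2
  rw [← h3]
  exact hn'

section
variable [IsAlgClosed Ω] [CharZero Ω]

theorem exists_conj_place [Uncountable Ω] [IsFF Ω M] [IsFF F L] (m : Model F Ω L M)
    (T : Subfield Ω) (hT : ∀ c, algebraMap F Ω c ∈ T) (hc : Countable T)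
    (q0 : Place Ω M) (hreg : ∀ f ∈ m.comp T, q0.Reg f) (e' : m.comp T →+* Ω)
    (he' : ∀ t : T, ∀ h, e' ⟨algebraMap Ω M t, h⟩ = t) :
    ∃ σ : Ω ≃ₐ[F] Ω, (∀ u ∈ T, σ u = u) ∧
      ∀ f : m.comp T, (m.actP σ q0).Reg f.1 ∧ val (m.actP σ q0) f.1 = e' f := by
  have hcount := m.countable_comp T hT hc
  obtain ⟨σ, hσ⟩ := exists_ringEquiv_of_countable (Cardinal.aleph0_lt_mk)
    (eHom q0 (m.comp T) hreg) e'
  have hσT : ∀ u ∈ T, σ u = u := by
    intro u hu
    have h1 := hσ ⟨algebraMap Ω M u, m.const_mem T hu⟩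
    rw [eHom_apply, val_const] at h1
    rw [h1]
    exact he' ⟨u, hu⟩ _
  let σF : Ω ≃ₐ[F] Ω := AlgEquiv.ofRingEquiv (f := σ) (fun c => hσT _ (hT c))
  have hσF : ∀ u, σF u = σ u := fun _ => rfl
  refine ⟨σF, hσT, fun f => ?_⟩
  have h1 := m.act_fix T σF hσT f.2
  have h2 := hreg f.1 f.2
  constructor
  · have := (m.reg_actP σF q0 f.1).2 h2
    rwa [h1] at this
  · have := m.val_actP σF q0 h2
    rw [h1] at this
    rw [this, hσF, ← hσ f, eHom_apply]

theorem generic_exists' [Uncountable Ω] [IsFF Ω M] [IsFF F L] (m : Model F Ω L M) (ξ : L)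
    (hξ : Transcendental F ξ)
    (T : Subfield Ω) (hT : ∀ c, algebraMap F Ω c ∈ T) (hc : Countable T)
    (e : m.comp T →+* Ω) (he : ∀ t : T, ∀ h, e ⟨algebraMap Ω M t, h⟩ = t)
    (h2 : ∀ h, Transcendental T (e ⟨algebraMap L M ξ, h⟩)) :
    ∃! q : Place Ω M, ∀ f : m.comp T, q.Reg f.1 ∧ val q f.1 = e f := by
  classical
  set x := algebraMap L M ξ with hx
  have hxK : x ∈ m.comp T := m.L_mem T ξ
  set c := e ⟨x, hxK⟩ with hcdef
  have hxtr : Transcendental Ω x := m.transcendental ξ hξ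
  set y := x - algebraMap Ω M c with hy
  have hytr : Transcendental Ω y := by
    intro h
    apply hxtr
    have := h.add (isAlgebraic_algebraMap (R := Ω) (A := M) c)
    rwa [hy, sub_add_cancel] at this
  have hadj : Ω⟮y⟯ = Ω⟮x⟯ := by
    apply le_antisymm
    · rw [adjoin_simple_le_iff]
      exact sub_mem (mem_adjoin_simple_self Ω x) (IntermediateField.algebraMap_mem Ω⟮x⟯ c)
    · rw [adjoin_simple_le_iff]
      have := add_mem (mem_adjoin_simple_self Ω y) (IntermediateField.algebraMap_mem Ω⟮y⟯ c)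
      rwa [hy, sub_add_cancel] at this
  obtain ⟨S, hS, hS1, hS2⟩ := zeros hytr
  have hSreg : ∀ w ∈ S, w.Reg x ∧ val w x = c := by
    intro w hw
    have h3 := (hS w).1 hw
    have h4 : w.Reg x := by
      have := w.reg_add (Or.inr h3.le) (w.reg_const c) (f := y)
      rwa [hy, sub_add_cancel] at this
    exact ⟨h4, (val_eq_iff w h4 c).2 (Or.inr h3)⟩
  have hctr : Transcendental T c := h2 hxK
  have hreg : ∀ w ∈ S, ∀ f ∈ m.comp T, w.Reg f := by
    intro w hw f hf
    obtain ⟨h3, h4⟩ := hSreg w hw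
    exact m.reg_comp ξ hξ T hT w h3 (by rw [← hx, h4]; exact hctr) hf
  -- algebra structures
  have hNK : ∀ n : T⟮x⟯, (n : M) ∈ m.comp T := fun n => (m.KN T ξ).algebraMap_mem n
  let iN : T⟮x⟯ →+* m.comp T := (algebraMap T⟮x⟯ M).codRestrict (m.comp T) hNK
  letI : Algebra T⟮x⟯ Ω := (e.comp iN).toAlgebra
  let j : m.KN T ξ →+* m.comp T := (algebraMap (m.KN T ξ) M).codRestrict (m.comp T) (fun f => f.2)
  let j' : m.comp T →+* m.KN T ξ := (m.comp T).subtype.codRestrict (m.KN T ξ) (fun f => f.2)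
  have hcomm : ∀ w (hw : w ∈ S), (eHom w (m.comp T) (hreg w hw)).comp iN = e.comp iN := by
    intro w hw
    apply hom_N_ext T
    · intro t
      rw [RingHom.comp_apply, RingHom.comp_apply, eHom_apply]
      have h3 : iN (algebraMap T T⟮x⟯ t) = ⟨algebraMap Ω M t, m.const_mem T t.2⟩ := rfl
      rw [h3, he]
      exact val_const w _
    · rw [RingHom.comp_apply, RingHom.comp_apply, eHom_apply]
      exact (hSreg w hw).2
  let Φ : S → (m.KN T ξ →ₐ[T⟮x⟯] Ω) := fun w =>
    { toRingHom := (eHom w.1 (m.comp T) (hreg w.1 w.2)).comp j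
      commutes' := fun n => RingHom.congr_fun (hcomm w.1 w.2) n }
  have hΦ : ∀ w : S, ∀ f (hf : f ∈ m.comp T), Φ w ⟨f, hf⟩ = val w.1 f := by
    intro w f hf
    exact eHom_apply w.1 (m.comp T) (hreg w.1 w.2) ⟨f, hf⟩
  have hfin : FiniteDimensional T⟮x⟯ (m.KN T ξ) := m.finite_KN ξ hξ T hT
  have hchar : CharZero T⟮x⟯ := charZero_of_injective_algebraMap (algebraMap T T⟮x⟯).injective
  have hsep : Algebra.IsSeparable T⟮x⟯ (m.KN T ξ) := inferInstance
  have hcard := AlgHom.card T⟮x⟯ (m.KN T ξ) Ω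
  have hle : S.card ≤ Fintype.card (m.KN T ξ →ₐ[T⟮x⟯] Ω) := by
    rw [hcard]
    refine le_trans ?_ (m.finrank_le ξ hξ T hT)
    rw [← hx, ← hadj, ← hS2, Finset.card_eq_sum_ones]
    apply Finset.sum_le_sum
    intro w hw
    have h3 := (hS w).1 hw
    have h4 := hS1 w hw
    have h5 : 0 < (w.ord y).toNat := by omega
    exact Nat.mul_pos h5 h4
  have hpos : 0 < finrank Ω⟮y⟯ M := by
    have := IsFF.finite hytr
    exact finrank_pos
  obtain ⟨q0, hq0⟩ : S.Nonempty := by
    by_contra h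
    rw [Finset.not_nonempty_iff_eq_empty] at h
    rw [h, Finset.sum_empty] at hS2
    omega
  have hsurj : Function.Surjective Φ := by
    intro ψ
    have he' : ∀ t : T, ∀ h, (ψ : m.KN T ξ →+* Ω).comp j' ⟨algebraMap Ω M t, h⟩ = t := by
      intro t h
      have h3 := ψ.commutes (algebraMap T T⟮x⟯ t)
      have h4 : algebraMap T⟮x⟯ Ω (algebraMap T T⟮x⟯ t) = e ⟨algebraMap Ω M t, h⟩ := rfl
      rw [h4, he] at h3
      exact h3
    obtain ⟨σ, hσT, hσ⟩ := exists_conj_place m T hT hc q0 (hreg q0 hq0)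
      ((ψ : m.KN T ξ →+* Ω).comp j') he'
    have hqx : val (m.actP σ q0) x = c := by
      rw [(hσ ⟨x, hxK⟩).2]
      have h3 := ψ.commutes ⟨x, mem_adjoin_simple_self T x⟩
      exact h3
    have hqS : m.actP σ q0 ∈ S := by
      rw [hS]
      rcases (val_eq_iff _ (hσ ⟨x, hxK⟩).1 c).1 hqx with h3 | h3
      · exfalso
        apply hxtr
        change x = _ at h3
        rw [h3]
        exact isAlgebraic_algebraMap c
      · exact h3
    refine ⟨⟨_, hqS⟩, ?_⟩
    ext f
    exact (hΦ ⟨_, hqS⟩ f.1 f.2).trans (hσ ⟨f.1, f.2⟩).2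
  have hbij : Function.Bijective Φ := by
    rw [Fintype.bijective_iff_surjective_and_card]
    refine ⟨hsurj, le_antisymm ?_ (Fintype.card_le_of_surjective Φ hsurj)⟩
    rw [Fintype.card_coe]
    exact hle
  -- existence and uniqueness
  let ψ : m.KN T ξ →ₐ[T⟮x⟯] Ω :=
    { toRingHom := e.comp j
      commutes' := fun n => rfl }
  obtain ⟨q, hq⟩ := hsurj ψ
  refine ⟨q.1, fun f => ⟨hreg q.1 q.2 f.1 f.2, ?_⟩, ?_⟩
  · rw [← hΦ q f.1 f.2, hq]
    rfl
  · intro q' hq'
    have hq'S : q' ∈ S := by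
      rw [hS]
      rcases (val_eq_iff _ (hq' ⟨x, hxK⟩).1 c).1 (hq' ⟨x, hxK⟩).2 with h3 | h3
      · exfalso
        apply hxtr
        change x = _ at h3
        rw [h3]
        exact isAlgebraic_algebraMap c
      · exact h3
    have h3 : Φ ⟨q', hq'S⟩ = Φ q := by
      rw [hq]
      ext f
      exact (hΦ ⟨q', hq'S⟩ f.1 f.2).trans (hq' ⟨f.1, f.2⟩).2
    have h4 := hbij.1 h3
    exact congrArg Subtype.val h4


theorem generic_unique' [Uncountable Ω] [IsFF Ω M] [IsFF F L] (m : Model F Ω L M) (ξ : L)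
    (hξ : Transcendental F ξ)
    (T : Subfield Ω) (hT : ∀ c, algebraMap F Ω c ∈ T) (hc : Countable T)
    (q q' : Place Ω M) (h1 : q.Reg (algebraMap L M ξ)) (h1' : q'.Reg (algebraMap L M ξ))
    (h2 : Transcendental T (val q (algebraMap L M ξ)))
    (h : ∀ f ∈ m.comp T, val q f = val q' f) : q = q' := by
  have h2' : Transcendental T (val q' (algebraMap L M ξ)) := by
    rw [← h _ (m.L_mem T ξ)]; exact h2
  have hreg := fun f (hf : f ∈ m.comp T) => m.reg_comp ξ hξ T hT q h1 h2 hf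
  have hreg' := fun f (hf : f ∈ m.comp T) => m.reg_comp ξ hξ T hT q' h1' h2' hf
  obtain ⟨q0, -, huniq⟩ := generic_exists' m ξ hξ T hT hc (eHom q (m.comp T) hreg)
    (fun t _ => by rw [eHom_apply]; exact val_const q _)
    (fun _ => by rw [eHom_apply]; exact h2)
  rw [huniq q (fun f => ⟨hreg f.1 f.2, (eHom_apply q _ hreg f).symm⟩),
    huniq q' (fun f => ⟨hreg' f.1 f.2, by rw [eHom_apply]; exact (h f.1 f.2).symm⟩)]

theorem Model.actP_mul [IsFF Ω M] (m : Model F Ω L M) (σ τ : Ω ≃ₐ[F] Ω) (P : Place Ω M) :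
    m.actP (σ * τ) P = m.actP σ (m.actP τ P) := by
  have h1 : ∀ f, (m.act (σ * τ)).symm f = (m.act τ).symm ((m.act σ).symm f) := by
    intro f
    rw [RingEquiv.symm_apply_eq, map_mul]
    show f = m.act σ (m.act τ _)
    rw [RingEquiv.apply_symm_apply, RingEquiv.apply_symm_apply]
  apply Place.ext
  funext f
  show P.ord _ = P.ord _
  rw [h1]

/-- the values at a place regular on `T.L` are algebraic over the value of `ξ` -/
theorem val_mem_T1 [IsFF Ω M] [IsFF F L] (m : Model F Ω L M) (ξ : L) (hξ : Transcendental F ξ)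
    (T : Subfield Ω) (hT : ∀ c, algebraMap F Ω c ∈ T) (q : Place Ω M)
    (h1 : q.Reg (algebraMap L M ξ)) (h2 : Transcendental T (val q (algebraMap L M ξ)))
    (T1 : Subfield Ω) (hTT1 : T ≤ T1) (hx1 : val q (algebraMap L M ξ) ∈ T1)
    (hcl : ∀ z : Ω, IsAlgebraic T1 z → z ∈ T1) {f : M} (hf : f ∈ m.comp T) : val q f ∈ T1 := by
  set x := algebraMap L M ξ with hx
  have hreg := fun f (hf : f ∈ m.comp T) => m.reg_comp ξ hξ T hT q h1 h2 hf
  have hNK : ∀ n : T⟮x⟯, (n : M) ∈ m.comp T := fun n => (m.KN T ξ).algebraMap_mem n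
  let iN : T⟮x⟯ →+* m.comp T := (algebraMap T⟮x⟯ M).codRestrict (m.comp T) hNK
  let e := eHom q (m.comp T) hreg
  have hmem : ∀ n : T⟮x⟯, (e.comp iN) n ∈ T1 := by
    have h3 : T⟮x⟯ ≤ ((T1.comap (e.comp iN)).map (algebraMap T⟮x⟯ M)).toIntermediateField
        (fun t : T => ⟨algebraMap T T⟮x⟯ t, by
          show e (iN (algebraMap T T⟮x⟯ t)) ∈ T1
          rw [eHom_apply]
          have h4 : val q ((iN (algebraMap T T⟮x⟯ t)) : M) = (t : Ω) := val_const q _
          rw [h4]
          exact hTT1 t.2, rfl⟩) := by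
      rw [adjoin_simple_le_iff]
      refine ⟨⟨x, mem_adjoin_simple_self T x⟩, ?_, rfl⟩
      show e (iN ⟨x, mem_adjoin_simple_self T x⟩) ∈ T1
      rw [eHom_apply]
      exact hx1
    intro n
    obtain ⟨n', hn', h4⟩ := h3 n.2
    have h5 : n' = n := Subtype.ext h4
    rw [← h5]
    exact hn'
  let φ : T⟮x⟯ →+* T1 := (e.comp iN).codRestrict T1 hmem
  obtain ⟨p, hp0, hp⟩ := m.isAlgebraic_comp ξ hξ T hT hf
  apply hcl
  refine ⟨p.map φ, (Polynomial.map_ne_zero_iff φ.injective).2 hp0, ?_⟩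
  rw [Polynomial.aeval_def, Polynomial.eval₂_map]
  have h3 : (algebraMap T1 Ω).comp φ = e.comp iN := rfl
  have h4 : val q f = e ⟨f, hf⟩ := (eHom_apply q _ hreg ⟨f, hf⟩).symm
  rw [h3, h4, ← Polynomial.hom_eval₂]
  have h5 : Polynomial.eval₂ iN (⟨f, hf⟩ : m.comp T) p = 0 := by
    apply Subtype.ext
    have h6 := Polynomial.hom_eval₂ p iN (m.comp T).subtype ⟨f, hf⟩
    have h7 : (m.comp T).subtype.comp iN = algebraMap T⟮x⟯ M := rfl
    rw [h7] at h6
    refine h6.trans ?_
    exact hp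
  rw [h5, map_zero]

/-- the last element stays transcendental over the algebraic closure of the others -/
theorem exists_T1 (T : Subfield Ω) (hc : Countable T) {n : ℕ} (v : Fin n → Ω) :
    ∃ T1 : Subfield Ω, T ≤ T1 ∧ (∀ i, v i ∈ T1) ∧ Countable T1 ∧ IsAlgClosed T1 ∧
      (∀ z : Ω, IsAlgebraic T1 z → z ∈ T1) ∧
      ∀ c : Ω, AlgebraicIndependent T (Fin.snoc (α := fun _ => Ω) v c) → Transcendental T1 c := by
  let E0 := adjoin T (Set.range v)
  let A1 := algebraicClosure E0 Ω
  have hcE : Cardinal.mk E0 ≤ Cardinal.aleph0 := by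
    refine (IntermediateField.cardinalMk_adjoin_le T _).trans ?_
    have h3 : Cardinal.mk T ≤ Cardinal.aleph0 := Cardinal.mk_le_aleph0_iff.2 hc
    have h4 : Cardinal.mk (Set.range v) ≤ Cardinal.aleph0 := by
      rw [Cardinal.mk_le_aleph0_iff]
      exact (Set.finite_range v).countable.to_subtype
    exact max_le (max_le h3 h4) le_rfl
  have hcA : Cardinal.mk A1 ≤ Cardinal.aleph0 := by
    refine (Algebra.IsAlgebraic.cardinalMk_le_max E0 A1).trans ?_
    exact max_le hcE le_rfl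
  have hclo : IsAlgClosure E0 A1 := inferInstance
  refine ⟨A1.toSubfield, ?_, ?_, ?_, hclo.isAlgClosed, ?_, ?_⟩
  · intro t ht
    exact A1.algebraMap_mem (algebraMap T E0 ⟨t, ht⟩)
  · intro i
    exact A1.algebraMap_mem (⟨v i, subset_adjoin T _ ⟨i, rfl⟩⟩ : E0)
  · exact Cardinal.mk_le_aleph0_iff.1 hcA
  · intro z hz
    have hz' : IsAlgebraic A1 z := hz
    have := hz'.restrictScalars E0
    exact mem_algebraicClosure_iff.2 this
  · intro c hind
    have h1 := hind.transcendental_adjoin (s := Set.range Fin.castSucc) (i := Fin.last n) (by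
      rintro ⟨i, hi⟩
      exact (Fin.castSucc_lt_last i).ne hi)
    rw [Fin.snoc_last] at h1
    have h2 : (Fin.snoc (α := fun _ => Ω) v c) '' (Set.range Fin.castSucc) = Set.range v := by
      rw [← Set.range_comp]
      congr 1
      funext i
      exact Fin.snoc_castSucc (α := fun _ => Ω) _ _ _
    rw [h2] at h1
    intro h3
    have h3' : IsAlgebraic A1 c := h3
    have h4 : IsAlgebraic E0 c := h3'.restrictScalars E0
    apply h1
    open scoped algebraAdjoinAdjoin in
    exact h4.restrictScalars (Algebra.adjoin T (Set.range v))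


/-- (B2) places <-> embeddings -/
theorem generic_exists [Uncountable Ω] [IsFF Ω M] [IsFF F L] (m : Model F Ω L M) (ξ : L) (hξ : Transcendental F ξ)
    (T : Subfield Ω) (hT : ∀ c, algebraMap F Ω c ∈ T) (hc : Countable T) (hac : IsAlgClosed T)
    (e : m.comp T →+* Ω) (he : ∀ t : T, ∀ h, e ⟨algebraMap Ω M t, h⟩ = t)
    (h2 : ∀ h, Transcendental T (e ⟨algebraMap L M ξ, h⟩)) :
    ∃! q : Place Ω M, ∀ f : m.comp T, q.Reg f.1 ∧ val q f.1 = e f :=
  generic_exists' m ξ hξ T hT hc e he h2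

theorem generic_unique [Uncountable Ω] [IsFF Ω M] [IsFF F L] (m : Model F Ω L M) (ξ : L) (hξ : Transcendental F ξ)
    (T : Subfield Ω) (hT : ∀ c, algebraMap F Ω c ∈ T) (hc : Countable T) (hac : IsAlgClosed T)
    (q q' : Place Ω M) (h1 : q.Reg (algebraMap L M ξ)) (h1' : q'.Reg (algebraMap L M ξ))
    (h2 : Transcendental T (val q (algebraMap L M ξ)))
    (h : ∀ f ∈ m.comp T, val q f = val q' f) : q = q' :=
  generic_unique' m ξ hξ T hT hc q q' h1 h1' h2 h

/-- (B3) independent generic tuples are conjugate -/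
theorem generic_conj [Uncountable Ω] [IsFF Ω M] [IsFF F L] (m : Model F Ω L M) (ξ : L) (hξ : Transcendental F ξ)
    (T : Subfield Ω) (hT : ∀ c, algebraMap F Ω c ∈ T) (hc : Countable T) (hac : IsAlgClosed T)
    (n : ℕ) (q q' : Fin n → Place Ω M)
    (h1 : ∀ i, (q i).Reg (algebraMap L M ξ)) (h1' : ∀ i, (q' i).Reg (algebraMap L M ξ))
    (h2 : AlgebraicIndependent T (fun i => val (q i) (algebraMap L M ξ)))
    (h2' : AlgebraicIndependent T (fun i => val (q' i) (algebraMap L M ξ))) :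
    ∃ σ : Ω ≃ₐ[F] Ω, (∀ u ∈ T, σ u = u) ∧ ∀ i, m.actP σ (q i) = q' i := by
  induction n with
  | zero => exact ⟨AlgEquiv.refl, fun _ _ => rfl, fun i => i.elim0⟩
  | succ n ih =>
    obtain ⟨σ', hσ'T, hσ'⟩ := ih (fun i => q i.castSucc) (fun i => q' i.castSucc)
      (fun i => h1 _) (fun i => h1' _)
      (h2.comp _ (Fin.castSucc_injective n)) (h2'.comp _ (Fin.castSucc_injective n))
    set x := algebraMap L M ξ with hx
    obtain ⟨T1, hTT1, hv, hc1, -, hcl, htr⟩ := exists_T1 T hc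
      (fun i : Fin n => val (q' i.castSucc) x)
    have hc' : Transcendental T1 (val (q' (Fin.last n)) x) := by
      apply htr
      convert h2' using 1
      funext i
      refine Fin.lastCases ?_ (fun j => ?_) i
      · rw [Fin.snoc_last]
      · rw [Fin.snoc_castSucc]
    have hpval : ∀ i, val (m.actP σ' (q i)) x = σ' (val (q i) x) := by
      intro i
      have := m.val_actP σ' (q i) (h1 i)
      rwa [m.act_L] at this
    let p := m.actP σ' (q (Fin.last n))
    have hpreg : p.Reg x := by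
      have := (m.reg_actP σ' (q (Fin.last n)) x).2 (h1 _)
      rwa [m.act_L] at this
    let σT : Ω ≃ₐ[T] Ω := AlgEquiv.ofRingEquiv (f := σ'.toRingEquiv) (fun t => hσ'T t t.2)
    have hp' : Transcendental T1 (val p x) := by
      apply htr
      have h3 := h2.map' (f := σT.toAlgHom) σT.injective
      convert h3 using 1
      funext i
      refine Fin.lastCases ?_ (fun j => ?_) i
      · rw [Fin.snoc_last]; exact hpval _
      · rw [Fin.snoc_castSucc]
        show val (q' j.castSucc) x = σ' (val (q j.castSucc) x)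
        rw [← hpval, hσ' j]
    have hT1 : ∀ c, algebraMap F Ω c ∈ T1 := fun c => hTT1 (hT c)
    have hregp := fun f (hf : f ∈ m.comp T1) => m.reg_comp ξ hξ T1 hT1 p hpreg hp' hf
    have hregq := fun f (hf : f ∈ m.comp T1) =>
      m.reg_comp ξ hξ T1 hT1 (q' (Fin.last n)) (h1' _) hc' hf
    obtain ⟨σ'', hσ''T, hσ''⟩ := exists_conj_place m T1 hT1 hc1 p hregp
      (eHom (q' (Fin.last n)) (m.comp T1) hregq)
      (fun t _ => by rw [eHom_apply]; exact val_const _ _)
    have hval : ∀ f ∈ m.comp T1, val (q' (Fin.last n)) f = val (m.actP σ'' p) f := by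
      intro f hf
      rw [(hσ'' ⟨f, hf⟩).2, eHom_apply]
    have hlast : q' (Fin.last n) = m.actP σ'' p :=
      generic_unique' m ξ hξ T1 hT1 hc1 _ _ (h1' _) (hσ'' ⟨x, m.L_mem T1 ξ⟩).1 hc' hval
    refine ⟨σ'' * σ', ?_, ?_⟩
    · intro u hu
      show σ'' (σ' u) = u
      rw [hσ'T u hu, hσ''T u (hTT1 hu)]
    · intro i
      rw [m.actP_mul]
      refine Fin.lastCases ?_ (fun j => ?_) i
      · exact hlast.symm
      · rw [hσ' j]
        have htrj : Transcendental T (val (q' j.castSucc) x) := h2'.transcendental j.castSucc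
        symm
        have hreg2 : (m.actP σ'' (q' j.castSucc)).Reg x := by
          have := (m.reg_actP σ'' (q' j.castSucc) x).2 (h1' _)
          rwa [m.act_L] at this
        refine generic_unique' m ξ hξ T hT hc _ _ (h1' _) hreg2 htrj ?_
        intro f hf
        have h3 := m.val_actP σ'' (q' j.castSucc)
          (m.reg_comp ξ hξ T hT (q' j.castSucc) (h1' _) htrj hf)
        rw [m.act_fix T σ'' (fun u hu => hσ''T u (hTT1 hu)) hf] at h3
        rw [h3]
        symm
        apply hσ''T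
        exact val_mem_T1 m ξ hξ T hT (q' j.castSucc) (h1' _) htrj T1 hTT1 (hv j) hcl hf

end

end

end SF
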