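import Mathlib

set_option autoImplicit false

namespace Pool.Agent.Helper862.PNT

open MeasureTheory Filter Topology Set

noncomputable section

/-- Mertens function -/
def MM (n : ℕ) : ℝ := ∑ k ∈ Finset.Icc 1 n, ((ArithmeticFunction.moebius k : ℤ) : ℝ)

lemma abs_moebius_le (k : ℕ) : |((ArithmeticFunction.moebius k : ℤ) : ℝ)| ≤ 1 := by
  have := ArithmeticFunction.abs_moebius_le_one (n := k)
  exact_mod_cast this

lemma MM_succ (n : ℕ) : MM (n + 1) = MM n + ((ArithmeticFunction.moebius (n + 1) : ℤ) : ℝ) := by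
  unfold MM
  rw [Finset.sum_Icc_succ_top (by omega)]

lemma MM_diff (n k : ℕ) : |MM (n + k) - MM n| ≤ k := by
  induction k with
  | zero => simp
  | succ k ih =>
    rw [← add_assoc, MM_succ]
    have h1 := abs_moebius_le (n + k + 1)
    have h2 : MM (n + k) + ((ArithmeticFunction.moebius (n + k + 1) : ℤ) : ℝ) - MM n =
      (MM (n + k) - MM n) + ((ArithmeticFunction.moebius (n + k + 1) : ℤ) : ℝ) := by ring
    rw [h2]
    push_cast
    exact (abs_add_le _ _).trans (add_le_add ih h1)

lemma abs_MM_le (n : ℕ) : |MM n| ≤ n := by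
  have h := MM_diff 0 n
  have h0 : MM 0 = 0 := by simp [MM]
  rw [h0] at h
  simpa using h

def mm (u : ℝ) : ℝ := if 0 < u then Real.exp (-u) * MM ⌊Real.exp u⌋₊ else 0

lemma abs_mm_le (u : ℝ) : |mm u| ≤ 1 := by
  unfold mm
  split_ifs
  · rw [abs_mul, abs_of_pos (Real.exp_pos _)]
    have h1 := abs_MM_le ⌊Real.exp u⌋₊
    have h2 : ((⌊Real.exp u⌋₊ : ℕ) : ℝ) ≤ Real.exp u := Nat.floor_le (Real.exp_pos u).le
    calc Real.exp (-u) * |MM ⌊Real.exp u⌋₊| ≤ Real.exp (-u) * Real.exp u :=
          mul_le_mul_of_nonneg_left (h1.trans h2) (Real.exp_pos _).le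
      _ = 1 := by rw [← Real.exp_add]; simp
  · simp

lemma measurable_mm : Measurable mm := by
  unfold mm
  apply Measurable.ite measurableSet_Ioi
  · apply Measurable.mul
    · fun_prop
    · have h1 : Measurable (fun n : ℕ => MM n) := measurable_from_nat
      exact h1.comp (Nat.measurable_floor.comp Real.measurable_exp)
  · exact measurable_const

/-- Laplace transform of `mm`. -/
lemma laplace_mm (z : ℂ) (hz : 0 < z.re) :
    ∫ u in Ioi (0 : ℝ), (mm u : ℂ) * Complex.exp (-z * u) = 1 / ((z + 1) * riemannZeta (z + 1)) := by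
  have hs : (1 : ℝ) < (z + 1).re := by simp; exact hz
  have h1 : LSeries (fun n => ((ArithmeticFunction.moebius n : ℤ) : ℂ)) (z + 1) =
      (z + 1) * ∫ t in Set.Ioi (1 : ℝ), (∑ k ∈ Finset.Icc 1 ⌊t⌋₊, ((ArithmeticFunction.moebius k : ℤ) : ℂ)) *
        (t : ℂ) ^ (-((z + 1) + 1)) := by
    apply LSeries_eq_mul_integral' _ (r := 1) zero_le_one hs
    apply Asymptotics.isBigO_of_le
    intro n
    rw [Real.rpow_one, Real.norm_of_nonneg (by positivity), Real.norm_of_nonneg (by positivity)]
    calc ∑ k ∈ Finset.Icc 1 n, ‖((ArithmeticFunction.moebius k : ℤ) : ℂ)‖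
        ≤ ∑ k ∈ Finset.Icc 1 n, (1 : ℝ) := by
          apply Finset.sum_le_sum
          intro k _
          rw [Complex.norm_intCast]
          exact abs_moebius_le k
      _ = n := by simp
  have h2 := ArithmeticFunction.LSeries_zeta_mul_Lseries_moebius hs
  rw [ArithmeticFunction.LSeries_zeta_eq_riemannZeta hs] at h2
  have hz1 : z + 1 ≠ 0 := by
    intro h
    rw [h] at hs; simp at hs; linarith
  have h3 : ∫ u in Ioi (0 : ℝ), (mm u : ℂ) * Complex.exp (-z * u) =
      ∫ t in Set.Ioi (1 : ℝ), (∑ k ∈ Finset.Icc 1 ⌊t⌋₊, ((ArithmeticFunction.moebius k : ℤ) : ℂ)) *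
        (t : ℂ) ^ (-((z + 1) + 1)) := by
    have himg : Real.exp '' (Ioi (0 : ℝ)) = Ioi (1 : ℝ) := by
      ext y
      constructor
      · rintro ⟨x, hx, rfl⟩
        exact Real.one_lt_exp_iff.mpr hx
      · intro hy
        have hy' : (1 : ℝ) < y := hy
        exact ⟨Real.log y, Real.log_pos hy', Real.exp_log (by linarith)⟩
    rw [← himg]
    rw [integral_image_eq_integral_abs_deriv_smul measurableSet_Ioi
      (fun x _ => (Real.hasDerivAt_exp x).hasDerivWithinAt) (Real.exp_injective.injOn)]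
    apply setIntegral_congr_fun measurableSet_Ioi
    intro u hu
    have hu' : (0 : ℝ) < u := hu
    simp only
    rw [abs_of_pos (Real.exp_pos u), mm, if_pos hu', MM]
    have he : ((Real.exp u : ℝ) : ℂ) ^ (-((z + 1) + 1)) = Complex.exp (-((z + 1) + 1) * u) := by
      rw [Complex.cpow_def_of_ne_zero (by exact_mod_cast (Real.exp_pos u).ne'),
        ← Complex.ofReal_log (Real.exp_pos u).le, Real.log_exp]
      congr 1; ring
    rw [he, Complex.real_smul]
    push_cast
    have hA : Complex.exp (-(u : ℂ)) * Complex.exp (-z * u) =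
        Complex.exp u * Complex.exp (-((z + 1) + 1) * u) := by
      rw [← Complex.exp_add, ← Complex.exp_add]
      congr 1; ring
    calc Complex.exp (-(u : ℂ)) * (∑ k ∈ Finset.Icc 1 ⌊Real.exp u⌋₊, ((ArithmeticFunction.moebius k : ℤ) : ℂ)) *
          Complex.exp (-z * u) = (Complex.exp (-(u : ℂ)) * Complex.exp (-z * u)) *
          (∑ k ∈ Finset.Icc 1 ⌊Real.exp u⌋₊, ((ArithmeticFunction.moebius k : ℤ) : ℂ)) := by ring
      _ = _ := by rw [hA]; ring
  rw [h3]
  have hne : riemannZeta (z + 1) ≠ 0 := riemannZeta_ne_zero_of_one_lt_re hs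
  rw [h1] at h2
  rw [eq_div_iff (mul_ne_zero hz1 hne)]
  linear_combination h2

def GG (z : ℂ) : ℂ := if z = 0 then 0 else 1 / ((z + 1) * riemannZeta (z + 1))

lemma continuousWithinAt_GG (z : ℂ) (hz : 0 ≤ z.re) : ContinuousAt GG z := by
  by_cases h0 : z = 0
  · subst h0
    rw [continuousAt_iff_punctured_nhds]
    have hres := riemannZeta_residue_one
    have h1 : Tendsto (fun z : ℂ => z + 1) (𝓝[≠] 0) (𝓝[≠] 1) := by
      apply tendsto_nhdsWithin_of_tendsto_nhds_of_eventually_within
      · have : Tendsto (fun z : ℂ => z + 1) (𝓝 0) (𝓝 (0 + 1)) := (continuous_id.add continuous_const).tendsto 0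
        rw [zero_add] at this
        exact this.mono_left nhdsWithin_le_nhds
      · filter_upwards [self_mem_nhdsWithin] with z hz
        intro h
        apply hz
        simpa using h
    have h2 := hres.comp h1
    have h3 : Tendsto (fun z : ℂ => z * (1 / ((z + 1) * (z * riemannZeta (z + 1))))) (𝓝[≠] 0) (𝓝 (0 * (1 / ((0 + 1) * 1)))) := by
      apply Tendsto.mul
      · exact tendsto_id.mono_left nhdsWithin_le_nhds
      · apply Tendsto.div tendsto_const_nhds
        · apply Tendsto.mul
          · exact ((continuous_id.add continuous_const).tendsto (0 : ℂ)).mono_left nhdsWithin_le_nhds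
          · refine h2.congr ?_
            intro z; simp
        · simp
    have h4 : GG 0 = 0 * (1 / ((0 + 1) * 1)) := by simp [GG]
    rw [h4]
    refine h3.congr' ?_
    filter_upwards [self_mem_nhdsWithin] with z hz
    have hz' : z ≠ 0 := hz
    rw [GG, if_neg hz']
    rw [one_div, one_div, mul_inv, mul_inv, mul_inv]
    field_simp
  · have hev : GG =ᶠ[𝓝 z] fun z => 1 / ((z + 1) * riemannZeta (z + 1)) := by
      filter_upwards [isOpen_ne.mem_nhds h0] with w hw
      rw [GG, if_neg hw]
    rw [continuousAt_congr hev]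
    have hz1 : z + 1 ≠ 0 := by
      intro h
      have := congrArg Complex.re h
      simp at this; linarith
    have hz2 : z + 1 ≠ 1 := by
      intro h; apply h0; simpa using h
    have hne : riemannZeta (z + 1) ≠ 0 := by
      apply riemannZeta_ne_zero_of_one_le_re
      simp; exact hz
    apply ContinuousAt.div continuousAt_const
    · apply ContinuousAt.mul
      · fun_prop
      · have h5 := (differentiableAt_riemannZeta hz2).continuousAt
        exact ContinuousAt.comp (f := fun z : ℂ => z + 1) (g := riemannZeta) h5 (by fun_prop)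
    · exact mul_ne_zero hz1 hne

/-- Fejér kernel -/
def KK (L y : ℝ) : ℝ := if y = 0 then L else 2 * (1 - Real.cos (L * y)) / (L * y ^ 2)

lemma KK_nonneg (L y : ℝ) (hL : 0 < L) : 0 ≤ KK L y := by
  unfold KK; split_ifs with h
  · exact hL.le
  · have := Real.cos_le_one (L * y)
    have : 0 ≤ 1 - Real.cos (L * y) := by linarith
    positivity

lemma KK_le_L (L y : ℝ) (hL : 0 < L) : KK L y ≤ L := by
  unfold KK; split_ifs with h
  · exact le_refl _
  · have h1 := Real.one_sub_sq_div_two_le_cos (x := L * y)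
    have hy : 0 < y ^ 2 := by positivity
    rw [div_le_iff₀ (by positivity)]
    nlinarith

lemma KK_le_inv (L y : ℝ) (hL : 0 < L) (hy : y ≠ 0) : KK L y ≤ 4 / L * (1 / y ^ 2) := by
  unfold KK; rw [if_neg hy]
  have h1 := Real.neg_one_le_cos (L * y)
  have hy2 : 0 < y ^ 2 := by positivity
  have : 4 / L * (1 / y ^ 2) = 4 / (L * y ^ 2) := by field_simp
  rw [this]
  apply div_le_div_of_nonneg_right _ (by positivity)
  linarith

lemma KK_lower (L y : ℝ) (hL : 0 < L) (hy : |L * y| ≤ 1) : L / 2 ≤ KK L y := by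
  unfold KK; split_ifs with h
  · linarith
  · have h1 := Real.cos_bound hy
    have hy2 : 0 < y ^ 2 := by positivity
    have h2 := (abs_le.mp h1).2
    have h3 : |L * y| ^ 4 ≤ (L * y) ^ 2 := by
      have : |L * y| ^ 4 = |L * y| ^ 2 * |L * y| ^ 2 := by ring
      rw [this, sq_abs]
      have h4 : (L * y) ^ 2 ≤ 1 := by
        rw [← sq_abs]
        exact pow_le_one₀ (abs_nonneg _) hy
      nlinarith [sq_nonneg (L * y)]
    rw [le_div_iff₀ (by positivity)]
    have h5 : (L * y) ^ 2 = L ^ 2 * y ^ 2 := by ring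
    nlinarith [sq_nonneg (L * y)]

lemma KK_le_lorentz (L y : ℝ) (hL : 0 < L) : KK L y ≤ (L + 4 / L) * (1 + y ^ 2)⁻¹ := by
  have h1 := KK_le_L L y hL
  have hpos : 0 < 1 + y ^ 2 := by positivity
  rw [← div_eq_mul_inv, le_div_iff₀ hpos]
  by_cases hy : y = 0
  · subst hy
    simp only [ne_eq, OfNat.ofNat_ne_zero, not_false_eq_true, zero_pow, add_zero, mul_one]
    have : 0 < 4 / L := by positivity
    linarith
  · have h2 := KK_le_inv L y hL hy
    have hy2 : 0 < y ^ 2 := by positivity
    have h3 : KK L y * y ^ 2 ≤ 4 / L := by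
      calc KK L y * y ^ 2 ≤ 4 / L * (1 / y ^ 2) * y ^ 2 := mul_le_mul_of_nonneg_right h2 hy2.le
        _ = 4 / L := by field_simp
    nlinarith

lemma measurable_KK (L : ℝ) : Measurable (KK L) := by
  unfold KK
  apply Measurable.ite (measurableSet_singleton 0)
  · exact measurable_const
  · fun_prop

lemma integrable_KK (L : ℝ) (hL : 0 < L) : Integrable (KK L) := by
  apply Integrable.mono' ((integrable_inv_one_add_sq).const_mul (L + 4 / L))
    (measurable_KK L).aestronglyMeasurable
  filter_upwards with y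
  rw [Real.norm_of_nonneg (KK_nonneg L y hL)]
  exact KK_le_lorentz L y hL

lemma KK_eq (L y : ℝ) (hL : 0 < L) :
    ∫ τ in (-L)..L, ((1 - |τ| / L : ℝ) : ℂ) * Complex.exp (Complex.I * τ * y) = (KK L y : ℂ) := by
  have hcont : Continuous (fun τ : ℝ => ((1 - |τ| / L : ℝ) : ℂ) * Complex.exp (Complex.I * τ * y)) := by
    have : Continuous (fun τ : ℝ => 1 - |τ| / L) := by fun_prop
    have h2 : Continuous (fun τ : ℝ => ((1 - |τ| / L : ℝ) : ℂ)) := Complex.continuous_ofReal.comp this
    exact h2.mul (by fun_prop)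
  rw [← intervalIntegral.integral_add_adjacent_intervals (b := 0)
    (hcont.intervalIntegrable _ _) (hcont.intervalIntegrable _ _)]
  have hLc : (L : ℂ) ≠ 0 := by exact_mod_cast hL.ne'
  have e1 : ∫ τ in (-L)..0, ((1 - |τ| / L : ℝ) : ℂ) * Complex.exp (Complex.I * τ * y) =
      ∫ τ in (-L)..0, (1 + (τ : ℂ) / L) * Complex.exp (Complex.I * τ * y) := by
    apply intervalIntegral.integral_congr
    intro τ hτ
    rw [uIcc_of_le (by linarith)] at hτ
    simp only
    rw [abs_of_nonpos hτ.2]
    push_cast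
    ring
  have e2 : ∫ τ in (0)..L, ((1 - |τ| / L : ℝ) : ℂ) * Complex.exp (Complex.I * τ * y) =
      ∫ τ in (0)..L, (1 - (τ : ℂ) / L) * Complex.exp (Complex.I * τ * y) := by
    apply intervalIntegral.integral_congr
    intro τ hτ
    rw [uIcc_of_le (by linarith)] at hτ
    simp only
    rw [abs_of_nonneg hτ.1]
    push_cast
    ring
  rw [e1, e2]
  by_cases hy : y = 0
  · subst hy
    simp only [Complex.ofReal_zero, mul_zero, Complex.exp_zero, mul_one, KK, if_true]
    have f1 : ∀ τ : ℝ, HasDerivAt (fun τ : ℝ => (τ : ℂ) + (τ : ℂ) ^ 2 / (2 * L)) (1 + (τ : ℂ) / L) τ := by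
      intro τ
      have h1 : HasDerivAt (fun τ : ℝ => (τ : ℂ)) 1 τ := Complex.ofRealCLM.hasDerivAt
      have h2 := h1.add ((h1.pow 2).div_const (2 * (L : ℂ)))
      convert! h2 using 1
      simp
      field_simp
    have f2 : ∀ τ : ℝ, HasDerivAt (fun τ : ℝ => (τ : ℂ) - (τ : ℂ) ^ 2 / (2 * L)) (1 - (τ : ℂ) / L) τ := by
      intro τ
      have h1 : HasDerivAt (fun τ : ℝ => (τ : ℂ)) 1 τ := Complex.ofRealCLM.hasDerivAt
      have h2 := h1.sub ((h1.pow 2).div_const (2 * (L : ℂ)))
      convert! h2 using 1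
      simp
      field_simp
    rw [intervalIntegral.integral_eq_sub_of_hasDerivAt (fun τ _ => f1 τ)
      (by apply Continuous.intervalIntegrable; fun_prop),
      intervalIntegral.integral_eq_sub_of_hasDerivAt (fun τ _ => f2 τ)
      (by apply Continuous.intervalIntegrable; fun_prop)]
    push_cast
    field_simp
    ring
  · have hyc : (y : ℂ) ≠ 0 := by exact_mod_cast hy
    have hIy : Complex.I * (y : ℂ) ≠ 0 := mul_ne_zero Complex.I_ne_zero hyc
    have hE : ∀ τ : ℝ, HasDerivAt (fun τ : ℝ => Complex.exp (Complex.I * τ * y))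
        (Complex.exp (Complex.I * τ * y) * (Complex.I * y)) τ := by
      intro τ
      have h1 : HasDerivAt (fun τ : ℝ => (τ : ℂ)) 1 τ := Complex.ofRealCLM.hasDerivAt
      have h2 : HasDerivAt (fun τ : ℝ => Complex.I * (τ : ℂ) * y) (Complex.I * 1 * y) τ :=
        (h1.const_mul Complex.I).mul_const (y : ℂ)
      have h3 := h2.cexp
      convert! h3 using 1
      ring
    have f1 : ∀ τ : ℝ, HasDerivAt (fun τ : ℝ => (1 + (τ : ℂ) / L) * Complex.exp (Complex.I * τ * y) / (Complex.I * y)
        - Complex.exp (Complex.I * τ * y) / (L * (Complex.I * y) ^ 2))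
        ((1 + (τ : ℂ) / L) * Complex.exp (Complex.I * τ * y)) τ := by
      intro τ
      have h1 : HasDerivAt (fun τ : ℝ => (τ : ℂ)) 1 τ := Complex.ofRealCLM.hasDerivAt
      have h2 : HasDerivAt (fun τ : ℝ => 1 + (τ : ℂ) / L) (1 / (L : ℂ)) τ := by
        have := (h1.div_const (L : ℂ)).const_add 1
        exact this
      have h3 := ((h2.mul (hE τ)).div_const (Complex.I * y)).sub ((hE τ).div_const (L * (Complex.I * y) ^ 2))
      convert! h3 using 1
      field_simp
      ring
    have f2 : ∀ τ : ℝ, HasDerivAt (fun τ : ℝ => (1 - (τ : ℂ) / L) * Complex.exp (Complex.I * τ * y) / (Complex.I * y)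
        + Complex.exp (Complex.I * τ * y) / (L * (Complex.I * y) ^ 2))
        ((1 - (τ : ℂ) / L) * Complex.exp (Complex.I * τ * y)) τ := by
      intro τ
      have h1 : HasDerivAt (fun τ : ℝ => (τ : ℂ)) 1 τ := Complex.ofRealCLM.hasDerivAt
      have h2 : HasDerivAt (fun τ : ℝ => 1 - (τ : ℂ) / L) (-(1 / (L : ℂ))) τ := by
        have := (h1.div_const (L : ℂ)).const_sub 1
        exact this
      have h3 := ((h2.mul (hE τ)).div_const (Complex.I * y)).add ((hE τ).div_const (L * (Complex.I * y) ^ 2))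
      convert! h3 using 1
      field_simp
      ring
    rw [intervalIntegral.integral_eq_sub_of_hasDerivAt (fun τ _ => f1 τ)
      (by apply Continuous.intervalIntegrable; fun_prop),
      intervalIntegral.integral_eq_sub_of_hasDerivAt (fun τ _ => f2 τ)
      (by apply Continuous.intervalIntegrable; fun_prop)]
    rw [KK, if_neg hy]
    push_cast
    have hcos : Complex.exp (Complex.I * L * y) + Complex.exp (Complex.I * (-(L : ℂ)) * y) = 2 * Complex.cos (L * y) := by
      rw [Complex.two_cos]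
      congr 1 <;> congr 1 <;> ring
    simp only [mul_zero, zero_mul, Complex.exp_zero, zero_div, add_zero, sub_zero, mul_one]
    have hI2 : (Complex.I * (y : ℂ)) ^ 2 = - (y : ℂ) ^ 2 := by
      rw [mul_pow, Complex.I_sq]; ring
    rw [hI2]
    have hm1 : (1 + -(L : ℂ) / L) = 0 := by field_simp; ring
    have hm2 : (1 - (L : ℂ) / L) = 0 := by field_simp; ring
    rw [hm1, hm2]
    have hy2 : (y : ℂ) ^ 2 ≠ 0 := pow_ne_zero 2 hyc
    have : Complex.exp (Complex.I * L * y) = 2 * Complex.cos (L * y) - Complex.exp (Complex.I * (-(L : ℂ)) * y) := by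
      rw [← hcos]; ring
    rw [this]
    field_simp
    ring

/-- The weight `1 - |τ|/L`. -/
def wt (L τ : ℝ) : ℝ := 1 - |τ| / L

lemma continuous_wt (L : ℝ) : Continuous (wt L) := by unfold wt; fun_prop

lemma abs_wt_le (L τ : ℝ) (hL : 0 < L) (h : τ ∈ Ioc (-L) L) : |wt L τ| ≤ 1 := by
  unfold wt
  have h1 : |τ| ≤ L := abs_le.mpr ⟨h.1.le, h.2⟩
  have h2 : |τ| / L ≤ 1 := by rw [div_le_one hL]; exact h1
  have h3 : 0 ≤ |τ| / L := by positivity
  rw [abs_le]; constructor <;> linarith

/-- Smoothing identity for `δ > 0`. -/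
lemma smooth_identity (L : ℝ) (hL : 0 < L) (δ : ℝ) (hδ : 0 < δ) (v : ℝ) :
    ∫ u in Ioi (0 : ℝ), (mm u : ℂ) * Complex.exp (-(δ : ℂ) * u) * (KK L (v - u) : ℂ) =
    ∫ τ in Ioc (-L) L, (wt L τ : ℂ) * Complex.exp (Complex.I * τ * v) * GG ((δ : ℂ) + Complex.I * τ) := by
  have hG : ∀ τ : ℝ, GG ((δ : ℂ) + Complex.I * τ) =
      ∫ u in Ioi (0 : ℝ), (mm u : ℂ) * Complex.exp (-((δ : ℂ) + Complex.I * τ) * u) := by
    intro τ
    rw [laplace_mm]
    · rw [GG, if_neg]
      intro h
      have := congrArg Complex.re h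
      simp at this; linarith
    · simp; exact hδ
  set F : ℝ → ℝ → ℂ := fun τ u => (wt L τ : ℂ) * Complex.exp (Complex.I * τ * v) *
    ((mm u : ℂ) * Complex.exp (-((δ : ℂ) + Complex.I * τ) * u)) with hF
  have hint : Integrable (Function.uncurry F) ((volume.restrict (Ioc (-L) L)).prod (volume.restrict (Ioi (0 : ℝ)))) := by
    have hb1 : Integrable (fun τ : ℝ => (1 : ℝ)) (volume.restrict (Ioc (-L) L)) := by
      apply integrable_const
    have hb2 : Integrable (fun u : ℝ => Real.exp (-δ * u)) (volume.restrict (Ioi (0 : ℝ))) :=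
      exp_neg_integrableOn_Ioi 0 hδ
    have hb := hb1.mul_prod hb2
    refine Integrable.mono' hb ?_ ?_
    · apply Measurable.aestronglyMeasurable
      have m1 : Measurable (fun p : ℝ × ℝ => (wt L p.1 : ℂ)) :=
        Complex.measurable_ofReal.comp ((continuous_wt L).measurable.comp measurable_fst)
      have m2 : Measurable (fun p : ℝ × ℝ => (mm p.2 : ℂ)) :=
        Complex.measurable_ofReal.comp (measurable_mm.comp measurable_snd)
      have m3 : Measurable (fun p : ℝ × ℝ => Complex.exp (Complex.I * (p.1 : ℂ) * v)) := by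
        apply Continuous.measurable; fun_prop
      have m4 : Measurable (fun p : ℝ × ℝ => Complex.exp (-((δ : ℂ) + Complex.I * (p.1 : ℂ)) * (p.2 : ℂ))) := by
        apply Continuous.measurable; fun_prop
      exact (m1.mul m3).mul (m2.mul m4)
    · have hset : MeasurableSet (Ioc (-L) L ×ˢ (Ioi (0 : ℝ))) := measurableSet_Ioc.prod measurableSet_Ioi
      rw [Measure.prod_restrict]
      filter_upwards [ae_restrict_mem hset] with p hp
      have hp1 : p.1 ∈ Ioc (-L) L := hp.1
      simp only [Function.uncurry, hF]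
      rw [norm_mul, norm_mul, norm_mul, Complex.norm_real, Complex.norm_real, Complex.norm_exp, Complex.norm_exp]
      have e1 : (Complex.I * (p.1 : ℂ) * v).re = 0 := by simp
      have e2 : (-((δ : ℂ) + Complex.I * (p.1 : ℂ)) * (p.2 : ℂ)).re = -δ * p.2 := by simp
      rw [e1, e2, Real.exp_zero, mul_one]
      calc ‖wt L p.1‖ * (‖mm p.2‖ * Real.exp (-δ * p.2)) ≤ 1 * (1 * Real.exp (-δ * p.2)) := by
            apply mul_le_mul
            · exact abs_wt_le L p.1 hL hp1
            · exact mul_le_mul_of_nonneg_right (abs_mm_le p.2) (Real.exp_pos _).le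
            · positivity
            · norm_num
        _ = 1 * Real.exp (-δ * p.2) := by ring
  calc ∫ u in Ioi (0 : ℝ), (mm u : ℂ) * Complex.exp (-(δ : ℂ) * u) * (KK L (v - u) : ℂ)
      = ∫ u in Ioi (0 : ℝ), ∫ τ in Ioc (-L) L, F τ u := by
        apply setIntegral_congr_fun measurableSet_Ioi
        intro u _
        simp only
        rw [← KK_eq L (v - u) hL, intervalIntegral.integral_of_le (by linarith), ← integral_const_mul]
        apply setIntegral_congr_fun measurableSet_Ioc
        intro τ _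
        simp only [hF, wt]
        have : Complex.exp (-((δ : ℂ) + Complex.I * τ) * u) = Complex.exp (-(δ : ℂ) * u) * Complex.exp (-(Complex.I * τ * u)) := by
          rw [← Complex.exp_add]; congr 1; ring
        rw [this]
        have h2 : Complex.exp (Complex.I * τ * ((v - u : ℝ) : ℂ)) = Complex.exp (Complex.I * τ * v) * Complex.exp (-(Complex.I * τ * u)) := by
          rw [← Complex.exp_add]; congr 1; push_cast; ring
        rw [h2]
        ring
    _ = ∫ τ in Ioc (-L) L, ∫ u in Ioi (0 : ℝ), F τ u := by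
        rw [integral_integral_swap]
        exact hint.swap
    _ = ∫ τ in Ioc (-L) L, (wt L τ : ℂ) * Complex.exp (Complex.I * τ * v) * GG ((δ : ℂ) + Complex.I * τ) := by
        apply setIntegral_congr_fun measurableSet_Ioc
        intro τ _
        simp only [hF]
        rw [integral_const_mul, hG τ]

/-- Smoothing identity in the limit `δ → 0`. -/
lemma smooth_identity_zero (L : ℝ) (hL : 0 < L) (v : ℝ) :
    ∫ u in Ioi (0 : ℝ), (mm u : ℂ) * (KK L (v - u) : ℂ) =
    ∫ τ in Ioc (-L) L, (wt L τ : ℂ) * Complex.exp (Complex.I * τ * v) * GG (Complex.I * τ) := by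
  set dn : ℕ → ℝ := fun n => 1 / ((n : ℝ) + 1) with hdn
  have hdn0 : ∀ n, 0 < dn n := fun n => by simp only [hdn]; positivity
  have hdn1 : ∀ n, dn n ≤ 1 := fun n => by
    simp only [hdn]; rw [div_le_one (by positivity)]
    have : (0 : ℝ) ≤ n := by positivity
    linarith
  have hdnlim : Tendsto dn atTop (𝓝 0) := tendsto_one_div_add_atTop_nhds_zero_nat
  have hdnc : Tendsto (fun n => (dn n : ℂ)) atTop (𝓝 0) := by
    have := (Complex.continuous_ofReal.tendsto 0).comp hdnlim
    simpa [Function.comp_def] using this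
  -- left side
  have hleft : Tendsto (fun n => ∫ u in Ioi (0 : ℝ), (mm u : ℂ) * Complex.exp (-(dn n : ℂ) * u) * (KK L (v - u) : ℂ))
      atTop (𝓝 (∫ u in Ioi (0 : ℝ), (mm u : ℂ) * (KK L (v - u) : ℂ))) := by
    apply tendsto_integral_of_dominated_convergence (fun u => KK L (v - u))
    · intro n
      apply Measurable.aestronglyMeasurable
      have m1 : Measurable (fun u : ℝ => (mm u : ℂ)) := Complex.measurable_ofReal.comp measurable_mm
      have m2 : Measurable (fun u : ℝ => Complex.exp (-(dn n : ℂ) * (u : ℂ))) := by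
        apply Continuous.measurable; fun_prop
      have m3 : Measurable (fun u : ℝ => (KK L (v - u) : ℂ)) :=
        Complex.measurable_ofReal.comp ((measurable_KK L).comp (measurable_const.sub measurable_id))
      exact (m1.mul m2).mul m3
    · exact ((integrable_KK L hL).comp_sub_left v).integrableOn
    · intro n
      filter_upwards [ae_restrict_mem measurableSet_Ioi] with u hu
      have hu' : (0 : ℝ) < u := hu
      rw [norm_mul, norm_mul, Complex.norm_real, Complex.norm_real, Complex.norm_exp]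
      have e2 : (-(dn n : ℂ) * (u : ℂ)).re = -(dn n) * u := by simp
      rw [e2, Real.norm_of_nonneg (KK_nonneg L (v - u) hL)]
      have h1 : Real.exp (-(dn n) * u) ≤ 1 := by
        rw [Real.exp_le_one_iff]
        nlinarith [hdn0 n]
      have h2 : ‖mm u‖ * Real.exp (-(dn n) * u) ≤ 1 := by
        calc ‖mm u‖ * Real.exp (-(dn n) * u) ≤ 1 * 1 :=
              mul_le_mul (abs_mm_le u) h1 (Real.exp_pos _).le (by norm_num)
          _ = 1 := by ring
      calc ‖mm u‖ * Real.exp (-(dn n) * u) * KK L (v - u) ≤ 1 * KK L (v - u) :=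
            mul_le_mul_of_nonneg_right h2 (KK_nonneg L (v - u) hL)
        _ = KK L (v - u) := by ring
    · filter_upwards with u
      have h1 : Tendsto (fun n => Complex.exp (-(dn n : ℂ) * u)) atTop (𝓝 1) := by
        have h2 : Tendsto (fun n => -(dn n : ℂ) * u) atTop (𝓝 (-0 * u)) := (hdnc.neg).mul_const _
        have h3 := (Complex.continuous_exp.tendsto _).comp h2
        simpa [Function.comp_def] using h3
      have h4 := (h1.const_mul (mm u : ℂ)).mul_const (KK L (v - u) : ℂ)
      simpa using h4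
  -- right side
  have hcontG : ContinuousOn GG {z : ℂ | 0 ≤ z.re} := fun z hz => (continuousWithinAt_GG z hz).continuousWithinAt
  obtain ⟨C, hC⟩ : ∃ C : ℝ, ∀ n : ℕ, ∀ τ ∈ Ioc (-L) L, ‖GG ((dn n : ℂ) + Complex.I * τ)‖ ≤ C := by
    have hcomp : IsCompact ((fun p : ℝ × ℝ => (p.1 : ℂ) + Complex.I * p.2) '' (Icc 0 1 ×ˢ Icc (-L) L)) := by
      apply IsCompact.image
      · exact isCompact_Icc.prod isCompact_Icc
      · fun_prop
    have hsub : ((fun p : ℝ × ℝ => (p.1 : ℂ) + Complex.I * p.2) '' (Icc 0 1 ×ˢ Icc (-L) L)) ⊆ {z : ℂ | 0 ≤ z.re} := by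
      rintro z ⟨p, hp, rfl⟩
      have := hp.1.1
      simpa using this
    obtain ⟨C, hC⟩ := hcomp.exists_bound_of_continuousOn (hcontG.mono hsub)
    refine ⟨C, fun n τ hτ => hC _ ⟨(dn n, τ), ⟨⟨(hdn0 n).le, hdn1 n⟩, ⟨hτ.1.le, hτ.2⟩⟩, rfl⟩⟩
  have hright : Tendsto (fun n => ∫ τ in Ioc (-L) L, (wt L τ : ℂ) * Complex.exp (Complex.I * τ * v) * GG ((dn n : ℂ) + Complex.I * τ))
      atTop (𝓝 (∫ τ in Ioc (-L) L, (wt L τ : ℂ) * Complex.exp (Complex.I * τ * v) * GG (Complex.I * τ))) := by
    apply tendsto_integral_of_dominated_convergence (fun τ => C)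
    · intro n
      apply ContinuousOn.aestronglyMeasurable _ measurableSet_Ioc
      apply ContinuousOn.mul
      · apply Continuous.continuousOn
        exact (Complex.continuous_ofReal.comp (continuous_wt L)).mul (by fun_prop)
      · apply hcontG.comp (f := fun τ : ℝ => (dn n : ℂ) + Complex.I * τ)
        · apply Continuous.continuousOn; fun_prop
        · intro τ _
          simp [(hdn0 n).le]
    · apply integrable_const
    · intro n
      filter_upwards [ae_restrict_mem measurableSet_Ioc] with τ hτ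
      rw [norm_mul, norm_mul, Complex.norm_real, Complex.norm_exp]
      have e1 : (Complex.I * (τ : ℂ) * v).re = 0 := by simp
      rw [e1, Real.exp_zero, mul_one]
      have h1 := abs_wt_le L τ hL hτ
      have h2 := hC n τ hτ
      calc ‖wt L τ‖ * ‖GG ((dn n : ℂ) + Complex.I * τ)‖ ≤ 1 * C :=
            mul_le_mul h1 h2 (norm_nonneg _) (by norm_num)
        _ = C := by ring
    · filter_upwards with τ
      apply Tendsto.const_mul
      have h0 : (0 : ℝ) ≤ (Complex.I * (τ : ℂ)).re := by simp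
      have h1 := (continuousWithinAt_GG (Complex.I * τ) h0).tendsto
      have h2 : Tendsto (fun n => (dn n : ℂ) + Complex.I * τ) atTop (𝓝 (Complex.I * τ)) := by
        have := hdnc.add_const (Complex.I * (τ : ℂ))
        simpa using this
      exact h1.comp h2
  refine tendsto_nhds_unique hleft ?_
  refine hright.congr ?_
  intro n
  exact (smooth_identity L hL (dn n) (hdn0 n) v).symm

/-- The smoothed function tends to zero. -/
lemma smooth_tendsto (L : ℝ) (hL : 0 < L) :
    Tendsto (fun v : ℝ => ∫ u in Ioi (0 : ℝ), mm u * KK L (v - u)) atTop (𝓝 0) := by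
  have hRL := Real.tendsto_integral_exp_smul_cocompact
    (fun τ : ℝ => (Ioc (-L) L).indicator (fun τ : ℝ => (wt L τ : ℂ) * GG (Complex.I * τ)) τ)
  have hw : Tendsto (fun v : ℝ => -v / (2 * Real.pi)) atTop (cocompact ℝ) := by
    have h1 : Tendsto (fun v : ℝ => -v / (2 * Real.pi)) atTop atBot := by
      apply Tendsto.atBot_div_const (by positivity)
      exact tendsto_neg_atTop_atBot
    exact h1.mono_right (atBot_le_cocompact)
  have h1 := hRL.comp hw
  have h2 : Tendsto (fun v : ℝ => ∫ u in Ioi (0 : ℝ), (mm u : ℂ) * (KK L (v - u) : ℂ)) atTop (𝓝 0) := by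
    refine h1.congr ?_
    intro v
    rw [smooth_identity_zero L hL v, ← integral_indicator measurableSet_Ioc]
    simp only [Function.comp]
    apply integral_congr_ae
    filter_upwards with τ
    by_cases hτ : τ ∈ Ioc (-L) L
    · rw [indicator_of_mem hτ, indicator_of_mem hτ]
      rw [Circle.smul_def, Real.fourierChar_apply]
      rw [smul_eq_mul]
      have : Complex.exp (2 * Real.pi * ((-(τ * (-v / (2 * Real.pi))) : ℝ) : ℂ) * Complex.I) = Complex.exp (Complex.I * τ * v) := by
        congr 1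
        push_cast
        have hpi : (Real.pi : ℂ) ≠ 0 := by exact_mod_cast Real.pi_ne_zero
        field_simp
      rw [show ((2 * Real.pi * (-(τ * (-v / (2 * Real.pi)))) : ℝ) : ℂ) * Complex.I = 2 * Real.pi * ((-(τ * (-v / (2 * Real.pi))) : ℝ) : ℂ) * Complex.I by push_cast; ring]
      rw [this]
      ring
    · rw [indicator_of_notMem hτ, indicator_of_notMem hτ]
      simp
  have h3 := (Complex.continuous_re.tendsto 0).comp h2
  simp only [Complex.zero_re] at h3
  refine h3.congr ?_
  intro v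
  simp only [Function.comp]
  have h4 : ∫ u in Ioi (0 : ℝ), (mm u : ℂ) * (KK L (v - u) : ℂ) = ((∫ u in Ioi (0 : ℝ), mm u * KK L (v - u) : ℝ) : ℂ) := by
    rw [← integral_complex_ofReal]
    apply setIntegral_congr_fun measurableSet_Ioi
    intro u _
    push_cast
    rfl
  rw [h4, Complex.ofReal_re]

/-- Lower bound for a signed average. -/
lemma smooth_lower (L h ε v : ℝ) (hL : 0 < L) (hh : 0 < h) (hε : 0 < ε) (hε1 : ε ≤ 1)
    (hL1 : 1 ≤ L * h) (hL2 : (4 / L) * (1 + 1 / h ^ 2) * Real.pi ≤ ε / 2) (hv : h < v)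
    (s : ℝ) (hs : s = 1 ∨ s = -1)
    (hbig : ∀ u, |v - u| ≤ h → ε ≤ s * mm u) :
    ε / 2 ≤ s * ∫ u in Ioi (0 : ℝ), mm u * KK L (v - u) := by
  have hKint : Integrable (fun u => KK L (v - u)) := (integrable_KK L hL).comp_sub_left v
  have hsabs : |s| = 1 := by rcases hs with h | h <;> simp [h]
  have hmint : Integrable (fun u => s * (mm u * KK L (v - u))) := by
    refine Integrable.mono' hKint ?_ ?_
    · apply Measurable.aestronglyMeasurable
      exact measurable_const.mul (measurable_mm.mul ((measurable_KK L).comp (measurable_const.sub measurable_id)))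
    · filter_upwards with u
      rw [norm_mul, norm_mul, Real.norm_eq_abs, hsabs, one_mul, Real.norm_of_nonneg (KK_nonneg L (v - u) hL)]
      calc ‖mm u‖ * KK L (v - u) ≤ 1 * KK L (v - u) :=
            mul_le_mul_of_nonneg_right (abs_mm_le u) (KK_nonneg L _ hL)
        _ = KK L (v - u) := one_mul _
  -- comparison function
  set low : ℝ → ℝ := fun u => (Icc (v - 1 / L) (v + 1 / L)).indicator (fun _ => ε * (L / 2)) u -
      (4 / L) * (1 + 1 / h ^ 2) * (1 + (v - u) ^ 2)⁻¹ with hlow
  have hi1 : Integrable (fun u => (Icc (v - 1 / L) (v + 1 / L)).indicator (fun _ => ε * (L / 2)) u) := by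
    rw [integrable_indicator_iff measurableSet_Icc]
    apply integrableOn_const
    · simp
    · exact enorm_ne_top
  have hi2 : Integrable (fun u => (4 / L) * (1 + 1 / h ^ 2) * (1 + (v - u) ^ 2)⁻¹) := by
    apply Integrable.const_mul
    exact integrable_inv_one_add_sq.comp_sub_left v
  have hlowint : Integrable low := hi1.sub hi2
  have hhL : 1 / L ≤ h := by rw [div_le_iff₀ hL]; linarith
  have hpt : ∀ u ∈ Ioi (0 : ℝ), low u ≤ s * (mm u * KK L (v - u)) := by
    intro u _
    simp only [hlow]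
    have hK0 := KK_nonneg L (v - u) hL
    have hpos : 0 < (1 + (v - u) ^ 2)⁻¹ := by positivity
    have hpos2 : 0 ≤ (4 / L) * (1 + 1 / h ^ 2) * (1 + (v - u) ^ 2)⁻¹ := by positivity
    by_cases hin : |v - u| ≤ h
    · have h1 := hbig u hin
      have h2 : ε * KK L (v - u) ≤ s * (mm u * KK L (v - u)) := by
        calc ε * KK L (v - u) ≤ (s * mm u) * KK L (v - u) := mul_le_mul_of_nonneg_right h1 hK0
          _ = s * (mm u * KK L (v - u)) := by ring
      by_cases hin2 : u ∈ Icc (v - 1 / L) (v + 1 / L)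
      · rw [indicator_of_mem hin2]
        have h3 : |L * (v - u)| ≤ 1 := by
          rw [abs_mul, abs_of_pos hL]
          have : |v - u| ≤ 1 / L := by
            rw [abs_le]; constructor <;> linarith [hin2.1, hin2.2]
          calc L * |v - u| ≤ L * (1 / L) := mul_le_mul_of_nonneg_left this hL.le
            _ = 1 := by field_simp
        have h4 := KK_lower L (v - u) hL h3
        have h5 : ε * (L / 2) ≤ ε * KK L (v - u) := mul_le_mul_of_nonneg_left h4 hε.le
        linarith
      · rw [indicator_of_notMem hin2]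
        have : 0 ≤ ε * KK L (v - u) := mul_nonneg hε.le hK0
        linarith
    · push Not at hin
      have hout : u ∉ Icc (v - 1 / L) (v + 1 / L) := by
        intro hmem
        have : |v - u| ≤ 1 / L := by
          rw [abs_le]; constructor <;> linarith [hmem.1, hmem.2]
        linarith
      rw [indicator_of_notMem hout]
      have hne : v - u ≠ 0 := by
        intro h0; rw [h0] at hin; simp at hin; linarith
      have h1 := KK_le_inv L (v - u) hL hne
      have h2 : -(KK L (v - u)) ≤ s * (mm u * KK L (v - u)) := by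
        have h3 : |s * (mm u * KK L (v - u))| ≤ KK L (v - u) := by
          rw [abs_mul, hsabs, one_mul, abs_mul, abs_of_nonneg hK0]
          calc |mm u| * KK L (v - u) ≤ 1 * KK L (v - u) :=
                mul_le_mul_of_nonneg_right (abs_mm_le u) hK0
            _ = KK L (v - u) := one_mul _
        exact (abs_le.mp h3).1
      have h4 : 1 / (v - u) ^ 2 ≤ (1 + 1 / h ^ 2) * (1 + (v - u) ^ 2)⁻¹ := by
        have hy2 : h ^ 2 ≤ (v - u) ^ 2 := by
          rw [← sq_abs (v - u)]
          exact pow_le_pow_left₀ hh.le hin.le 2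
        have hy2pos : 0 < (v - u) ^ 2 := by positivity
        rw [← div_eq_mul_inv, div_le_div_iff₀ hy2pos (by positivity)]
        have : 1 ≤ 1 / h ^ 2 * (v - u) ^ 2 := by
          rw [one_div, inv_mul_eq_div, le_div_iff₀ (by positivity)]
          linarith
        nlinarith
      have h5 : KK L (v - u) ≤ (4 / L) * (1 + 1 / h ^ 2) * (1 + (v - u) ^ 2)⁻¹ := by
        calc KK L (v - u) ≤ 4 / L * (1 / (v - u) ^ 2) := h1
          _ ≤ 4 / L * ((1 + 1 / h ^ 2) * (1 + (v - u) ^ 2)⁻¹) :=
              mul_le_mul_of_nonneg_left h4 (by positivity)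
          _ = _ := by ring
      linarith
  have hmono : ∫ u in Ioi (0 : ℝ), low u ≤ ∫ u in Ioi (0 : ℝ), s * (mm u * KK L (v - u)) :=
    setIntegral_mono_on hlowint.integrableOn hmint.integrableOn measurableSet_Ioi hpt
  rw [integral_const_mul] at hmono
  refine le_trans ?_ hmono
  simp only [hlow]
  rw [integral_sub hi1.integrableOn hi2.integrableOn]
  have hI1 : ∫ u in Ioi (0 : ℝ), (Icc (v - 1 / L) (v + 1 / L)).indicator (fun _ => ε * (L / 2)) u = ε := by
    rw [setIntegral_indicator measurableSet_Icc]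
    have hinter : Ioi (0 : ℝ) ∩ Icc (v - 1 / L) (v + 1 / L) = Icc (v - 1 / L) (v + 1 / L) := by
      apply inter_eq_right.mpr
      intro x hx
      have := hx.1
      show (0 : ℝ) < x
      linarith
    rw [hinter, setIntegral_const, smul_eq_mul, Measure.real, Real.volume_Icc,
      ENNReal.toReal_ofReal (by ring_nf; positivity)]
    field_simp
    ring
  have hI2 : ∫ u in Ioi (0 : ℝ), (4 / L) * (1 + 1 / h ^ 2) * (1 + (v - u) ^ 2)⁻¹ ≤ ε / 2 := by
    calc ∫ u in Ioi (0 : ℝ), (4 / L) * (1 + 1 / h ^ 2) * (1 + (v - u) ^ 2)⁻¹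
        ≤ ∫ u, (4 / L) * (1 + 1 / h ^ 2) * (1 + (v - u) ^ 2)⁻¹ := by
          apply setIntegral_le_integral hi2
          filter_upwards with u
          have : 0 < (1 + (v - u) ^ 2)⁻¹ := by positivity
          positivity
      _ = (4 / L) * (1 + 1 / h ^ 2) * Real.pi := by
          rw [integral_const_mul, integral_sub_left_eq_self (fun y : ℝ => (1 + y ^ 2)⁻¹) volume v,
            integral_univ_inv_one_add_sq]
      _ ≤ ε / 2 := hL2
  rw [hI1]
  linarith

/-- `M(n) = o(n)`. -/
theorem mertens_littleO : ∀ ε : ℝ, 0 < ε → ∃ N : ℕ, ∀ n : ℕ, N ≤ n → |MM n| ≤ ε * n := by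
  intro ε hε
  by_contra hcon
  push Not at hcon
  -- WLOG ε ≤ 1
  set ε' : ℝ := min ε 1 with hε'
  have hε'0 : 0 < ε' := lt_min hε one_pos
  have hε'1 : ε' ≤ 1 := min_le_right _ _
  have hcon' : ∀ N : ℕ, ∃ n : ℕ, N ≤ n ∧ ε' * n < |MM n| := by
    intro N
    obtain ⟨n, hn, h⟩ := hcon N
    refine ⟨n, hn, lt_of_le_of_lt ?_ h⟩
    exact mul_le_mul_of_nonneg_right (min_le_left _ _) (by positivity)
  clear hcon
  -- window
  set h : ℝ := Real.log (1 + ε' / 2) / 2 with hh
  have hlogpos : 0 < Real.log (1 + ε' / 2) := Real.log_pos (by linarith)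
  have hh0 : 0 < h := by positivity
  obtain ⟨L, hL0, hL1, hL2⟩ : ∃ L : ℝ, 0 < L ∧ 1 ≤ L * h ∧
      (4 / L) * (1 + 1 / h ^ 2) * Real.pi ≤ (ε' / 4) / 2 := by
    set B : ℝ := (1 + 1 / h ^ 2) * Real.pi with hB
    have hB0 : 0 < B := by positivity
    refine ⟨max (1 / h) (32 * B / ε'), ?_, ?_, ?_⟩
    · exact lt_of_lt_of_le (by positivity) (le_max_left _ _)
    · calc (1 : ℝ) = 1 / h * h := by field_simp
        _ ≤ max (1 / h) (32 * B / ε') * h := mul_le_mul_of_nonneg_right (le_max_left _ _) hh0.le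
    · have h1 : 32 * B / ε' ≤ max (1 / h) (32 * B / ε') := le_max_right _ _
      have h2 : 0 < 32 * B / ε' := by positivity
      have h3 : 4 / max (1 / h) (32 * B / ε') ≤ 4 / (32 * B / ε') :=
        div_le_div_of_nonneg_left (by norm_num) h2 h1
      calc (4 / max (1 / h) (32 * B / ε')) * (1 + 1 / h ^ 2) * Real.pi
          = (4 / max (1 / h) (32 * B / ε')) * B := by rw [hB]; ring
        _ ≤ 4 / (32 * B / ε') * B := mul_le_mul_of_nonneg_right h3 hB0.le
        _ = (ε' / 4) / 2 := by field_simp; norm_num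
  have hlim := smooth_tendsto L hL0
  rw [Metric.tendsto_atTop] at hlim
  obtain ⟨V, hV⟩ := hlim ((ε' / 4) / 2) (by positivity)
  obtain ⟨N, hN⟩ : ∃ N : ℕ, Real.exp (max V 0 + 1) + 4 / ε' ≤ N := exists_nat_ge _
  obtain ⟨n, hnN, hn⟩ := hcon' N
  have hnN' : (N : ℝ) ≤ n := by exact_mod_cast hnN
  have hexp : Real.exp (max V 0 + 1) ≤ n := by
    have : 0 < 4 / ε' := by positivity
    linarith
  have hn4 : 4 / ε' ≤ n := by
    have := Real.exp_pos (max V 0 + 1)
    linarith
  have hn0 : (0 : ℝ) < n := lt_of_lt_of_le (Real.exp_pos _) hexp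
  have hlogn : max V 0 + 1 ≤ Real.log n := by
    rw [Real.le_log_iff_exp_le hn0]; exact hexp
  have hV' : V ≤ Real.log n := by
    have := le_max_left V 0
    linarith
  have hpos' : 0 < Real.log n := by
    have := le_max_right V 0
    linarith
  set v : ℝ := Real.log n + h with hv
  -- sign
  obtain ⟨s, hs, hsM⟩ : ∃ s : ℝ, (s = 1 ∨ s = -1) ∧ s * MM n = |MM n| := by
    rcases le_total 0 (MM n) with h0 | h0
    · exact ⟨1, Or.inl rfl, by rw [abs_of_nonneg h0]; ring⟩
    · exact ⟨-1, Or.inr rfl, by rw [abs_of_nonpos h0]; ring⟩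
  have hsabs : |s| = 1 := by rcases hs with h | h <;> simp [h]
  have hbig : ∀ u, |v - u| ≤ h → ε' / 4 ≤ s * mm u := by
    intro u hu
    rw [abs_le] at hu
    have hu1 : Real.log n ≤ u := by linarith [hu.1, hu.2]
    have hu2 : u ≤ Real.log n + 2 * h := by linarith [hu.1, hu.2]
    have hu0 : 0 < u := by linarith
    have he1 : (n : ℝ) ≤ Real.exp u := by
      rw [← Real.log_le_iff_le_exp hn0]; exact hu1
    have he2 : Real.exp u ≤ n * (1 + ε' / 2) := by
      calc Real.exp u ≤ Real.exp (Real.log n + 2 * h) := Real.exp_le_exp.mpr hu2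
        _ = n * (1 + ε' / 2) := by
            rw [Real.exp_add, Real.exp_log hn0]
            congr 1
            rw [hh]
            rw [show 2 * (Real.log (1 + ε' / 2) / 2) = Real.log (1 + ε' / 2) by ring]
            exact Real.exp_log (by linarith)
    rw [mm, if_pos hu0]
    set m := ⌊Real.exp u⌋₊ with hm
    have hmn : n ≤ m := Nat.le_floor he1
    have hm2 : (m : ℝ) ≤ Real.exp u := Nat.floor_le (Real.exp_pos u).le
    have hdiff := MM_diff n (m - n)
    rw [Nat.add_sub_cancel' hmn] at hdiff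
    have hcast : ((m - n : ℕ) : ℝ) = (m : ℝ) - n := by push_cast [Nat.cast_sub hmn]; ring
    rw [hcast] at hdiff
    have h1 : s * MM m ≥ s * MM n - ((m : ℝ) - n) := by
      have h2 : |s * (MM m - MM n)| ≤ (m : ℝ) - n := by
        rw [abs_mul, hsabs, one_mul]; exact hdiff
      have h3 := (abs_le.mp h2).1
      have h4 : s * (MM m - MM n) = s * MM m - s * MM n := by ring
      rw [h4] at h3
      linarith
    have h5 : s * MM m ≥ ε' * n / 2 := by
      rw [hsM] at h1
      have h6 : (m : ℝ) - n ≤ n * (ε' / 2) := by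
        have : (m : ℝ) ≤ n * (1 + ε' / 2) := hm2.trans he2
        linarith
      linarith
    have h7 : Real.exp (-u) * (s * MM m) ≥ Real.exp (-u) * (ε' * n / 2) :=
      mul_le_mul_of_nonneg_left h5 (Real.exp_pos _).le
    have h8 : Real.exp (-u) ≥ 1 / (n * (1 + ε' / 2)) := by
      rw [Real.exp_neg, ← one_div]
      exact one_div_le_one_div_of_le (Real.exp_pos _) he2
    have h9 : Real.exp (-u) * (ε' * n / 2) ≥ 1 / (n * (1 + ε' / 2)) * (ε' * n / 2) :=
      mul_le_mul_of_nonneg_right h8 (by positivity)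
    have h10 : 1 / (n * (1 + ε' / 2)) * (ε' * n / 2) = ε' / 2 / (1 + ε' / 2) := by
      field_simp
    have h11 : ε' / 4 ≤ ε' / 2 / (1 + ε' / 2) := by
      rw [le_div_iff₀ (by linarith)]
      nlinarith
    calc ε' / 4 ≤ Real.exp (-u) * (s * MM m) := by linarith
      _ = s * (Real.exp (-u) * MM m) := by ring
  have hlow := smooth_lower L h (ε' / 4) v hL0 hh0 (by positivity) (by linarith) hL1 hL2
    (by linarith) s hs hbig
  have hV2 := hV v (by linarith)
  rw [Real.dist_eq, sub_zero] at hV2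
  have h1 : s * ∫ u in Ioi (0 : ℝ), mm u * KK L (v - u) ≤ |∫ u in Ioi (0 : ℝ), mm u * KK L (v - u)| := by
    calc s * ∫ u in Ioi (0 : ℝ), mm u * KK L (v - u) ≤ |s * ∫ u in Ioi (0 : ℝ), mm u * KK L (v - u)| := le_abs_self _
      _ = |∫ u in Ioi (0 : ℝ), mm u * KK L (v - u)| := by rw [abs_mul, hsabs, one_mul]
  linarith

end

end Pool.Agent.Helper862.PNT
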