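import Mathlib
import Pool.Agent.Helper862.PNT

set_option autoImplicit false

namespace Pool.Agent.Helper862.Axer

open Filter Topology
open Pool.Agent.Helper862.PNT

noncomputable section

/-- The Möbius function with real values. -/
def mu (k : ℕ) : ℝ := ((ArithmeticFunction.moebius k : ℤ) : ℝ)

lemma abs_mu_le (k : ℕ) : |mu k| ≤ 1 := abs_moebius_le k

lemma MM_succ' (n : ℕ) : MM (n + 1) = MM n + mu (n + 1) := MM_succ n

/-- Abel summation bound for antitone weights. -/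
lemma abel_bound (h : ℕ → ℝ) (m n : ℕ) (hmn : m < n) (S : ℝ)
    (hS : ∀ j, m ≤ j → j ≤ n → |MM j| ≤ S)
    (hanti : ∀ j, m + 1 ≤ j → j < n → h (j + 1) ≤ h j) (hnn : ∀ j, m + 1 ≤ j → j ≤ n → 0 ≤ h j) :
    |∑ k ∈ Finset.Ioc m n, mu k * h k| ≤ 2 * S * h (m + 1) := by
  have key : ∀ k : ℕ, m + 1 + k ≤ n →
      |(∑ j ∈ Finset.Ioc m (m + 1 + k), mu j * h j) - MM (m + 1 + k) * h (m + 1 + k)| ≤
        S * h (m + 1) + S * (h (m + 1) - h (m + 1 + k)) := by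
    intro k
    induction k with
    | zero =>
      intro hk
      simp only [add_zero, sub_self, mul_zero]
      rw [Nat.Ioc_succ_singleton, Finset.sum_singleton, MM_succ']
      have : mu (m + 1) * h (m + 1) - (MM m + mu (m + 1)) * h (m + 1) = - (MM m * h (m + 1)) := by ring
      rw [this, abs_neg, abs_mul, abs_of_nonneg (hnn (m + 1) (le_refl _) (by omega))]
      exact mul_le_mul_of_nonneg_right (hS m (le_refl _) (by omega)) (hnn (m + 1) (le_refl _) (by omega))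
    | succ k ih =>
      intro hk
      have ih' := ih (by omega)
      have e1 : m + 1 + (k + 1) = (m + 1 + k) + 1 := by ring
      rw [e1, Finset.sum_Ioc_succ_top (by omega), MM_succ']
      set q := m + 1 + k with hq
      have : (∑ j ∈ Finset.Ioc m q, mu j * h j) + mu (q + 1) * h (q + 1) - (MM q + mu (q + 1)) * h (q + 1)
          = ((∑ j ∈ Finset.Ioc m q, mu j * h j) - MM q * h q) + MM q * (h q - h (q + 1)) := by ring
      rw [this]
      have h1 : |MM q * (h q - h (q + 1))| ≤ S * (h q - h (q + 1)) := by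
        have h2 := hanti q (by omega) (by omega)
        rw [abs_mul, abs_of_nonneg (by linarith : 0 ≤ h q - h (q + 1))]
        exact mul_le_mul_of_nonneg_right (hS q (by omega) (by omega)) (by linarith)
      calc _ ≤ |(∑ j ∈ Finset.Ioc m q, mu j * h j) - MM q * h q| + |MM q * (h q - h (q + 1))| := abs_add_le _ _
        _ ≤ (S * h (m + 1) + S * (h (m + 1) - h q)) + S * (h q - h (q + 1)) := add_le_add ih' h1
        _ = _ := by ring
  have hk := key (n - (m + 1)) (by omega)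
  rw [show m + 1 + (n - (m + 1)) = n by omega] at hk
  have h1 : |MM n * h n| ≤ S * h n := by
    rw [abs_mul, abs_of_nonneg (hnn n (by omega) (le_refl _))]
    exact mul_le_mul_of_nonneg_right (hS n (by omega) (le_refl _)) (hnn n (by omega) (le_refl _))
  calc |∑ k ∈ Finset.Ioc m n, mu k * h k|
      = |((∑ k ∈ Finset.Ioc m n, mu k * h k) - MM n * h n) + MM n * h n| := by congr 1; ring
    _ ≤ |(∑ k ∈ Finset.Ioc m n, mu k * h k) - MM n * h n| + |MM n * h n| := abs_add_le _ _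
    _ ≤ (S * h (m + 1) + S * (h (m + 1) - h n)) + S * h n := add_le_add hk h1
    _ = 2 * S * h (m + 1) := by ring

/-- uniform bound for the Mertens function up to `T`. -/
lemma mertens_unif (η : ℝ) (hη : 0 < η) : ∃ T0 : ℝ, 1 ≤ T0 ∧ ∀ T : ℝ, T0 ≤ T → ∀ j : ℕ, (j : ℝ) ≤ T → |MM j| ≤ η * T := by
  obtain ⟨N, hN⟩ := mertens_littleO η hη
  refine ⟨max 1 (N / η), le_max_left _ _, ?_⟩
  intro T hT j hj
  have hT1 : 1 ≤ T := (le_max_left _ _).trans hT
  have hT2 : N / η ≤ T := (le_max_right _ _).trans hT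
  by_cases h : N ≤ j
  · exact (hN j h).trans (mul_le_mul_of_nonneg_left hj hη.le)
  · push Not at h
    have h1 := abs_MM_le j
    have h2 : (j : ℝ) ≤ N := by exact_mod_cast h.le
    rw [div_le_iff₀ hη] at hT2
    linarith

/-- `F` has small tail. -/
def TailSmall (F : ℝ → ℝ) : Prop :=
  ∀ ε : ℝ, 0 < ε → ∃ Y : ℝ, 1 ≤ Y ∧ ∀ T : ℝ, Y ≤ T → ∑ d ∈ Finset.Ioc 0 ⌊T / Y⌋₊, |F (T / d)| ≤ ε * T

/-- A version of Axer's theorem. -/
theorem axer (F1 F2 : ℝ → ℝ) (h1 : ∀ x y, 1 ≤ x → x ≤ y → F1 x ≤ F1 y) (h2 : ∀ x y, 1 ≤ x → x ≤ y → F2 x ≤ F2 y)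
    (h1n : ∀ x, 1 ≤ x → 0 ≤ F1 x) (h2n : ∀ x, 1 ≤ x → 0 ≤ F2 x)
    (ht : TailSmall (fun t => F1 t - F2 t)) :
    ∀ ε : ℝ, 0 < ε → ∃ T0 : ℝ, 1 ≤ T0 ∧ ∀ T : ℝ, T0 ≤ T →
      |∑ d ∈ Finset.Ioc 0 ⌊T⌋₊, mu d * (F1 (T / d) - F2 (T / d))| ≤ ε * T := by
  intro ε hε
  obtain ⟨Y, hY1, hY⟩ := ht (ε / 2) (by positivity)
  set B := F1 Y + F2 Y with hB
  have hB0 : 0 ≤ B := add_nonneg (h1n Y hY1) (h2n Y hY1)
  set η := ε / (4 * (B + 1)) with hη
  have hη0 : 0 < η := by positivity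
  obtain ⟨T1, hT11, hT1⟩ := mertens_unif η hη0
  refine ⟨max T1 (max Y 1), le_trans (le_max_right _ _) (le_max_right _ _), ?_⟩
  intro T hT
  have hTT1 : T1 ≤ T := (le_max_left _ _).trans hT
  have hTY : Y ≤ T := ((le_max_left _ _).trans (le_max_right _ _)).trans hT
  have hT0 : 1 ≤ T := hY1.trans hTY
  have hTpos : 0 < T := by linarith
  have hYpos : 0 < Y := by linarith
  set m := ⌊T / Y⌋₊ with hm
  set n := ⌊T⌋₊ with hn
  have hmn : m ≤ n := by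
    apply Nat.floor_le_floor
    rw [div_le_iff₀ hYpos]
    nlinarith
  have hsplit : ∑ d ∈ Finset.Ioc 0 n, mu d * (F1 (T / d) - F2 (T / d)) =
      (∑ d ∈ Finset.Ioc 0 m, mu d * (F1 (T / d) - F2 (T / d))) +
      ((∑ d ∈ Finset.Ioc m n, mu d * F1 (T / d)) - (∑ d ∈ Finset.Ioc m n, mu d * F2 (T / d))) := by
    rw [← Finset.sum_sub_distrib, ← Finset.sum_Ioc_consecutive _ (Nat.zero_le m) hmn]
    congr 1
    apply Finset.sum_congr rfl
    intro d _; ring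
  rw [hsplit]
  have hfirst : |∑ d ∈ Finset.Ioc 0 m, mu d * (F1 (T / d) - F2 (T / d))| ≤ ε / 2 * T := by
    calc |∑ d ∈ Finset.Ioc 0 m, mu d * (F1 (T / d) - F2 (T / d))|
        ≤ ∑ d ∈ Finset.Ioc 0 m, |mu d * (F1 (T / d) - F2 (T / d))| := Finset.abs_sum_le_sum_abs _ _
      _ ≤ ∑ d ∈ Finset.Ioc 0 m, |F1 (T / d) - F2 (T / d)| := by
          apply Finset.sum_le_sum
          intro d _
          rw [abs_mul]
          calc |mu d| * |F1 (T / d) - F2 (T / d)| ≤ 1 * |F1 (T / d) - F2 (T / d)| :=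
                mul_le_mul_of_nonneg_right (abs_mu_le d) (abs_nonneg _)
            _ = _ := one_mul _
      _ ≤ ε / 2 * T := hY T hTY
  have hnT : (n : ℝ) ≤ T := Nat.floor_le hTpos.le
  have hgen : ∀ F : ℝ → ℝ, (∀ x y, 1 ≤ x → x ≤ y → F x ≤ F y) → (∀ x, 1 ≤ x → 0 ≤ F x) →
      |∑ d ∈ Finset.Ioc m n, mu d * F (T / d)| ≤ 2 * (η * T) * F Y := by
    intro F hF hFn
    rcases Nat.eq_or_lt_of_le hmn with heq | hlt
    · rw [heq, Finset.Ioc_self, Finset.sum_empty, abs_zero]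
      have := hFn Y hY1
      positivity
    · have hdpos : ∀ j : ℕ, m + 1 ≤ j → j ≤ n → (0 : ℝ) < j ∧ 1 ≤ T / j := by
        intro j hj1 hj2
        have hj0 : (0 : ℝ) < j := by
          have : 0 < j := by omega
          exact_mod_cast this
        refine ⟨hj0, ?_⟩
        rw [le_div_iff₀ hj0, one_mul]
        have : (j : ℝ) ≤ n := by exact_mod_cast hj2
        linarith
      have h3 := abel_bound (fun d => F (T / d)) m n hlt (η * T) (fun j _ hj => hT1 T hTT1 j (by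
          have : (j : ℝ) ≤ n := by exact_mod_cast hj
          linarith)) (by
          intro j hj1 hj2
          obtain ⟨hj0, _⟩ := hdpos j hj1 hj2.le
          obtain ⟨hj0', h1'⟩ := hdpos (j + 1) (by omega) hj2
          apply hF _ _ h1'
          apply div_le_div_of_nonneg_left hTpos.le hj0
          push_cast; linarith) (by
          intro j hj1 hj2
          exact hFn _ (hdpos j hj1 hj2).2)
      refine h3.trans ?_
      apply mul_le_mul_of_nonneg_left _ (by positivity)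
      obtain ⟨hj0, h1'⟩ := hdpos (m + 1) (le_refl _) hlt
      apply hF _ _ h1'
      rw [div_le_iff₀ hj0]
      have h4 : T / Y < (m : ℝ) + 1 := Nat.lt_floor_add_one _
      rw [div_lt_iff₀ hYpos] at h4
      push_cast
      linarith
  have hs1 := hgen F1 h1 h1n
  have hs2 := hgen F2 h2 h2n
  have hη2 : 2 * (η * T) * F1 Y + 2 * (η * T) * F2 Y ≤ ε / 2 * T := by
    have : 2 * (η * T) * F1 Y + 2 * (η * T) * F2 Y = 2 * η * B * T := by rw [hB]; ring
    rw [this]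
    apply mul_le_mul_of_nonneg_right _ hTpos.le
    have h5 : η * (4 * (B + 1)) = ε := by rw [hη]; field_simp
    nlinarith
  calc _ ≤ |∑ d ∈ Finset.Ioc 0 m, mu d * (F1 (T / d) - F2 (T / d))| +
        |(∑ d ∈ Finset.Ioc m n, mu d * F1 (T / d)) - (∑ d ∈ Finset.Ioc m n, mu d * F2 (T / d))| := abs_add_le _ _
    _ ≤ ε / 2 * T + (|∑ d ∈ Finset.Ioc m n, mu d * F1 (T / d)| + |∑ d ∈ Finset.Ioc m n, mu d * F2 (T / d)|) :=
        add_le_add hfirst (abs_sub _ _)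
    _ ≤ ε / 2 * T + (2 * (η * T) * F1 Y + 2 * (η * T) * F2 Y) := by linarith
    _ ≤ ε / 2 * T + ε / 2 * T := by linarith
    _ = ε * T := by ring

/-- `∑ μ(d) ⌊n/d⌋ = 1`. -/
lemma sum_mu_floor (T : ℝ) (hT : 1 ≤ T) :
    ∑ d ∈ Finset.Ioc 0 ⌊T⌋₊, mu d * (⌊T / d⌋₊ : ℝ) = 1 := by
  have h := ArithmeticFunction.sum_Ioc_mul_zeta_eq_sum (R := ℝ) (ArithmeticFunction.moebius : ArithmeticFunction ℝ) ⌊T⌋₊
  rw [ArithmeticFunction.coe_moebius_mul_coe_zeta] at h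
  have hT1 : 1 ≤ ⌊T⌋₊ := by
    rw [Nat.one_le_floor_iff]; exact hT
  have h1 : ∑ n ∈ Finset.Ioc 0 ⌊T⌋₊, (1 : ArithmeticFunction ℝ) n = 1 := by
    rw [Finset.sum_eq_single 1]
    · simp
    · intro b _ hb
      exact ArithmeticFunction.one_apply_ne hb
    · intro hnot
      exfalso; apply hnot
      rw [Finset.mem_Ioc]; exact ⟨by omega, hT1⟩
  rw [h1] at h
  rw [h]
  apply Finset.sum_congr rfl
  intro d _
  rw [Nat.floor_div_natCast]
  simp [mu]

/-- `T ∑_{d ≤ T} μ(d)/d = o(T)`. -/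
theorem sum_mu_div : ∀ ε : ℝ, 0 < ε → ∃ T0 : ℝ, 1 ≤ T0 ∧ ∀ T : ℝ, T0 ≤ T →
      |∑ d ∈ Finset.Ioc 0 ⌊T⌋₊, mu d * (T / d)| ≤ ε * T := by
  intro ε hε
  have htail : TailSmall (fun t => t - (⌊t⌋₊ : ℝ)) := by
    intro ε hε
    refine ⟨max 1 (1 / ε), le_max_left _ _, ?_⟩
    intro T hT
    set Y := max 1 (1 / ε) with hY
    have hY1 : 1 ≤ Y := le_max_left _ _
    have hTpos : 0 < T := by linarith
    calc ∑ d ∈ Finset.Ioc 0 ⌊T / Y⌋₊, |T / d - (⌊T / d⌋₊ : ℝ)| ≤ ∑ d ∈ Finset.Ioc 0 ⌊T / Y⌋₊, (1 : ℝ) := by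
          apply Finset.sum_le_sum
          intro d hd
          rw [Finset.mem_Ioc] at hd
          have hd0 : (0 : ℝ) < d := by exact_mod_cast hd.1
          have h1 := Nat.floor_le (by positivity : 0 ≤ T / d)
          have h2 := Nat.lt_floor_add_one (T / d)
          rw [abs_le]; constructor <;> linarith
      _ = (⌊T / Y⌋₊ : ℝ) := by simp
      _ ≤ T / Y := Nat.floor_le (by positivity)
      _ ≤ ε * T := by
          rw [div_le_iff₀ (by linarith)]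
          have : 1 / ε ≤ Y := le_max_right _ _
          rw [div_le_iff₀ hε] at this
          nlinarith
  obtain ⟨T1, hT11, hT1⟩ := axer (fun t => t) (fun t => (⌊t⌋₊ : ℝ)) (fun x y _ h => h)
    (fun x y _ h => by exact_mod_cast Nat.floor_le_floor h) (fun x h => by linarith) (fun x _ => by positivity)
    htail (ε / 2) (by positivity)
  refine ⟨max T1 (2 / ε), le_trans hT11 (le_max_left _ _), ?_⟩
  intro T hT
  have hTT1 : T1 ≤ T := (le_max_left _ _).trans hT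
  have hT2 : 2 / ε ≤ T := (le_max_right _ _).trans hT
  have h1 := hT1 T hTT1
  have h2 := sum_mu_floor T (hT11.trans hTT1)
  have h3 : ∑ d ∈ Finset.Ioc 0 ⌊T⌋₊, mu d * (T / d) =
      (∑ d ∈ Finset.Ioc 0 ⌊T⌋₊, mu d * (T / d - (⌊T / d⌋₊ : ℝ))) + 1 := by
    rw [← h2, ← Finset.sum_add_distrib]
    apply Finset.sum_congr rfl
    intro d _; ring
  rw [h3]
  rw [div_le_iff₀ hε] at hT2
  calc _ ≤ |∑ d ∈ Finset.Ioc 0 ⌊T⌋₊, mu d * (T / d - (⌊T / d⌋₊ : ℝ))| + |(1 : ℝ)| := abs_add_le _ _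
    _ ≤ ε / 2 * T + 1 := by rw [abs_one]; linarith
    _ ≤ ε * T := by linarith

/-- tail of `∑ μ(d)/d²`. -/
lemma tail_sq (ε : ℝ) (hε : 0 < ε) : ∃ N : ℕ, 1 ≤ N ∧ ∀ m n : ℕ, N ≤ m → m ≤ n →
    |∑ d ∈ Finset.Ioc m n, mu d * (1 / (d : ℝ) ^ 2)| ≤ ε / m := by
  obtain ⟨N, hN⟩ := mertens_littleO (ε / 4) (by positivity)
  refine ⟨max N 1, le_max_right _ _, ?_⟩
  intro m n hm hmn
  have hmN : N ≤ m := (le_max_left _ _).trans hm
  have hm1 : 1 ≤ m := (le_max_right _ _).trans hm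
  have hm0 : (0 : ℝ) < m := by exact_mod_cast hm1
  rcases Nat.eq_or_lt_of_le hmn with heq | hlt
  · rw [heq, Finset.Ioc_self, Finset.sum_empty, abs_zero]; positivity
  set η := ε / 4 with hη
  have hη0 : 0 < η := by positivity
  have key : ∀ k : ℕ, |(∑ j ∈ Finset.Ioc m (m + 1 + k), mu j * (1 / (j : ℝ) ^ 2)) - MM (m + 1 + k) * (1 / ((m + 1 + k : ℕ) : ℝ) ^ 2)| ≤
        η / m + 2 * η * (1 / m - 1 / ((m + 1 + k : ℕ) : ℝ)) := by
    intro k
    induction k with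
    | zero =>
      simp only [add_zero]
      rw [Nat.Ioc_succ_singleton, Finset.sum_singleton, MM_succ']
      have : mu (m + 1) * (1 / ((m + 1 : ℕ) : ℝ) ^ 2) - (MM m + mu (m + 1)) * (1 / ((m + 1 : ℕ) : ℝ) ^ 2) =
        - (MM m * (1 / ((m + 1 : ℕ) : ℝ) ^ 2)) := by ring
      rw [this, abs_neg, abs_mul, abs_of_nonneg (by positivity : (0 : ℝ) ≤ 1 / ((m + 1 : ℕ) : ℝ) ^ 2)]
      have h1 := hN m hmN
      have h2 : (1 : ℝ) / ((m + 1 : ℕ) : ℝ) ^ 2 ≤ 1 / (m : ℝ) ^ 2 := by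
        apply one_div_le_one_div_of_le (by positivity)
        push_cast; nlinarith
      have h3 : |MM m| * (1 / ((m + 1 : ℕ) : ℝ) ^ 2) ≤ η * m * (1 / (m : ℝ) ^ 2) :=
        mul_le_mul h1 h2 (by positivity) (by positivity)
      have h4 : η * m * (1 / (m : ℝ) ^ 2) = η / m := by field_simp
      have h5 : (0 : ℝ) ≤ 1 / m - 1 / ((m + 1 : ℕ) : ℝ) := by
        rw [sub_nonneg]
        apply one_div_le_one_div_of_le hm0
        push_cast; linarith
      have h6 : 0 ≤ 2 * η * (1 / m - 1 / ((m + 1 : ℕ) : ℝ)) := mul_nonneg (by positivity) h5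
      linarith
    | succ k ih =>
      have e1 : m + 1 + (k + 1) = (m + 1 + k) + 1 := by ring
      rw [e1, Finset.sum_Ioc_succ_top (by omega), MM_succ']
      set q := m + 1 + k with hq
      have hq0 : (0 : ℝ) < q := by
        have : 0 < q := by omega
        exact_mod_cast this
      have : (∑ j ∈ Finset.Ioc m q, mu j * (1 / (j : ℝ) ^ 2)) + mu (q + 1) * (1 / ((q + 1 : ℕ) : ℝ) ^ 2) - (MM q + mu (q + 1)) * (1 / ((q + 1 : ℕ) : ℝ) ^ 2)
          = ((∑ j ∈ Finset.Ioc m q, mu j * (1 / (j : ℝ) ^ 2)) - MM q * (1 / (q : ℝ) ^ 2)) + MM q * ((1 / (q : ℝ) ^ 2) - (1 / ((q + 1 : ℕ) : ℝ) ^ 2)) := by ring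
      rw [this]
      have h1 : |MM q * ((1 / (q : ℝ) ^ 2) - (1 / ((q + 1 : ℕ) : ℝ) ^ 2))| ≤ 2 * η * (1 / q - 1 / ((q + 1 : ℕ) : ℝ)) := by
        have h2 : (1 / (q : ℝ) ^ 2) - (1 / ((q + 1 : ℕ) : ℝ) ^ 2) = (2 * q + 1) / (q ^ 2 * (q + 1) ^ 2) := by
          push_cast; field_simp; ring
        have h3 : 1 / (q : ℝ) - 1 / ((q + 1 : ℕ) : ℝ) = 1 / (q * (q + 1)) := by
          push_cast; field_simp; ring
        rw [h2, h3, abs_mul, abs_of_nonneg (by positivity : (0 : ℝ) ≤ (2 * q + 1) / (q ^ 2 * (q + 1) ^ 2))]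
        have h4 := hN q (by omega)
        calc |MM q| * ((2 * q + 1) / (q ^ 2 * (q + 1) ^ 2)) ≤ (η * q) * ((2 * q + 1) / (q ^ 2 * (q + 1) ^ 2)) :=
              mul_le_mul_of_nonneg_right h4 (by positivity)
          _ = η * ((2 * q + 1) / (q * (q + 1) ^ 2)) := by field_simp
          _ ≤ η * (2 * (1 / (q * (q + 1)))) := by
              apply mul_le_mul_of_nonneg_left _ hη0.le
              have : 2 * (1 / ((q : ℝ) * (q + 1))) = (2 * (q + 1)) / (q * (q + 1) ^ 2) := by field_simp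
              rw [this]
              apply div_le_div_of_nonneg_right _ (by positivity)
              linarith
          _ = _ := by ring
      calc _ ≤ |(∑ j ∈ Finset.Ioc m q, mu j * (1 / (j : ℝ) ^ 2)) - MM q * (1 / (q : ℝ) ^ 2)| + |MM q * ((1 / (q : ℝ) ^ 2) - (1 / ((q + 1 : ℕ) : ℝ) ^ 2))| := abs_add_le _ _
        _ ≤ (η / m + 2 * η * (1 / m - 1 / (q : ℝ))) + 2 * η * (1 / q - 1 / ((q + 1 : ℕ) : ℝ)) := add_le_add ih h1
        _ = _ := by ring
  have hk := key (n - (m + 1))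
  rw [show m + 1 + (n - (m + 1)) = n by omega] at hk
  have hn0 : (0 : ℝ) < n := by
    have : 0 < n := by omega
    exact_mod_cast this
  have hmn' : (m : ℝ) ≤ n := by exact_mod_cast hmn
  have h1 : |MM n * (1 / (n : ℝ) ^ 2)| ≤ η / m := by
    rw [abs_mul, abs_of_nonneg (by positivity : (0 : ℝ) ≤ 1 / (n : ℝ) ^ 2)]
    calc |MM n| * (1 / (n : ℝ) ^ 2) ≤ η * n * (1 / (n : ℝ) ^ 2) :=
          mul_le_mul_of_nonneg_right (hN n (by omega)) (by positivity)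
      _ = η / n := by field_simp
      _ ≤ η / m := div_le_div_of_nonneg_left hη0.le hm0 hmn'
  have h2 : 2 * η * (1 / m - 1 / (n : ℝ)) ≤ 2 * (η / m) := by
    have : (0 : ℝ) ≤ 1 / n := by positivity
    have h3 : 2 * η * (1 / m - 1 / (n : ℝ)) = 2 * (η / m) - 2 * η * (1 / n) := by ring
    rw [h3]
    have : 0 ≤ 2 * η * (1 / (n : ℝ)) := by positivity
    linarith
  calc |∑ k ∈ Finset.Ioc m n, mu k * (1 / (k : ℝ) ^ 2)|
      = |((∑ k ∈ Finset.Ioc m n, mu k * (1 / (k : ℝ) ^ 2)) - MM n * (1 / (n : ℝ) ^ 2)) + MM n * (1 / (n : ℝ) ^ 2)| := by congr 1; ring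
    _ ≤ |(∑ k ∈ Finset.Ioc m n, mu k * (1 / (k : ℝ) ^ 2)) - MM n * (1 / (n : ℝ) ^ 2)| + |MM n * (1 / (n : ℝ) ^ 2)| := abs_add_le _ _
    _ ≤ (η / m + 2 * η * (1 / m - 1 / (n : ℝ))) + η / m := add_le_add hk h1
    _ ≤ 4 * (η / m) := by linarith
    _ = ε / m := by rw [hη]; ring

/-- `T² ∑_{d ≤ T} μ(d)/d² = c T² + o(T)`. -/
theorem sum_mu_sq : ∃ c : ℝ, ∀ ε : ℝ, 0 < ε → ∃ T0 : ℝ, 1 ≤ T0 ∧ ∀ T : ℝ, T0 ≤ T →
      |∑ d ∈ Finset.Ioc 0 ⌊T⌋₊, mu d * (T / d) ^ 2 - c * T ^ 2| ≤ ε * T := by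
  set s : ℕ → ℝ := fun n => ∑ d ∈ Finset.Ioc 0 n, mu d * (1 / (d : ℝ) ^ 2) with hs
  have hdiff : ∀ m n : ℕ, m ≤ n → s n - s m = ∑ d ∈ Finset.Ioc m n, mu d * (1 / (d : ℝ) ^ 2) := by
    intro m n hmn
    simp only [hs]
    rw [← Finset.sum_Ioc_consecutive _ (Nat.zero_le m) hmn]
    ring
  have hcau : CauchySeq s := by
    rw [Metric.cauchySeq_iff']
    intro ε hε
    obtain ⟨N, hN1, hN⟩ := tail_sq (ε / 2) (by positivity)
    refine ⟨N, ?_⟩
    intro n hn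
    rw [Real.dist_eq, hdiff N n hn]
    have h1 := hN N n (le_refl _) hn
    have hN0 : (1 : ℝ) ≤ N := by exact_mod_cast hN1
    have : ε / 2 / N ≤ ε / 2 := div_le_self (by positivity) hN0
    linarith
  obtain ⟨c, hc⟩ := cauchySeq_tendsto_of_complete hcau
  refine ⟨c, ?_⟩
  intro ε hε
  obtain ⟨N, hN1, hN⟩ := tail_sq (ε / 2) (by positivity)
  have hlim : ∀ m : ℕ, N ≤ m → |c - s m| ≤ ε / 2 / m := by
    intro m hm
    have h1 : Tendsto (fun n => |s n - s m|) atTop (𝓝 |c - s m|) := (hc.sub_const (s m)).abs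
    apply le_of_tendsto h1
    filter_upwards [eventually_ge_atTop m] with n hn
    rw [hdiff m n hn]
    exact hN m n hm hn
  refine ⟨max 1 (N + 1), le_max_left _ _, ?_⟩
  intro T hT
  have hT1 : 1 ≤ T := (le_max_left _ _).trans hT
  have hTN : (N : ℝ) + 1 ≤ T := (le_max_right _ _).trans hT
  have hTpos : 0 < T := by linarith
  set n := ⌊T⌋₊ with hn
  have hnN : N ≤ n := Nat.le_floor (by linarith)
  have hn1 : 1 ≤ n := by omega
  have hn0 : (0 : ℝ) < n := by exact_mod_cast hn1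
  have h1 := hlim n hnN
  have h2 : ∑ d ∈ Finset.Ioc 0 n, mu d * (T / d) ^ 2 = T ^ 2 * s n := by
    simp only [hs]
    rw [Finset.mul_sum]
    apply Finset.sum_congr rfl
    intro d _
    rw [div_pow]; ring
  rw [h2]
  have h3 : T ^ 2 * s n - c * T ^ 2 = - (T ^ 2 * (c - s n)) := by ring
  rw [h3, abs_neg, abs_mul, abs_of_nonneg (by positivity : 0 ≤ T ^ 2)]
  have h4 : T < n + 1 := Nat.lt_floor_add_one _
  have h5 : T ≤ 2 * n := by
    have : (1 : ℝ) ≤ n := by exact_mod_cast hn1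
    linarith
  calc T ^ 2 * |c - s n| ≤ T ^ 2 * (ε / 2 / n) := mul_le_mul_of_nonneg_left h1 (by positivity)
    _ = ε * T * (T / (2 * n)) := by field_simp
    _ ≤ ε * T * 1 := by
        apply mul_le_mul_of_nonneg_left _ (by positivity)
        rw [div_le_one (by positivity)]; exact h5
    _ = ε * T := by ring

/-- Transfer from all lattice points to primitive ones. -/
theorem transfer (L : ℝ → ℝ) (A b : ℝ) (hA : 0 ≤ A) (hb : 0 ≤ b)
    (hL : ∀ x y, 1 ≤ x → x ≤ y → L x ≤ L y) (hLn : ∀ x, 1 ≤ x → 0 ≤ L x)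
    (htail : TailSmall (fun t => L t + b * t - A * t ^ 2)) :
    ∃ c : ℝ, ∀ ε : ℝ, 0 < ε → ∃ T0 : ℝ, 1 ≤ T0 ∧ ∀ T : ℝ, T0 ≤ T →
      |∑ d ∈ Finset.Ioc 0 ⌊T⌋₊, mu d * L (T / d) - c * T ^ 2| ≤ ε * T := by
  obtain ⟨c0, hc0⟩ := sum_mu_sq
  refine ⟨A * c0, ?_⟩
  intro ε hε
  obtain ⟨T1, hT11, hT1⟩ := axer (fun t => L t + b * t) (fun t => A * t ^ 2)
    (fun x y h1 h2 => add_le_add (hL x y h1 h2) (mul_le_mul_of_nonneg_left h2 hb))
    (fun x y h1 h2 => mul_le_mul_of_nonneg_left (by nlinarith) hA)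
    (fun x h => add_nonneg (hLn x h) (mul_nonneg hb (by linarith)))
    (fun x h => by positivity) htail (ε / 3) (by positivity)
  obtain ⟨T2, hT21, hT2⟩ := sum_mu_div (ε / (3 * (b + 1))) (by positivity)
  obtain ⟨T3, hT31, hT3⟩ := hc0 (ε / (3 * (A + 1))) (by positivity)
  refine ⟨max T1 (max T2 T3), le_trans hT11 (le_max_left _ _), ?_⟩
  intro T hT
  have hTT1 : T1 ≤ T := (le_max_left _ _).trans hT
  have hTT2 : T2 ≤ T := ((le_max_left _ _).trans (le_max_right _ _)).trans hT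
  have hTT3 : T3 ≤ T := ((le_max_right _ _).trans (le_max_right _ _)).trans hT
  have hTpos : 0 < T := by linarith
  have e1 := hT1 T hTT1
  have e2 := hT2 T hTT2
  have e3 := hT3 T hTT3
  have hdecomp : ∑ d ∈ Finset.Ioc 0 ⌊T⌋₊, mu d * L (T / d) - A * c0 * T ^ 2 =
      (∑ d ∈ Finset.Ioc 0 ⌊T⌋₊, mu d * (L (T / d) + b * (T / d) - A * (T / d) ^ 2)) -
      b * (∑ d ∈ Finset.Ioc 0 ⌊T⌋₊, mu d * (T / d)) +
      A * (∑ d ∈ Finset.Ioc 0 ⌊T⌋₊, mu d * (T / d) ^ 2 - c0 * T ^ 2) := by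
    have h1 : ∑ d ∈ Finset.Ioc 0 ⌊T⌋₊, mu d * (L (T / d) + b * (T / d) - A * (T / d) ^ 2) =
      ∑ d ∈ Finset.Ioc 0 ⌊T⌋₊, mu d * L (T / d) + b * (∑ d ∈ Finset.Ioc 0 ⌊T⌋₊, mu d * (T / d))
      - A * (∑ d ∈ Finset.Ioc 0 ⌊T⌋₊, mu d * (T / d) ^ 2) := by
      rw [Finset.mul_sum, Finset.mul_sum, ← Finset.sum_add_distrib, ← Finset.sum_sub_distrib]
      apply Finset.sum_congr rfl
      intro d _; ring
    rw [h1]; ring
  rw [hdecomp]
  have e2' : |b * (∑ d ∈ Finset.Ioc 0 ⌊T⌋₊, mu d * (T / d))| ≤ ε / 3 * T := by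
    rw [abs_mul, abs_of_nonneg hb]
    calc b * |∑ d ∈ Finset.Ioc 0 ⌊T⌋₊, mu d * (T / d)| ≤ b * (ε / (3 * (b + 1)) * T) :=
          mul_le_mul_of_nonneg_left e2 hb
      _ = ε / 3 * T * (b / (b + 1)) := by field_simp
      _ ≤ ε / 3 * T * 1 := by
          apply mul_le_mul_of_nonneg_left _ (by positivity)
          rw [div_le_one (by positivity)]; linarith
      _ = ε / 3 * T := by ring
  have e3' : |A * (∑ d ∈ Finset.Ioc 0 ⌊T⌋₊, mu d * (T / d) ^ 2 - c0 * T ^ 2)| ≤ ε / 3 * T := by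
    rw [abs_mul, abs_of_nonneg hA]
    calc A * |∑ d ∈ Finset.Ioc 0 ⌊T⌋₊, mu d * (T / d) ^ 2 - c0 * T ^ 2| ≤ A * (ε / (3 * (A + 1)) * T) :=
          mul_le_mul_of_nonneg_left e3 hA
      _ = ε / 3 * T * (A / (A + 1)) := by field_simp
      _ ≤ ε / 3 * T * 1 := by
          apply mul_le_mul_of_nonneg_left _ (by positivity)
          rw [div_le_one (by positivity)]; linarith
      _ = ε / 3 * T := by ring
  rw [abs_le] at e1 e2' e3' ⊢
  constructor <;> linarith [e1.1, e1.2, e2'.1, e2'.2, e3'.1, e3'.2]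

end

end Pool.Agent.Helper862.Axer
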