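import Mathlib

set_option autoImplicit false

namespace Pool.Agent.Helper862.Mk

noncomputable section

/-! ### The function `lam` -/

/-- `lam m` is the larger root of `z + 1/z = 3m`. -/
def lam (m : ℝ) : ℝ := (3 * m + Real.sqrt (9 * m ^ 2 - 4)) / 2

lemma sqrt_lower (m : ℝ) (hm : 1 ≤ m) : 2.2 * m ≤ Real.sqrt (9 * m ^ 2 - 4) := by
  apply Real.le_sqrt_of_sq_le
  nlinarith

lemma sqrt_upper (m : ℝ) (hm : 1 ≤ m) : Real.sqrt (9 * m ^ 2 - 4) ≤ 3 * m := by
  rw [Real.sqrt_le_left (by linarith)]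
  nlinarith

lemma lam_lower (m : ℝ) (hm : 1 ≤ m) : 2.6 * m ≤ lam m := by
  have := sqrt_lower m hm
  unfold lam; linarith

lemma lam_upper (m : ℝ) (hm : 1 ≤ m) : lam m ≤ 3 * m := by
  have := sqrt_upper m hm
  unfold lam; linarith

lemma lam_pos (m : ℝ) (hm : 1 ≤ m) : 0 < lam m := by
  have := lam_lower m hm; linarith

lemma lam_quad (m : ℝ) (hm : 1 ≤ m) : lam m * (3 * m - lam m) = 1 := by
  have h1 : Real.sqrt (9 * m ^ 2 - 4) ^ 2 = 9 * m ^ 2 - 4 := Real.sq_sqrt (by nlinarith)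
  unfold lam; nlinarith

lemma lam_inv (m : ℝ) (hm : 1 ≤ m) : (lam m)⁻¹ = 3 * m - lam m := by
  have h := lam_quad m hm
  have hp := lam_pos m hm
  field_simp
  linarith

lemma lam_mono (m n : ℝ) (hm : 1 ≤ m) (hmn : m ≤ n) : lam m ≤ lam n := by
  have : Real.sqrt (9 * m ^ 2 - 4) ≤ Real.sqrt (9 * n ^ 2 - 4) := by
    apply Real.sqrt_le_sqrt; nlinarith
  unfold lam; linarith

lemma lam_strict (m n : ℝ) (hm : 1 ≤ m) (hmn : m < n) : lam m < lam n := by
  have : Real.sqrt (9 * m ^ 2 - 4) ≤ Real.sqrt (9 * n ^ 2 - 4) := by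
    apply Real.sqrt_le_sqrt; nlinarith
  unfold lam; linarith

/-- The length function. -/
def g (m : ℝ) : ℝ := Real.log (lam m)

lemma g_le_g (m n : ℝ) (hm : 1 ≤ m) (hmn : m ≤ n) : g m ≤ g n :=
  Real.log_le_log (lam_pos m hm) (lam_mono m n hm hmn)

lemma g_lt_g (m n : ℝ) (hm : 1 ≤ m) (hmn : m < n) : g m < g n :=
  Real.log_lt_log (lam_pos m hm) (lam_strict m n hm hmn)

lemma exp_g (m : ℝ) (hm : 1 ≤ m) : Real.exp (g m) = lam m := Real.exp_log (lam_pos m hm)

lemma log_lt_of_lt {x y : ℝ} (hx : 0 < x) (h : x ≤ Real.exp y) : Real.log x ≤ y := by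
  rw [Real.log_le_iff_le_exp hx]; exact h

/-- lower bound `g m ≥ 3/4`. -/
lemma g_lower (m : ℝ) (hm : 1 ≤ m) : 3 / 4 ≤ g m := by
  unfold g
  rw [Real.le_log_iff_exp_le (lam_pos m hm)]
  have h1 := lam_lower m hm
  have h2 : Real.exp (3 / 4) ^ 4 ≤ 2.6 ^ 4 := by
    rw [← Real.exp_nat_mul]
    have : ((4 : ℕ) : ℝ) * (3 / 4) = (3 : ℕ) * 1 := by norm_num
    rw [this, Real.exp_nat_mul]
    have h3 := Real.exp_one_lt_d9
    have h4 := Real.exp_pos 1
    calc Real.exp 1 ^ 3 ≤ 2.7182818286 ^ 3 := pow_le_pow_left₀ h4.le h3.le 3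
      _ ≤ 2.6 ^ 4 := by norm_num
  have h3 : Real.exp (3 / 4) ≤ 2.6 := le_of_pow_le_pow_left₀ (by norm_num) (by norm_num) h2
  linarith

lemma g_pos (m : ℝ) (hm : 1 ≤ m) : 0 < g m := by
  have := g_lower m hm; linarith

/-! ### Deficit -/

/-- Standing hypotheses for a Markov triple with `c` the largest. -/
structure MT (a b c : ℝ) : Prop where
  ha : 1 ≤ a
  hb : 1 ≤ b
  hm : a ^ 2 + b ^ 2 + c ^ 2 = 3 * a * b * c
  hc : 3 * a * b ≤ 2 * c

lemma MT.swap {a b c : ℝ} (h : MT a b c) : MT b a c :=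
  ⟨h.hb, h.ha, by linarith [h.hm], by linarith [h.hc]⟩

lemma MT.ab_pos {a b c : ℝ} (h : MT a b c) : 1 ≤ a * b := by
  have := h.ha; have := h.hb; nlinarith

lemma MT.c_ge {a b c : ℝ} (h : MT a b c) : 2 * a * b ≤ c := by
  obtain ⟨ha, hb, hm, hc⟩ := h
  have hab : 1 ≤ a * b := by nlinarith
  have ha2 : 1 ≤ a ^ 2 := by nlinarith
  have hb2 : 1 ≤ b ^ 2 := by nlinarith
  have h1 : a ^ 2 ≤ a ^ 2 * b ^ 2 := le_mul_of_one_le_right (sq_nonneg a) hb2
  have h2 : b ^ 2 ≤ a ^ 2 * b ^ 2 := le_mul_of_one_le_left (sq_nonneg b) ha2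
  have h3 : 0 ≤ (c - 2 * a * b) * (c - a * b) := by nlinarith
  have h4 : 0 < c - a * b := by nlinarith
  have := nonneg_of_mul_nonneg_left h3 h4
  linarith

lemma MT.c_one {a b c : ℝ} (h : MT a b c) : 1 ≤ c := by
  have := h.c_ge; have := h.ab_pos; nlinarith

lemma MT.c_lt {a b c : ℝ} (h : MT a b c) : c < 3 * a * b := by
  have hc1 := h.c_one
  obtain ⟨ha, hb, hm, hc⟩ := h
  by_contra hcon
  push Not at hcon
  nlinarith

lemma deficit_nonneg {a b c : ℝ} (h : MT a b c) : lam c ≤ lam a * lam b := by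
  have hc1 := h.c_one
  obtain ⟨ha, hb, hm, hc⟩ := h
  set x := lam a with hx
  set y := lam b with hy
  set z := lam c with hz
  have hx2 : 2.6 * a ≤ x := lam_lower a ha
  have hy2 : 2.6 * b ≤ y := lam_lower b hb
  have hz2 : 2.6 * c ≤ z := lam_lower c hc1
  have hxi : x⁻¹ = 3 * a - x := lam_inv a ha
  have hyi : y⁻¹ = 3 * b - y := lam_inv b hb
  have hzi : z⁻¹ = 3 * c - z := lam_inv c hc1
  have hx0 : 0 < x := by linarith
  have hy0 : 0 < y := by linarith
  have hz0 : 0 < z := by linarith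
  set s := x * y + x⁻¹ * y⁻¹ with hs
  set s' := x * y⁻¹ + x⁻¹ * y with hs'
  have e1 : s + s' = 9 * a * b := by
    have : s + s' = (x + x⁻¹) * (y + y⁻¹) := by rw [hs, hs']; ring
    rw [this, hxi, hyi]; ring
  have e2 : s * s' = 9 * (a ^ 2 + b ^ 2) - 4 := by
    have hxx : x * x⁻¹ = 1 := mul_inv_cancel₀ hx0.ne'
    have hyy : y * y⁻¹ = 1 := mul_inv_cancel₀ hy0.ne'
    have : s * s' = (x * x⁻¹) * (y ^ 2 + y⁻¹ ^ 2) + (y * y⁻¹) * (x ^ 2 + x⁻¹ ^ 2) := by
      rw [hs, hs']; ring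
    rw [this, hxx, hyy]
    have h3 : y ^ 2 + y⁻¹ ^ 2 = (y + y⁻¹) ^ 2 - 2 * (y * y⁻¹) := by ring
    have h4 : x ^ 2 + x⁻¹ ^ 2 = (x + x⁻¹) ^ 2 - 2 * (x * x⁻¹) := by ring
    rw [h3, h4, hxx, hyy, hxi, hyi]; ring
  have e3 : (s - 3 * c) * (s + 3 * c - 9 * a * b) = 4 := by
    have h5 : s ^ 2 - 9 * a * b * s = -(9 * (a ^ 2 + b ^ 2) - 4) := by
      rw [← e2, ← e1]; ring
    nlinarith
  have hss : 0 < s - s' := by
    have : s - s' = (x - x⁻¹) * (y - y⁻¹) := by rw [hs, hs']; ring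
    rw [this, hxi, hyi]
    apply mul_pos <;> linarith
  have hpos : 0 < s + 3 * c - 9 * a * b := by linarith
  have hs3 : 0 < s - 3 * c := by
    by_contra hcon
    push Not at hcon
    have := mul_nonpos_of_nonpos_of_nonneg hcon hpos.le
    linarith
  -- conclude xy ≥ z
  by_contra hcon
  push Not at hcon
  have hxy1 : 1 ≤ x * y := by nlinarith
  have : s < 3 * c := by
    have h6 : s = x * y + (x * y)⁻¹ := by rw [hs, mul_inv]
    have h7 : 3 * c = z + z⁻¹ := by rw [hzi]; ring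
    rw [h6, h7]
    have h8 : (x * y)⁻¹ - z⁻¹ = (z - x * y) / (x * y * z) := by
      field_simp
    have h9 : (z - x * y) / (x * y * z) < z - x * y := by
      apply div_lt_self (by linarith)
      nlinarith
    linarith
  linarith

lemma deficit_upper {a b c : ℝ} (h : MT a b c) : g a + g b - g c ≤ 1 / (a ^ 2 * b ^ 2) := by
  have hd := deficit_nonneg h
  have hc1 := h.c_one
  have hc2 := h.c_ge
  have hab := h.ab_pos
  obtain ⟨ha, hb, hm, hc⟩ := h
  set x := lam a with hx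
  set y := lam b with hy
  set z := lam c with hz
  have hx2 : 2.6 * a ≤ x := lam_lower a ha
  have hy2 : 2.6 * b ≤ y := lam_lower b hb
  have hz2 : 2.6 * c ≤ z := lam_lower c hc1
  have hxi : x⁻¹ = 3 * a - x := lam_inv a ha
  have hyi : y⁻¹ = 3 * b - y := lam_inv b hb
  have hzi : z⁻¹ = 3 * c - z := lam_inv c hc1
  have hx0 : 0 < x := by linarith
  have hy0 : 0 < y := by linarith
  have hz0 : 0 < z := by linarith
  set s := x * y + x⁻¹ * y⁻¹ with hs
  set s' := x * y⁻¹ + x⁻¹ * y with hs'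
  have e1 : s + s' = 9 * a * b := by
    have : s + s' = (x + x⁻¹) * (y + y⁻¹) := by rw [hs, hs']; ring
    rw [this, hxi, hyi]; ring
  have e2 : s * s' = 9 * (a ^ 2 + b ^ 2) - 4 := by
    have hxx : x * x⁻¹ = 1 := mul_inv_cancel₀ hx0.ne'
    have hyy : y * y⁻¹ = 1 := mul_inv_cancel₀ hy0.ne'
    have : s * s' = (x * x⁻¹) * (y ^ 2 + y⁻¹ ^ 2) + (y * y⁻¹) * (x ^ 2 + x⁻¹ ^ 2) := by
      rw [hs, hs']; ring
    rw [this, hxx, hyy]
    have h3 : y ^ 2 + y⁻¹ ^ 2 = (y + y⁻¹) ^ 2 - 2 * (y * y⁻¹) := by ring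
    have h4 : x ^ 2 + x⁻¹ ^ 2 = (x + x⁻¹) ^ 2 - 2 * (x * x⁻¹) := by ring
    rw [h3, h4, hxx, hyy, hxi, hyi]; ring
  have e3 : (s - 3 * c) * (s + 3 * c - 9 * a * b) = 4 := by
    have h5 : s ^ 2 - 9 * a * b * s = -(9 * (a ^ 2 + b ^ 2) - 4) := by
      rw [← e2, ← e1]; ring
    nlinarith
  have hxy1 : 6 * (a * b) ≤ x * y := by
    have h1 : (2.6 * a) * (2.6 * b) ≤ x * y := mul_le_mul hx2 hy2 (by linarith) (by linarith)
    linarith
  have hxyz : 12 ≤ x * y * z := by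
    have h1 : (6 : ℝ) ≤ x * y := by linarith
    have h2 : (2.6 : ℝ) ≤ z := by linarith
    have h3 : (6 : ℝ) * 2.6 ≤ x * y * z := mul_le_mul h1 h2 (by norm_num) (by linarith)
    linarith
  have hsz : s - 3 * c = (x * y - z) * (1 - (x * y * z)⁻¹) := by
    have h7 : 3 * c = z + z⁻¹ := by rw [hzi]; ring
    rw [h7, hs, mul_inv, mul_inv]
    have hx1 : x * x⁻¹ = 1 := mul_inv_cancel₀ hx0.ne'
    have hy1 : y * y⁻¹ = 1 := mul_inv_cancel₀ hy0.ne'
    have hz1 : z * z⁻¹ = 1 := mul_inv_cancel₀ hz0.ne'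
    have : (x * y - z) * (1 - x⁻¹ * y⁻¹ * z⁻¹) = x * y - z - (x * x⁻¹) * (y * y⁻¹) * z⁻¹ + (z * z⁻¹) * (x⁻¹ * y⁻¹) := by ring
    rw [this, hx1, hy1, hz1]; ring
  have hinv : (x * y * z)⁻¹ ≤ 1 / 12 := by
    rw [inv_le_comm₀ (by positivity) (by norm_num)]
    norm_num; linarith
  have hinv0 : 0 < (x * y * z)⁻¹ := by positivity
  have hs3 : 0 ≤ s - 3 * c := by
    rw [hsz]
    apply mul_nonneg <;> linarith
  have hlow : 3 * (a * b) ≤ s + 3 * c - 9 * a * b := by nlinarith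
  have h1 : (s - 3 * c) * (3 * (a * b)) ≤ 4 := by
    calc (s - 3 * c) * (3 * (a * b)) ≤ (s - 3 * c) * (s + 3 * c - 9 * a * b) :=
          mul_le_mul_of_nonneg_left hlow hs3
      _ = 4 := e3
  have h2 : (x * y - z) * (11 / 12) ≤ s - 3 * c := by
    rw [hsz]
    apply mul_le_mul_of_nonneg_left _ (by linarith)
    linarith
  have h3 : (x * y - z) * (a * b) ≤ 16 / 11 := by
    have h3a : (x * y - z) * (11 / 12) * (3 * (a * b)) ≤ (s - 3 * c) * (3 * (a * b)) :=
      mul_le_mul_of_nonneg_right h2 (by linarith)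
    have h3b : (x * y - z) * (11 / 12) * (3 * (a * b)) = (x * y - z) * (a * b) * (11 / 4) := by ring
    linarith
  have hlog : g a + g b - g c = Real.log (x * y / z) := by
    unfold g
    rw [Real.log_div (by positivity) (by positivity), Real.log_mul (by positivity) (by positivity)]
  rw [hlog]
  have h4 : Real.log (x * y / z) ≤ (x * y - z) / z := by
    have := Real.log_le_sub_one_of_pos (show 0 < x * y / z by positivity)
    have h5 : x * y / z - 1 = (x * y - z) / z := by field_simp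
    linarith
  refine h4.trans ?_
  rw [div_le_div_iff₀ hz0 (by positivity), one_mul]
  have h6 : 5 * (a * b) ≤ z := by linarith
  have h7 : (x * y - z) * (a ^ 2 * b ^ 2) = ((x * y - z) * (a * b)) * (a * b) := by ring
  rw [h7]
  have h8 : ((x * y - z) * (a * b)) * (a * b) ≤ 16 / 11 * (a * b) :=
    mul_le_mul_of_nonneg_right h3 (by linarith)
  linarith

lemma deficit_nonneg' {a b c : ℝ} (h : MT a b c) : g c ≤ g a + g b := by
  unfold g
  rw [← Real.log_mul (lam_pos a h.ha).ne' (lam_pos b h.hb).ne']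
  exact Real.log_le_log (lam_pos c h.c_one) (deficit_nonneg h)

/-! ### Corner constants -/

/-- `kap a b c` : leading coefficient of the Markov numbers at `v + n u`. -/
def kap (a b c : ℝ) : ℝ := (3 * c - 3 * b * (lam a)⁻¹) / (lam a - (lam a)⁻¹)

def kap' (a b c : ℝ) : ℝ := (3 * b * lam a - 3 * c) / (lam a - (lam a)⁻¹)

lemma lam_sub_inv_pos (a : ℝ) (ha : 1 ≤ a) : 0 < lam a - (lam a)⁻¹ := by
  rw [lam_inv a ha]
  have := lam_lower a ha; linarith

lemma lam_sub_inv_sq (a : ℝ) (ha : 1 ≤ a) : (lam a - (lam a)⁻¹) ^ 2 = 9 * a ^ 2 - 4 := by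
  have h := lam_quad a ha
  rw [lam_inv a ha]; nlinarith

lemma kap_add (a b c : ℝ) (ha : 1 ≤ a) : kap a b c + kap' a b c = 3 * b := by
  have h := lam_sub_inv_pos a ha
  unfold kap kap'
  rw [← add_div, div_eq_iff h.ne']
  ring

lemma kap_mul {a b c : ℝ} (h : MT a b c) : kap a b c * kap' a b c = 9 * a ^ 2 / (9 * a ^ 2 - 4) := by
  have h1 := lam_sub_inv_pos a h.ha
  have h2 := lam_sub_inv_sq a h.ha
  have hi := lam_inv a h.ha
  have hp := lam_pos a h.ha
  have hq := lam_quad a h.ha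
  unfold kap kap'
  rw [div_mul_div_comm, ← sq, h2]
  congr 1
  have hxx : (lam a)⁻¹ * lam a = 1 := inv_mul_cancel₀ hp.ne'
  have e : (3 * c - 3 * b * (lam a)⁻¹) * (3 * b * lam a - 3 * c) =
      9 * b * c * (lam a + (lam a)⁻¹) - 9 * b ^ 2 * ((lam a)⁻¹ * lam a) - 9 * c ^ 2 := by ring
  rw [e, hxx, hi]
  nlinarith [h.hm]

lemma kap_ge {a b c : ℝ} (h : MT a b c) : kap' a b c ≤ kap a b c := by
  have h1 := lam_sub_inv_pos a h.ha
  have hi := lam_inv a h.ha
  unfold kap kap'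
  apply div_le_div_of_nonneg_right _ h1.le
  have : 3 * b * lam a + 3 * b * (lam a)⁻¹ = 9 * a * b := by rw [hi]; ring
  nlinarith [h.hc]

lemma kap_lower {a b c : ℝ} (h : MT a b c) : 3 / 2 * b ≤ kap a b c := by
  have h1 := kap_ge h
  have h2 := kap_add a b c h.ha
  linarith

lemma kap_pos {a b c : ℝ} (h : MT a b c) : 0 < kap a b c := by
  have := kap_lower h; have := h.hb; linarith

lemma kap'_pos {a b c : ℝ} (h : MT a b c) : 0 < kap' a b c := by
  have h1 := kap_mul h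
  have h2 := kap_pos h
  have ha := h.ha
  have h3 : 0 < 9 * a ^ 2 / (9 * a ^ 2 - 4) := by
    apply div_pos <;> nlinarith
  rw [← h1] at h3
  exact (pos_iff_pos_of_mul_pos h3).mp h2

lemma kap_prod_id {a b c : ℝ} (h : MT a b c) :
    (lam b - kap a b c) * (lam b - kap' a b c) = 4 / (9 * a ^ 2 - 4) := by
  have h1 := kap_add a b c h.ha
  have h2 := kap_mul h
  have h3 := lam_quad b h.hb
  have ha := h.ha
  have h4 : 0 < 9 * a ^ 2 - 4 := by nlinarith
  have h5 : 9 * a ^ 2 / (9 * a ^ 2 - 4) = 1 + 4 / (9 * a ^ 2 - 4) := by field_simp; ring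
  have e : (lam b - kap a b c) * (lam b - kap' a b c) = lam b ^ 2 - (kap a b c + kap' a b c) * lam b + kap a b c * kap' a b c := by ring
  rw [e, h1, h2, h5]
  nlinarith

lemma kap_lt {a b c : ℝ} (h : MT a b c) : kap a b c < lam b ∧ kap' a b c < lam b := by
  have h1 := kap_prod_id h
  have h2 := kap_add a b c h.ha
  have hb := lam_lower b h.hb
  have hb1 := h.hb
  have ha := h.ha
  have h4 : 0 < 4 / (9 * a ^ 2 - 4) := by apply div_pos (by norm_num); nlinarith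
  rw [← h1] at h4
  have hsum : 0 < (lam b - kap a b c) + (lam b - kap' a b c) := by linarith
  rcases mul_pos_iff.mp h4 with ⟨h5, h6⟩ | ⟨h5, h6⟩
  · constructor <;> linarith
  · linarith

lemma log_kap_le {a b c : ℝ} (h : MT a b c) : Real.log (kap a b c) ≤ g b :=
  Real.log_le_log (kap_pos h) (kap_lt h).1.le

lemma log_kap_ge {a b c : ℝ} (h : MT a b c) : g b - Real.log (kap a b c) ≤ 1 / (a ^ 2 * b ^ 2) := by
  have h1 := kap_prod_id h
  have h2 := kap_add a b c h.ha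
  have h3 := kap_ge h
  have h4 := kap_lt h
  have h5 := kap_lower h
  have hb := lam_lower b h.hb
  have hb1 := h.hb
  have ha := h.ha
  set y := lam b with hy
  set k := kap a b c with hk
  set k' := kap' a b c with hk'
  have hk0 : 0 < k := by linarith
  have hy0 : 0 < y := by linarith
  have h6 : 1.1 * b ≤ y - k' := by linarith
  have h7 : 5 * a ^ 2 ≤ 9 * a ^ 2 - 4 := by nlinarith
  have h7' : 0 < 9 * a ^ 2 - 4 := by nlinarith
  have h8 : (y - k) * (1.1 * b) ≤ 4 / (5 * a ^ 2) := by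
    calc (y - k) * (1.1 * b) ≤ (y - k) * (y - k') := mul_le_mul_of_nonneg_left h6 (by linarith)
      _ = 4 / (9 * a ^ 2 - 4) := h1
      _ ≤ 4 / (5 * a ^ 2) := div_le_div_of_nonneg_left (by norm_num) (by positivity) h7
  have h9 : (y - k) * b * a ^ 2 ≤ 0.8 := by
    have : (y - k) * (1.1 * b) * (5 * a ^ 2) ≤ 4 := by
      rw [le_div_iff₀ (by positivity)] at h8
      exact h8
    nlinarith
  have hlog : g b - Real.log k = Real.log (y / k) := by
    unfold g
    rw [Real.log_div (by positivity) (by positivity)]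
  rw [hlog]
  have h10 : Real.log (y / k) ≤ (y - k) / k := by
    have := Real.log_le_sub_one_of_pos (show 0 < y / k by positivity)
    have h5 : y / k - 1 = (y - k) / k := by field_simp
    linarith
  refine h10.trans ?_
  rw [div_le_div_iff₀ hk0 (by positivity), one_mul]
  have h11 : (y - k) * (a ^ 2 * b ^ 2) = ((y - k) * b * a ^ 2) * b := by ring
  rw [h11]
  nlinarith

/-- shift relation -/
lemma kap_shift {a b c : ℝ} (ha : 1 ≤ a) :
    kap a c (3 * a * c - b) = kap a b c * lam a := by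
  have h1 := lam_sub_inv_pos a ha
  have hp := lam_pos a ha
  have hi := lam_inv a ha
  have hxx : (lam a)⁻¹ * lam a = 1 := inv_mul_cancel₀ hp.ne'
  unfold kap
  rw [div_mul_eq_mul_div]
  congr 1
  have e : (3 * c - 3 * b * (lam a)⁻¹) * lam a = 3 * c * lam a - 3 * b * ((lam a)⁻¹ * lam a) := by ring
  rw [e, hxx, hi]
  ring

/-- jump relation -/
lemma kap_jump {a b c : ℝ} (h : MT a b c) :
    kap c a (3 * a * c - b) * kap c b (3 * b * c - a) = lam c * (9 * c ^ 2 / (9 * c ^ 2 - 4)) := by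
  have hc1 := h.c_one
  have h1 := lam_sub_inv_pos c hc1
  have h2 := lam_sub_inv_sq c hc1
  have hp := lam_pos c hc1
  have hi := lam_inv c hc1
  have hq := lam_quad c hc1
  unfold kap
  rw [div_mul_div_comm, ← sq, h2, mul_div_assoc']
  congr 1
  rw [hi]
  have e1 : 3 * (3 * a * c - b) - 3 * a * (3 * c - lam c) = 3 * (a * lam c - b) := by ring
  have e2 : 3 * (3 * b * c - a) - 3 * b * (3 * c - lam c) = 3 * (b * lam c - a) := by ring
  rw [e1, e2]
  have e3 : lam c ^ 2 = 3 * c * lam c - 1 := by linarith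
  have e4 : 3 * (a * lam c - b) * (3 * (b * lam c - a)) = 9 * (a * b * lam c ^ 2 - (a ^ 2 + b ^ 2) * lam c + a * b) := by ring
  rw [e4, e3]
  have e5 : a ^ 2 + b ^ 2 = 3 * a * b * c - c ^ 2 := by linarith [h.hm]
  rw [e5]; ring

lemma jump_lower (c : ℝ) (hc : 1 ≤ c) : 4 / (9 * c ^ 2) ≤ Real.log (9 * c ^ 2 / (9 * c ^ 2 - 4)) := by
  have h1 : 0 < 9 * c ^ 2 - 4 := by nlinarith
  have h2 : 0 < (9 * c ^ 2 - 4) / (9 * c ^ 2) := by positivity
  have h3 := Real.log_le_sub_one_of_pos h2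
  have h4 : Real.log (9 * c ^ 2 / (9 * c ^ 2 - 4)) = - Real.log ((9 * c ^ 2 - 4) / (9 * c ^ 2)) := by
    rw [← Real.log_inv, inv_div]
  rw [h4]
  have h5 : (9 * c ^ 2 - 4) / (9 * c ^ 2) - 1 = -(4 / (9 * c ^ 2)) := by field_simp; ring
  linarith

end

end Pool.Agent.Helper862.Mk
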