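import Mathlib
import Pool.Agent.Helper862.Node

set_option autoImplicit false

namespace Pool.Agent.Helper862.Mk

noncomputable section

/-- pairs of conjugate elements of `ℤ[√D]` -/
def ZP (D : ℤ) (ξ ξ' : ℝ) : Prop :=
  ∃ P R : ℤ, ξ = P + R * Real.sqrt D ∧ ξ' = P - R * Real.sqrt D

lemma ZP.mul {D : ℤ} (hD : 0 ≤ D) {ξ ξ' η η' : ℝ} (h1 : ZP D ξ ξ') (h2 : ZP D η η') :
    ZP D (ξ * η) (ξ' * η') := by
  obtain ⟨P, R, e1, e2⟩ := h1
  obtain ⟨P', R', e3, e4⟩ := h2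
  have hs : Real.sqrt (D : ℝ) * Real.sqrt (D : ℝ) = D := Real.mul_self_sqrt (by exact_mod_cast hD)
  refine ⟨P * P' + R * R' * D, P * R' + R * P', ?_, ?_⟩
  · rw [e1, e3]; push_cast
    have : ((P : ℝ) + R * Real.sqrt D) * (P' + R' * Real.sqrt D) =
      P * P' + R * R' * (Real.sqrt D * Real.sqrt D) + (P * R' + R * P') * Real.sqrt D := by ring
    rw [this, hs]
  · rw [e2, e4]; push_cast
    have : ((P : ℝ) - R * Real.sqrt D) * (P' - R' * Real.sqrt D) =
      P * P' + R * R' * (Real.sqrt D * Real.sqrt D) - (P * R' + R * P') * Real.sqrt D := by ring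
    rw [this, hs]

lemma ZP.one {D : ℤ} : ZP D 1 1 := ⟨1, 0, by simp, by simp⟩

lemma ZP.pow {D : ℤ} (hD : 0 ≤ D) {ξ ξ' : ℝ} (h : ZP D ξ ξ') (n : ℕ) : ZP D (ξ ^ n) (ξ' ^ n) := by
  induction n with
  | zero => simpa using ZP.one
  | succ n ih => rw [pow_succ, pow_succ]; exact ih.mul hD h

lemma ZP.sub_int {D : ℤ} {ξ ξ' : ℝ} (h : ZP D ξ ξ') (n : ℤ) : ZP D (ξ - n) (ξ' - n) := by
  obtain ⟨P, R, e1, e2⟩ := h
  refine ⟨P - n, R, ?_, ?_⟩
  · rw [e1]; push_cast; ring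
  · rw [e2]; push_cast; ring

lemma ZP.swap {D : ℤ} {ξ ξ' : ℝ} (h : ZP D ξ ξ') : ZP D ξ' ξ := by
  obtain ⟨P, R, e1, e2⟩ := h
  exact ⟨P, -R, by rw [e2]; push_cast; ring, by rw [e1]; push_cast; ring⟩

lemma ZP.norm {D : ℤ} (hD : 0 ≤ D) (hsq : ∀ n : ℤ, D ≠ n * n) {ξ ξ' : ℝ} (h : ZP D ξ ξ') :
    1 ≤ |ξ * ξ'| ∨ (ξ = 0 ∧ ξ' = 0) := by
  obtain ⟨P, R, e1, e2⟩ := h
  have hs : Real.sqrt (D : ℝ) * Real.sqrt (D : ℝ) = D := Real.mul_self_sqrt (by exact_mod_cast hD)
  have e3 : ξ * ξ' = ((P * P - D * R * R : ℤ) : ℝ) := by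
    rw [e1, e2]; push_cast
    have : ((P : ℝ) + R * Real.sqrt D) * (P - R * Real.sqrt D) =
      P * P - (Real.sqrt D * Real.sqrt D) * R * R := by ring
    rw [this, hs]
  by_cases h0 : P * P - D * R * R = 0
  · right
    have hn : Zsqrtd.norm (⟨P, R⟩ : ℤ√D) = 0 := by
      simp only [Zsqrtd.norm]
      exact h0
    have hz := (Zsqrtd.norm_eq_zero hsq _).mp hn
    have hP : P = 0 := congrArg Zsqrtd.re hz
    have hR : R = 0 := congrArg Zsqrtd.im hz
    rw [e1, e2, hP, hR]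
    simp
  · left
    rw [e3]
    have : 1 ≤ |P * P - D * R * R| := Int.one_le_abs h0
    exact_mod_cast this

lemma nonsquare (a : ℤ) (ha : 1 ≤ a) : ∀ n : ℤ, 9 * a ^ 2 - 4 ≠ n * n := by
  intro n hn
  wlog hn0 : 0 ≤ n generalizing n
  · exact this (-n) (by rw [hn]; ring) (by omega)
  have h1 : (3 * a - n) * (3 * a + n) = 4 := by linarith
  have h2 : 0 < 3 * a + n := by omega
  have h3 : 0 < 3 * a - n := by
    by_contra hcon
    push Not at hcon
    have := mul_nonpos_of_nonpos_of_nonneg hcon h2.le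
    omega
  have h4 : 3 * a + n ≤ 4 := by nlinarith
  have h5 : 3 * a - n ≤ 4 := by nlinarith
  have ha1 : a = 1 := by omega
  subst ha1
  have hn4 : n ≤ 1 := by omega
  interval_cases n <;> omega

lemma sqrt_eq (a : ℝ) (ha : 1 ≤ a) : Real.sqrt (9 * a ^ 2 - 4) = lam a - (lam a)⁻¹ := by
  rw [lam_inv a ha]; unfold lam; ring

/-- Liouville type lower bound at a corner. -/
theorem liouville_nat (a b c : ℤ) (h : MT (a : ℝ) b c) (p : ℕ) (hp : 1 ≤ p) (hup : 3 * a ≤ 6 ^ p)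
    (m n : ℕ) (hmn : 1 ≤ m + n) (σ : ℝ) (hσ : σ = 1 ∨ σ = -1) :
    Real.exp (-(12 * p * (m + n))) ≤ |σ * m * g a + n * Real.log (kap a b c)| := by
  have ha : (1 : ℝ) ≤ a := h.ha
  have hb : (1 : ℝ) ≤ b := h.hb
  have haz : 1 ≤ a := by exact_mod_cast ha
  set D : ℤ := 9 * a ^ 2 - 4 with hD
  have hDR : (D : ℝ) = 9 * (a : ℝ) ^ 2 - 4 := by rw [hD]; push_cast; ring
  have hD0 : 0 ≤ D := by rw [hD]; nlinarith
  have hD5 : (5 : ℝ) ≤ D := by rw [hDR]; nlinarith
  have hs := sqrt_eq a ha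
  rw [← hDR] at hs
  have hlp := lam_pos a ha
  have hll := lam_lower a ha
  have hli := lam_inv a ha
  have hspos := lam_sub_inv_pos a ha
  have hsD : Real.sqrt (D : ℝ) * Real.sqrt (D : ℝ) = D := Real.mul_self_sqrt (by exact_mod_cast hD0)
  -- basic conjugate pairs
  have hK : ZP D (2 * D * kap a b c) (2 * D * kap' a b c) := by
    refine ⟨3 * b * D, 6 * c - 9 * a * b, ?_, ?_⟩
    · unfold kap
      rw [← hs]
      have hli2 : (lam a)⁻¹ = (3 * a - Real.sqrt D) / 2 := by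
        rw [hs, hli]; ring
      rw [hli2]
      have hsne : Real.sqrt (D : ℝ) ≠ 0 := by rw [hs]; exact hspos.ne'
      have : 2 * (D : ℝ) * ((3 * c - 3 * b * ((3 * a - Real.sqrt D) / 2)) / Real.sqrt D) =
        (Real.sqrt D * Real.sqrt D) * ((6 * c - 9 * a * b + 3 * b * Real.sqrt D) / Real.sqrt D) := by
        rw [hsD]; ring
      rw [this]
      push_cast
      have e : Real.sqrt (D : ℝ) * Real.sqrt D * ((6 * c - 9 * a * b + 3 * b * Real.sqrt D) / Real.sqrt D) =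
        Real.sqrt D * (6 * c - 9 * a * b) + 3 * b * (Real.sqrt D * Real.sqrt D) := by
        field_simp
      rw [e, hsD]; ring
    · unfold kap'
      rw [← hs]
      have hli2 : lam a = (3 * a + Real.sqrt D) / 2 := by
        rw [hs, hli]; ring
      rw [hli2]
      have hsne : Real.sqrt (D : ℝ) ≠ 0 := by rw [hs]; exact hspos.ne'
      have : 2 * (D : ℝ) * ((3 * b * ((3 * a + Real.sqrt D) / 2) - 3 * c) / Real.sqrt D) =
        (Real.sqrt D * Real.sqrt D) * ((9 * a * b - 6 * c + 3 * b * Real.sqrt D) / Real.sqrt D) := by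
        rw [hsD]; ring
      rw [this]
      push_cast
      have e : Real.sqrt (D : ℝ) * Real.sqrt D * ((9 * a * b - 6 * c + 3 * b * Real.sqrt D) / Real.sqrt D) =
        Real.sqrt D * (9 * a * b - 6 * c) + 3 * b * (Real.sqrt D * Real.sqrt D) := by
        field_simp
      rw [e, hsD]; ring
  have hL : ZP D (2 * lam a) (2 * (lam a)⁻¹) := by
    refine ⟨3 * a, 1, ?_, ?_⟩
    · push_cast; rw [hs, hli]; ring
    · push_cast; rw [hs, hli]; ring
  -- choose orientation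
  obtain ⟨ρ, ρ', hρ0, hρ'0, hρρ, hρL, hρlog⟩ : ∃ ρ ρ' : ℝ, 0 < ρ ∧ 0 < ρ' ∧ ρ * ρ' = 1 ∧ ZP D (2 * ρ) (2 * ρ') ∧
      Real.log ρ = σ * g a := by
    rcases hσ with h1 | h1
    · refine ⟨lam a, (lam a)⁻¹, hlp, by positivity, mul_inv_cancel₀ hlp.ne', hL, ?_⟩
      rw [h1, one_mul]; rfl
    · refine ⟨(lam a)⁻¹, lam a, by positivity, hlp, inv_mul_cancel₀ hlp.ne', hL.swap, ?_⟩
      rw [h1, Real.log_inv]; unfold g; ring
  set κ := kap a b c with hκ
  set κ' := kap' a b c with hκ'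
  have hκ0 : 0 < κ := kap_pos h
  have hκ'0 : 0 < κ' := kap'_pos h
  have hκκ : κ * κ' = 9 * (a : ℝ) ^ 2 / D := by rw [hDR]; exact kap_mul h
  set Θ := κ ^ n * ρ ^ m with hΘ
  set Θ' := κ' ^ n * ρ' ^ m with hΘ'
  have hΘ0 : 0 < Θ := by positivity
  have hΘ'0 : 0 < Θ' := by positivity
  have hΘΘ : Θ * Θ' = (9 * (a : ℝ) ^ 2 / D) ^ n := by
    have : Θ * Θ' = (κ * κ') ^ n * (ρ * ρ') ^ m := by rw [hΘ, hΘ', mul_pow, mul_pow]; ring
    rw [this, hκκ, hρρ, one_pow, mul_one]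
  set W : ℝ := (2 * D) ^ n * 2 ^ m with hW
  have hW1 : 0 < W := by positivity
  have hE : ZP D (W * (Θ - 1)) (W * (Θ' - 1)) := by
    have h1 := ((hK.pow hD0 n).mul hD0 (hρL.pow hD0 m)).sub_int ((2 * D) ^ n * 2 ^ m)
    have e1 : (2 * (D : ℝ) * κ) ^ n * (2 * ρ) ^ m - (((2 * D) ^ n * 2 ^ m : ℤ) : ℝ) = W * (Θ - 1) := by
      rw [hW, hΘ]; push_cast; rw [mul_pow, mul_pow]; ring
    have e2 : (2 * (D : ℝ) * κ') ^ n * (2 * ρ') ^ m - (((2 * D) ^ n * 2 ^ m : ℤ) : ℝ) = W * (Θ' - 1) := by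
      rw [hW, hΘ']; push_cast; rw [mul_pow, mul_pow]; ring
    rw [e1, e2] at h1
    exact h1
  have hlogΘ : Real.log Θ = σ * m * g a + n * Real.log κ := by
    rw [hΘ, Real.log_mul (by positivity) (by positivity), Real.log_pow, Real.log_pow, hρlog]; ring
  rw [← hlogΘ]
  -- size of the denominator
  have hratio : 9 * (a : ℝ) ^ 2 / D ≤ 2 := by
    rw [div_le_iff₀ (by linarith), hDR]; nlinarith
  have hratio1 : 1 < 9 * (a : ℝ) ^ 2 / D := by
    rw [lt_div_iff₀ (by linarith), hDR]; linarith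
  have hnorm : 1 ≤ |W * (Θ - 1) * (W * (Θ' - 1))| := by
    rcases hE.norm hD0 (nonsquare a haz) with h1 | ⟨h1, h2⟩
    · exact h1
    · exfalso
      have h3 : Θ = 1 := by
        have := (mul_eq_zero.mp h1).resolve_left hW1.ne'
        linarith
      have h4 : Θ' = 1 := by
        have := (mul_eq_zero.mp h2).resolve_left hW1.ne'
        linarith
      rw [h3, h4, one_mul] at hΘΘ
      have hn : n = 0 := by
        by_contra hn
        have := one_lt_pow₀ hratio1 hn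
        linarith
      subst hn
      have hm : m ≠ 0 := by omega
      rw [hΘ, pow_zero, one_mul] at h3
      have h5 : Real.log (ρ ^ m) = 0 := by rw [h3, Real.log_one]
      rw [Real.log_pow, hρlog] at h5
      have hg := g_pos a ha
      have hm' : (m : ℝ) ≠ 0 := by exact_mod_cast hm
      have hσ0 : σ ≠ 0 := by rcases hσ with h | h <;> rw [h] <;> norm_num
      have := mul_ne_zero hm' (mul_ne_zero hσ0 hg.ne')
      exact this h5
  -- main estimate
  have hmain : 1 / (6 * 2 ^ n * W ^ 2) ≤ |Real.log Θ| := by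
    by_cases hbig : 1 < |Real.log Θ|
    · have h1 : (1 : ℝ) ≤ 6 * 2 ^ n * W ^ 2 := by
        have h2 : (1 : ℝ) ≤ 2 ^ n := one_le_pow₀ (by norm_num)
        have h3 : (1 : ℝ) ≤ W := by
          rw [hW]
          have h4 : (1 : ℝ) ≤ (2 * D) ^ n := one_le_pow₀ (by linarith)
          have h5 : (1 : ℝ) ≤ 2 ^ m := one_le_pow₀ (by norm_num)
          exact one_le_mul_of_one_le_of_one_le h4 h5
        have h4 : (1 : ℝ) ≤ W ^ 2 := one_le_pow₀ h3
        have h5 : (1 : ℝ) ≤ 2 ^ n * W ^ 2 := one_le_mul_of_one_le_of_one_le h2 h4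
        linarith
      have h6 : 1 / (6 * 2 ^ n * W ^ 2) ≤ 1 := by
        rw [div_le_one (by linarith)]; exact h1
      linarith
    · push Not at hbig
      have h1 := Real.abs_exp_sub_one_le hbig
      rw [Real.exp_log hΘ0] at h1
      have hlow : (1 : ℝ) / 3 ≤ Θ := by
        have h2 : -1 ≤ Real.log Θ := (abs_le.mp hbig).1
        have h3 : Real.exp (-1) ≤ Θ := by
          rw [← Real.exp_log hΘ0]; exact Real.exp_le_exp.mpr h2
        have h4 : (1 : ℝ) / 3 ≤ Real.exp (-1) := by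
          rw [Real.exp_neg, ← one_div]
          apply one_div_le_one_div_of_le (Real.exp_pos 1)
          linarith [Real.exp_one_lt_d9]
        linarith
      have hΘ'b : Θ' ≤ 3 * 2 ^ n := by
        have h2 : Θ * Θ' ≤ 2 ^ n := by
          rw [hΘΘ]; exact pow_le_pow_left₀ (by linarith) hratio n
        have h3 : 1 / 3 * Θ' ≤ Θ * Θ' := mul_le_mul_of_nonneg_right hlow hΘ'0.le
        linarith
      have h5 : |Θ' - 1| ≤ 3 * 2 ^ n := by
        have h2 : (1 : ℝ) ≤ 2 ^ n := one_le_pow₀ (by norm_num)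
        rw [abs_le]; constructor <;> linarith
      have h6 : 1 ≤ W ^ 2 * |Θ - 1| * (3 * 2 ^ n) := by
        calc (1 : ℝ) ≤ |W * (Θ - 1) * (W * (Θ' - 1))| := hnorm
          _ = W ^ 2 * |Θ - 1| * |Θ' - 1| := by
              rw [abs_mul (W * (Θ - 1)), abs_mul W (Θ - 1), abs_mul W (Θ' - 1), abs_of_pos hW1]; ring
          _ ≤ W ^ 2 * |Θ - 1| * (3 * 2 ^ n) := mul_le_mul_of_nonneg_left h5 (by positivity)
      rw [div_le_iff₀ (by positivity)]
      have h7 : W ^ 2 * |Θ - 1| * (3 * 2 ^ n) ≤ W ^ 2 * (2 * |Real.log Θ|) * (3 * 2 ^ n) := by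
        apply mul_le_mul_of_nonneg_right _ (by positivity)
        exact mul_le_mul_of_nonneg_left h1 (by positivity)
      calc (1 : ℝ) ≤ W ^ 2 * (2 * |Real.log Θ|) * (3 * 2 ^ n) := h6.trans h7
        _ = |Real.log Θ| * (6 * 2 ^ n * W ^ 2) := by ring
  refine le_trans ?_ hmain
  -- numeric bound
  have hDup : (D : ℝ) ≤ 36 ^ p := by
    have h1 : (3 * a : ℝ) ≤ 6 ^ p := by exact_mod_cast hup
    have h2 : (3 * (a : ℝ)) ^ 2 ≤ (6 ^ p) ^ 2 := pow_le_pow_left₀ (by linarith) h1 2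
    have h3 : ((6 : ℝ) ^ p) ^ 2 = 36 ^ p := by rw [← pow_mul, mul_comm, pow_mul]; norm_num
    rw [h3] at h2
    rw [hDR]; linarith
  set e := p * (m + n) with he
  have hemn : m + n ≤ e := by rw [he]; exact Nat.le_mul_of_pos_left _ hp
  have he1 : 1 ≤ e := hmn.trans hemn
  have hb1 : 6 * 2 ^ n * W ^ 2 ≤ (62208 : ℝ) ^ e := by
    have h1 : W ^ 2 ≤ ((4 : ℝ) * 1296 ^ p) ^ n * 4 ^ m := by
      have h2 : W ≤ (2 * 36 ^ p) ^ n * 2 ^ m := by
        rw [hW]
        apply mul_le_mul_of_nonneg_right _ (by positivity)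
        exact pow_le_pow_left₀ (by linarith) (by linarith) n
      calc W ^ 2 ≤ ((2 * 36 ^ p) ^ n * 2 ^ m) ^ 2 := pow_le_pow_left₀ hW1.le h2 2
        _ = ((4 : ℝ) * 1296 ^ p) ^ n * 4 ^ m := by
            rw [mul_pow, ← pow_mul, ← pow_mul, mul_comm n 2, mul_comm m 2, pow_mul, pow_mul, mul_pow, ← pow_mul, mul_comm p 2, pow_mul]
            norm_num
    have h3 : (6 : ℝ) ≤ 6 ^ e := by
      calc (6 : ℝ) = 6 ^ 1 := by norm_num
        _ ≤ 6 ^ e := pow_le_pow_right₀ (by norm_num) he1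
    have h4 : (2 : ℝ) ^ n * (4 ^ n * 4 ^ m) ≤ 8 ^ e := by
      calc (2 : ℝ) ^ n * (4 ^ n * 4 ^ m) ≤ 2 ^ (m + n) * 4 ^ (m + n) := by
            rw [← pow_add, Nat.add_comm n m]
            apply mul_le_mul_of_nonneg_right _ (by positivity)
            exact pow_le_pow_right₀ (by norm_num) (by omega)
        _ = 8 ^ (m + n) := by rw [← mul_pow]; norm_num
        _ ≤ 8 ^ e := pow_le_pow_right₀ (by norm_num) hemn
    have h5 : (1296 : ℝ) ^ (p * n) ≤ 1296 ^ e := by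
      apply pow_le_pow_right₀ (by norm_num)
      rw [he]; apply Nat.mul_le_mul_left; omega
    calc 6 * 2 ^ n * W ^ 2 ≤ 6 * 2 ^ n * (((4 : ℝ) * 1296 ^ p) ^ n * 4 ^ m) :=
          mul_le_mul_of_nonneg_left h1 (by positivity)
      _ = 6 * ((2 : ℝ) ^ n * (4 ^ n * 4 ^ m)) * 1296 ^ (p * n) := by
          rw [mul_pow, ← pow_mul]; ring
      _ ≤ 6 ^ e * 8 ^ e * 1296 ^ e := by
          apply mul_le_mul _ h5 (by positivity) (by positivity)
          exact mul_le_mul h3 h4 (by positivity) (by positivity)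
      _ = (62208 : ℝ) ^ e := by rw [← mul_pow, ← mul_pow]; norm_num
  have hb2 : (62208 : ℝ) ^ e ≤ Real.exp (12 * p * (m + n)) := by
    have h1 : (12 : ℝ) * p * (m + n) = (e : ℕ) * 12 := by rw [he]; push_cast; ring
    rw [h1, Real.exp_nat_mul]
    apply pow_le_pow_left₀ (by norm_num)
    have h2 : Real.exp 12 = Real.exp 1 ^ 12 := by
      rw [← Real.exp_nat_mul]; norm_num
    rw [h2]
    have h3 := Real.exp_one_gt_d9
    calc (62208 : ℝ) ≤ 2.7182818283 ^ 12 := by norm_num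
      _ ≤ Real.exp 1 ^ 12 := pow_le_pow_left₀ (by norm_num) h3.le 12
  rw [Real.exp_neg, ← one_div]
  apply one_div_le_one_div_of_le (by positivity)
  exact hb1.trans hb2

/-- Liouville bound with integer exponents. -/
theorem liouville (a b c : ℤ) (h : MT (a : ℝ) b c) (p : ℕ) (hp : 1 ≤ p) (hup : 3 * a ≤ 6 ^ p)
    (x y : ℤ) (hxy : x ≠ 0 ∨ y ≠ 0) :
    Real.exp (-(12 * p * (|(x : ℝ)| + |(y : ℝ)|))) ≤ |x * g a + y * Real.log (kap a b c)| := by
  have key : ∀ x y : ℤ, 0 ≤ y → (x ≠ 0 ∨ y ≠ 0) →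
      Real.exp (-(12 * p * (|(x : ℝ)| + |(y : ℝ)|))) ≤ |x * g a + y * Real.log (kap a b c)| := by
    intro x y hy hxy
    obtain ⟨n, rfl⟩ := Int.eq_ofNat_of_zero_le hy
    rcases le_total 0 x with hx | hx
    · obtain ⟨m, rfl⟩ := Int.eq_ofNat_of_zero_le hx
      have := liouville_nat a b c h p hp hup m n (by omega) 1 (Or.inl rfl)
      push_cast
      rw [abs_of_nonneg (by positivity : (0 : ℝ) ≤ (m : ℝ)), abs_of_nonneg (by positivity : (0 : ℝ) ≤ (n : ℝ))]
      rw [one_mul] at this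
      exact this
    · obtain ⟨m, hm⟩ := Int.eq_ofNat_of_zero_le (show 0 ≤ -x by omega)
      have hx' : x = -(m : ℤ) := by omega
      subst hx'
      have := liouville_nat a b c h p hp hup m n (by omega) (-1) (Or.inr rfl)
      push_cast
      rw [abs_neg, abs_of_nonneg (by positivity : (0 : ℝ) ≤ (m : ℝ)), abs_of_nonneg (by positivity : (0 : ℝ) ≤ (n : ℝ))]
      have e : -1 * (m : ℝ) * g a + n * Real.log (kap a b c) = -(m : ℝ) * g a + n * Real.log (kap a b c) := by ring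
      rw [e] at this
      exact this
  rcases le_total 0 y with hy | hy
  · exact key x y hy hxy
  · have := key (-x) (-y) (by omega) (by omega)
    push_cast at this
    rw [abs_neg, abs_neg] at this
    have e : -(x : ℝ) * g a + -(y : ℝ) * Real.log (kap a b c) = -(x * g a + y * Real.log (kap a b c)) := by ring
    rw [e, abs_neg] at this
    exact this

end

end Pool.Agent.Helper862.Mk
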