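import Mathlib
import Pool.Agent.Helper862.Liou

set_option autoImplicit false

namespace Pool.Agent.Helper862.Mk

noncomputable section

/-- A node of the Markov tree. -/
structure Nd where
  ux : ℤ
  uy : ℤ
  vx : ℤ
  vy : ℤ
  p : ℕ
  q : ℕ
  a : ℤ
  b : ℤ
  c : ℤ

def lf (X : Nd) : Nd := ⟨X.ux, X.uy, X.ux + X.vx, X.uy + X.vy, X.p, X.p + X.q, X.a, X.c, 3 * X.a * X.c - X.b⟩
def rt (X : Nd) : Nd := ⟨X.ux + X.vx, X.uy + X.vy, X.vx, X.vy, X.p + X.q, X.q, X.c, X.b, 3 * X.b * X.c - X.a⟩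

def root : Nd := ⟨1, 0, 0, 1, 1, 1, 1, 2, 5⟩

/-- descendants: `true` = left -/
def desc : Nd → List Bool → Nd
  | X, [] => X
  | X, (true :: l) => desc (lf X) l
  | X, (false :: l) => desc (rt X) l

structure Valid (X : Nd) : Prop where
  det : X.ux * X.vy - X.uy * X.vx = 1
  ux0 : 0 ≤ X.ux
  uy0 : 0 ≤ X.uy
  vx0 : 0 ≤ X.vx
  vy0 : 0 ≤ X.vy
  hp : (X.p : ℤ) = X.ux + X.uy
  hq : (X.q : ℤ) = X.vx + X.vy
  p1 : 1 ≤ X.p
  q1 : 1 ≤ X.q
  mt : MT (X.a : ℝ) X.b X.c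
  la : (2 : ℤ) ^ X.p ≤ 2 * X.a
  lb : (2 : ℤ) ^ X.q ≤ 2 * X.b
  ua : 3 * X.a ≤ 6 ^ X.p
  ub : 3 * X.b ≤ 6 ^ X.q

lemma MT.left {a b c : ℝ} (h : MT a b c) : MT a c (3 * a * c - b) := by
  have h1 := h.c_ge
  have h2 := h.c_one
  have hab := h.ab_pos
  obtain ⟨ha, hb, hm, hc⟩ := h
  refine ⟨ha, h2, by nlinarith, ?_⟩
  have h3 : b ≤ c := by nlinarith
  nlinarith

lemma MT.right {a b c : ℝ} (h : MT a b c) : MT c b (3 * b * c - a) := by
  have := (h.swap.left).swap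
  exact this

lemma valid_root : Valid root := by
  refine ⟨by simp [root], by simp [root], by simp [root], by simp [root], by simp [root], by simp [root],
    by simp [root], by simp [root], by simp [root], ⟨?_, ?_, ?_, ?_⟩, by simp [root], by simp [root], by simp [root], by simp [root]⟩
  · simp [root]
  · simp [root]
  · simp [root]; norm_num
  · simp [root]; norm_num

lemma valid_lc {X : Nd} (h : Valid X) : (2 : ℤ) ^ (X.p + X.q) ≤ 2 * X.c ∧ 3 * X.c ≤ 6 ^ (X.p + X.q) := by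
  have h1 : 2 * X.a * X.b ≤ X.c := by exact_mod_cast h.mt.c_ge
  have h2 : X.c < 3 * X.a * X.b := by exact_mod_cast h.mt.c_lt
  have ha : 1 ≤ X.a := by exact_mod_cast h.mt.ha
  have hb : 1 ≤ X.b := by exact_mod_cast h.mt.hb
  constructor
  · rw [pow_add]
    calc (2 : ℤ) ^ X.p * 2 ^ X.q ≤ (2 * X.a) * (2 * X.b) := mul_le_mul h.la h.lb (by positivity) (by omega)
      _ = 2 * (2 * X.a * X.b) := by ring
      _ ≤ 2 * X.c := by omega
  · rw [pow_add]
    calc 3 * X.c ≤ (3 * X.a) * (3 * X.b) := by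
          have : (3 * X.a) * (3 * X.b) = 3 * (3 * X.a * X.b) := by ring
          omega
      _ ≤ 6 ^ X.p * 6 ^ X.q := mul_le_mul h.ua h.ub (by omega) (by positivity)

lemma Valid.lf {X : Nd} (h : Valid X) : Valid (lf X) := by
  have hc := valid_lc h
  refine ⟨?_, h.ux0, h.uy0, add_nonneg h.ux0 h.vx0, add_nonneg h.uy0 h.vy0, h.hp, ?_, h.p1, ?_, ?_, h.la, hc.1, h.ua, hc.2⟩
  · have := h.det
    simp only [Mk.lf]; linarith
  · simp only [Mk.lf]; push_cast; linarith [h.hp, h.hq]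
  · simp only [Mk.lf]; have := h.p1; omega
  · simp only [Mk.lf]; push_cast; exact h.mt.left

lemma Valid.rt {X : Nd} (h : Valid X) : Valid (rt X) := by
  have hc := valid_lc h
  refine ⟨?_, add_nonneg h.ux0 h.vx0, add_nonneg h.uy0 h.vy0, h.vx0, h.vy0, ?_, h.hq, ?_, h.q1, ?_, hc.1, h.lb, hc.2, h.ub⟩
  · have := h.det
    simp only [Mk.rt]; linarith
  · simp only [Mk.rt]; push_cast; linarith [h.hp, h.hq]
  · simp only [Mk.rt]; have := h.p1; omega
  · simp only [Mk.rt]; push_cast; exact h.mt.right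

lemma Valid.desc {X : Nd} (h : Valid X) (l : List Bool) : Valid (desc X l) := by
  induction l generalizing X with
  | nil => exact h
  | cons b l ih =>
    cases b
    · exact ih h.rt
    · exact ih h.lf

/-! ### real quantities attached to a node -/

def al (X : Nd) : ℝ := g X.a
def be (X : Nd) : ℝ := g X.b
def ga (X : Nd) : ℝ := g X.c
/-- `log κ⁺` -/
def kp (X : Nd) : ℝ := Real.log (kap X.a X.b X.c)
/-- `log κ⁻` -/
def km (X : Nd) : ℝ := Real.log (kap X.b X.a X.c)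
def dl (X : Nd) : ℝ := 1 / ((X.a : ℝ) ^ 2 * (X.b : ℝ) ^ 2)

lemma al_lf (X : Nd) : al (lf X) = al X := rfl
lemma be_lf (X : Nd) : be (lf X) = ga X := rfl
lemma al_rt (X : Nd) : al (rt X) = ga X := rfl
lemma be_rt (X : Nd) : be (rt X) = be X := rfl

lemma al_lower {X : Nd} (h : Valid X) : 3 / 4 ≤ al X := g_lower _ h.mt.ha
lemma be_lower {X : Nd} (h : Valid X) : 3 / 4 ≤ be X := g_lower _ h.mt.hb
lemma ga_lower {X : Nd} (h : Valid X) : 3 / 4 ≤ ga X := g_lower _ h.mt.c_one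

lemma ga_le {X : Nd} (h : Valid X) : ga X ≤ al X + be X := deficit_nonneg' h.mt
lemma ga_ge {X : Nd} (h : Valid X) : al X + be X - dl X ≤ ga X := by
  have := deficit_upper h.mt
  unfold al be ga dl; linarith

lemma kp_le {X : Nd} (h : Valid X) : kp X ≤ be X := log_kap_le h.mt
lemma kp_ge {X : Nd} (h : Valid X) : be X - kp X ≤ dl X := log_kap_ge h.mt
lemma km_le {X : Nd} (h : Valid X) : km X ≤ al X := log_kap_le h.mt.swap
lemma km_ge {X : Nd} (h : Valid X) : al X - km X ≤ dl X := by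
  have := log_kap_ge h.mt.swap
  unfold al km dl
  rw [mul_comm ((X.a : ℝ) ^ 2)]
  exact this

lemma dl_pos {X : Nd} (h : Valid X) : 0 < dl X := by
  have := h.mt.ha; have := h.mt.hb
  unfold dl; positivity

lemma dl_le_one {X : Nd} (h : Valid X) : dl X ≤ 1 := by
  have ha := h.mt.ha; have hb := h.mt.hb
  unfold dl
  rw [div_le_one (by positivity)]
  have h1 : (1 : ℝ) ≤ (X.a : ℝ) ^ 2 := one_le_pow₀ ha
  have h2 : (1 : ℝ) ≤ (X.b : ℝ) ^ 2 := one_le_pow₀ hb
  exact one_le_mul_of_one_le_of_one_le h1 h2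

lemma dl_lf {X : Nd} (h : Valid X) : dl (lf X) ≤ dl X / 4 := by
  have ha := h.mt.ha; have hb := h.mt.hb
  have hc := h.mt.c_ge
  have hc2 : 2 * (X.b : ℝ) ≤ X.c := by nlinarith
  have h1 : 4 * (X.b : ℝ) ^ 2 ≤ (X.c : ℝ) ^ 2 := by nlinarith
  unfold dl Mk.lf
  simp only
  rw [div_div, div_le_div_iff₀ (by have := h.mt.c_one; positivity) (by positivity)]
  have h2 : 0 < (X.a : ℝ) ^ 2 := by positivity
  nlinarith

lemma dl_rt {X : Nd} (h : Valid X) : dl (rt X) ≤ dl X / 4 := by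
  have ha := h.mt.ha; have hb := h.mt.hb
  have hc := h.mt.c_ge
  have hc2 : 2 * (X.a : ℝ) ≤ X.c := by nlinarith
  have h1 : 4 * (X.a : ℝ) ^ 2 ≤ (X.c : ℝ) ^ 2 := by nlinarith
  unfold dl Mk.rt
  simp only
  rw [div_div, div_le_div_iff₀ (by have := h.mt.c_one; positivity) (by positivity)]
  have h2 : 0 < (X.b : ℝ) ^ 2 := by positivity
  nlinarith

/-- `dl X ≤ 16 / 4^(p+q)` -/
lemma dl_size {X : Nd} (h : Valid X) : dl X ≤ 16 / 4 ^ (X.p + X.q) := by
  have ha := h.mt.ha; have hb := h.mt.hb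
  have h1 : (2 : ℝ) ^ X.p ≤ 2 * X.a := by exact_mod_cast h.la
  have h2 : (2 : ℝ) ^ X.q ≤ 2 * X.b := by exact_mod_cast h.lb
  have h3 : ((2 : ℝ) ^ X.p) ^ 2 ≤ (2 * (X.a : ℝ)) ^ 2 := pow_le_pow_left₀ (by positivity) h1 2
  have h4 : ((2 : ℝ) ^ X.q) ^ 2 ≤ (2 * (X.b : ℝ)) ^ 2 := pow_le_pow_left₀ (by positivity) h2 2
  have e1 : (4 : ℝ) ^ (X.p + X.q) = ((2 : ℝ) ^ X.p) ^ 2 * ((2 : ℝ) ^ X.q) ^ 2 := by
    rw [pow_add, ← pow_mul, ← pow_mul, mul_comm X.p 2, mul_comm X.q 2, pow_mul, pow_mul]; norm_num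
  unfold dl
  rw [div_le_div_iff₀ (by positivity) (by positivity), one_mul, e1]
  calc ((2 : ℝ) ^ X.p) ^ 2 * ((2 : ℝ) ^ X.q) ^ 2 ≤ (2 * (X.a : ℝ)) ^ 2 * (2 * (X.b : ℝ)) ^ 2 :=
        mul_le_mul h3 h4 (by positivity) (by positivity)
    _ = 16 * ((X.a : ℝ) ^ 2 * (X.b : ℝ) ^ 2) := by ring

/-- size bounds for `al`, `be` -/
lemma al_size {X : Nd} (h : Valid X) : (X.p : ℝ) / 2 ≤ al X ∧ al X ≤ 2 * X.p := by
  have ha := h.mt.ha
  have hl := lam_lower _ ha
  have hu := lam_upper _ ha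
  have hpos := lam_pos _ ha
  constructor
  · unfold al g
    rw [Real.le_log_iff_exp_le hpos]
    have h1 : (2 : ℝ) ^ X.p ≤ 2 * X.a := by exact_mod_cast h.la
    have h2 : Real.exp ((X.p : ℝ) / 2) ≤ 2 ^ X.p := by
      have : (X.p : ℝ) / 2 = X.p * (1 / 2) := by ring
      rw [this, Real.exp_nat_mul]
      apply pow_le_pow_left₀ (Real.exp_pos _).le
      have h3 : Real.exp (1 / 2) ^ 2 ≤ 2 ^ 2 := by
        rw [← Real.exp_nat_mul]
        have : ((2 : ℕ) : ℝ) * (1 / 2) = 1 := by norm_num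
        rw [this]
        linarith [Real.exp_one_lt_d9]
      exact le_of_pow_le_pow_left₀ (by norm_num) (by norm_num) h3
    linarith
  · unfold al g
    rw [Real.log_le_iff_le_exp hpos]
    have h1 : 3 * (X.a : ℝ) ≤ 6 ^ X.p := by exact_mod_cast h.ua
    have h2 : (6 : ℝ) ^ X.p ≤ Real.exp (2 * X.p) := by
      have : (2 : ℝ) * X.p = X.p * 2 := by ring
      rw [this, Real.exp_nat_mul]
      apply pow_le_pow_left₀ (by norm_num)
      have : Real.exp 2 = Real.exp 1 ^ 2 := by rw [← Real.exp_nat_mul]; norm_num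
      rw [this]
      have h3 := Real.exp_one_gt_d9
      nlinarith
    linarith

lemma be_size {X : Nd} (h : Valid X) : (X.q : ℝ) / 2 ≤ be X ∧ be X ≤ 2 * X.q := by
  have ha := h.mt.hb
  have hl := lam_lower _ ha
  have hu := lam_upper _ ha
  have hpos := lam_pos _ ha
  constructor
  · unfold be g
    rw [Real.le_log_iff_exp_le hpos]
    have h1 : (2 : ℝ) ^ X.q ≤ 2 * X.b := by exact_mod_cast h.lb
    have h2 : Real.exp ((X.q : ℝ) / 2) ≤ 2 ^ X.q := by
      have : (X.q : ℝ) / 2 = X.q * (1 / 2) := by ring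
      rw [this, Real.exp_nat_mul]
      apply pow_le_pow_left₀ (Real.exp_pos _).le
      have h3 : Real.exp (1 / 2) ^ 2 ≤ 2 ^ 2 := by
        rw [← Real.exp_nat_mul]
        have : ((2 : ℕ) : ℝ) * (1 / 2) = 1 := by norm_num
        rw [this]
        linarith [Real.exp_one_lt_d9]
      exact le_of_pow_le_pow_left₀ (by norm_num) (by norm_num) h3
    linarith
  · unfold be g
    rw [Real.log_le_iff_le_exp hpos]
    have h1 : 3 * (X.b : ℝ) ≤ 6 ^ X.q := by exact_mod_cast h.ub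
    have h2 : (6 : ℝ) ^ X.q ≤ Real.exp (2 * X.q) := by
      have : (2 : ℝ) * X.q = X.q * 2 := by ring
      rw [this, Real.exp_nat_mul]
      apply pow_le_pow_left₀ (by norm_num)
      have : Real.exp 2 = Real.exp 1 ^ 2 := by rw [← Real.exp_nat_mul]; norm_num
      rw [this]
      have h3 := Real.exp_one_gt_d9
      nlinarith
    linarith

/-! ### corner relations -/

lemma kp_lf {X : Nd} (h : Valid X) : kp (lf X) = kp X + al X := by
  unfold kp al g Mk.lf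
  simp only
  push_cast
  rw [kap_shift h.mt.ha, Real.log_mul (kap_pos h.mt).ne' (lam_pos _ h.mt.ha).ne']

lemma km_rt {X : Nd} (h : Valid X) : km (rt X) = km X + be X := by
  unfold km be g Mk.rt
  simp only
  push_cast
  rw [kap_shift h.mt.hb, Real.log_mul (kap_pos h.mt.swap).ne' (lam_pos _ h.mt.hb).ne']

/-- the jump at the middle ray -/
def jp (X : Nd) : ℝ := Real.log (9 * (X.c : ℝ) ^ 2 / (9 * (X.c : ℝ) ^ 2 - 4))

lemma jump_rel {X : Nd} (h : Valid X) : km (lf X) + kp (rt X) = ga X + jp X := by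
  have hc := h.mt.c_one
  have h1 := kap_jump h.mt
  have hl : MT (X.c : ℝ) X.a (3 * X.a * X.c - X.b) := h.mt.left.swap
  have hr : MT (X.c : ℝ) X.b (3 * X.b * X.c - X.a) := h.mt.right
  unfold km kp ga jp g Mk.lf Mk.rt
  simp only
  push_cast
  rw [← Real.log_mul (kap_pos hl).ne' (kap_pos hr).ne', h1, Real.log_mul (lam_pos _ hc).ne']
  have : 0 < 9 * (X.c : ℝ) ^ 2 - 4 := by nlinarith
  positivity

lemma jp_lower {X : Nd} (h : Valid X) : 4 / 36 ^ (X.p + X.q) ≤ jp X := by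
  have hc := h.mt.c_one
  refine le_trans ?_ (jump_lower _ hc)
  have h1 : 3 * (X.c : ℝ) ≤ 6 ^ (X.p + X.q) := by exact_mod_cast (valid_lc h).2
  apply div_le_div_of_nonneg_left (by norm_num) (by positivity)
  have h2 : (3 * (X.c : ℝ)) ^ 2 ≤ (6 ^ (X.p + X.q)) ^ 2 := pow_le_pow_left₀ (by linarith) h1 2
  have h3 : ((6 : ℝ) ^ (X.p + X.q)) ^ 2 = 36 ^ (X.p + X.q) := by rw [← pow_mul, mul_comm, pow_mul]; norm_num
  rw [h3] at h2
  linarith

lemma jp_nonneg {X : Nd} (h : Valid X) : 0 ≤ jp X := le_trans (by positivity) (jp_lower h)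

/-! ### linear functionals -/

/-- coordinate of `z` along `u` : `det(z,v)` -/
def cu (X : Nd) (z : ℤ × ℤ) : ℤ := z.1 * X.vy - z.2 * X.vx
/-- coordinate of `z` along `v` : `det(u,z)` -/
def cv (X : Nd) (z : ℤ × ℤ) : ℤ := X.ux * z.2 - X.uy * z.1

def ell (X : Nd) (z : ℤ × ℤ) : ℝ := cu X z * al X + cv X z * be X
def ellp (X : Nd) (z : ℤ × ℤ) : ℝ := cu X z * al X + cv X z * kp X
def ellm (X : Nd) (z : ℤ × ℤ) : ℝ := cu X z * km X + cv X z * be X

/-- fourth quadrant -/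
def Q4 (z : ℤ × ℤ) : Prop := 0 ≤ z.1 ∧ z.2 ≤ 0

lemma cu_nonneg {X : Nd} (h : Valid X) {z : ℤ × ℤ} (hz : Q4 z) : 0 ≤ cu X z := by
  unfold cu
  have h1 := mul_nonneg hz.1 h.vy0
  have h2 := mul_nonneg (show 0 ≤ -z.2 by have := hz.2; omega) h.vx0
  linarith

lemma cv_nonpos {X : Nd} (h : Valid X) {z : ℤ × ℤ} (hz : Q4 z) : cv X z ≤ 0 := by
  unfold cv
  have h1 := mul_nonneg h.ux0 (show 0 ≤ -z.2 by have := hz.2; omega)
  have h2 := mul_nonneg h.uy0 hz.1
  linarith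

lemma cu_lf (X : Nd) (z : ℤ × ℤ) : cu (lf X) z = cu X z - cv X z := by
  unfold cu cv Mk.lf; simp only; ring
lemma cv_lf (X : Nd) (z : ℤ × ℤ) : cv (lf X) z = cv X z := rfl
lemma cu_rt (X : Nd) (z : ℤ × ℤ) : cu (rt X) z = cu X z := rfl
lemma cv_rt (X : Nd) (z : ℤ × ℤ) : cv (rt X) z = cv X z - cu X z := by
  unfold cu cv Mk.rt; simp only; ring

lemma ellp_lf {X : Nd} (h : Valid X) (z : ℤ × ℤ) : ellp (lf X) z = ellp X z := by
  unfold ellp
  rw [cu_lf, cv_lf, kp_lf h, al_lf]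
  push_cast; ring

lemma ellm_rt {X : Nd} (h : Valid X) (z : ℤ × ℤ) : ellm (rt X) z = ellm X z := by
  unfold ellm
  rw [cu_rt, cv_rt, km_rt h, be_rt]
  push_cast; ring

lemma ell_jump {X : Nd} (h : Valid X) (z : ℤ × ℤ) :
    ellm (lf X) z - ellp (rt X) z = (cu X z - cv X z) * jp X := by
  unfold ellm ellp
  rw [cu_lf, cv_lf, cu_rt, cv_rt, be_lf, al_rt]
  have h1 := jump_rel h
  have h2 : kp (rt X) = ga X + jp X - km (lf X) := by linarith
  rw [h2]
  push_cast; ring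

lemma ell_le_ellp {X : Nd} (h : Valid X) {z : ℤ × ℤ} (hz : Q4 z) : ell X z ≤ ellp X z := by
  unfold ell ellp
  have h1 : (cv X z : ℝ) ≤ 0 := by exact_mod_cast cv_nonpos h hz
  have h2 := kp_le h
  nlinarith

lemma ellm_le_ell {X : Nd} (h : Valid X) {z : ℤ × ℤ} (hz : Q4 z) : ellm X z ≤ ell X z := by
  unfold ell ellm
  have h1 : (0 : ℝ) ≤ cu X z := by exact_mod_cast cu_nonneg h hz
  have h2 := km_le h
  nlinarith

lemma ellp_rt_le_ellm_lf {X : Nd} (h : Valid X) {z : ℤ × ℤ} (hz : Q4 z) :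
    ellp (rt X) z ≤ ellm (lf X) z := by
  have h1 := ell_jump h z
  have h2 : (0 : ℝ) ≤ (cu X z : ℝ) - cv X z := by
    have h3 := cu_nonneg h hz
    have h4 := cv_nonpos h hz
    have : (0 : ℤ) ≤ cu X z - cv X z := by omega
    exact_mod_cast this
  have h3 := mul_nonneg h2 (jp_nonneg h)
  linarith

/-- the sandwich lemma -/
theorem sandwich {X : Nd} (h : Valid X) {z : ℤ × ℤ} (hz : Q4 z) (l : List Bool) :
    ellm X z ≤ ell (desc X l) z ∧ ell (desc X l) z ≤ ellp X z := by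
  induction l generalizing X with
  | nil => exact ⟨ellm_le_ell h hz, ell_le_ellp h hz⟩
  | cons b l ih =>
    have hj := ellp_rt_le_ellm_lf h hz
    cases b
    · -- right
      have h1 := ih h.rt
      rw [ellm_rt h] at h1
      refine ⟨h1.1, h1.2.trans ?_⟩
      have h2 := ellm_le_ell h.lf hz
      have h3 := ell_le_ellp h.lf hz
      rw [ellp_lf h] at h3
      linarith
    · have h1 := ih h.lf
      rw [ellp_lf h] at h1
      refine ⟨le_trans ?_ h1.1, h1.2⟩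
      have h2 := ellm_le_ell h.rt hz
      have h3 := ell_le_ellp h.rt hz
      rw [ellm_rt h] at h2
      linarith

/-- length of a vector of the fourth quadrant -/
def len (z : ℤ × ℤ) : ℤ := z.1 - z.2

lemma cu_le {X : Nd} (h : Valid X) {z : ℤ × ℤ} (hz : Q4 z) : cu X z ≤ len z * X.q := by
  unfold cu len
  rw [h.hq]
  have h1 := mul_nonneg hz.1 h.vx0
  have h2 := mul_nonneg (show 0 ≤ -z.2 by have := hz.2; omega) h.vy0
  nlinarith

lemma cv_ge {X : Nd} (h : Valid X) {z : ℤ × ℤ} (hz : Q4 z) : -(len z * X.p) ≤ cv X z := by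
  unfold cv len
  rw [h.hp]
  have h1 := mul_nonneg hz.1 h.ux0
  have h2 := mul_nonneg (show 0 ≤ -z.2 by have := hz.2; omega) h.uy0
  nlinarith

/-- width of the sandwich -/
lemma width {X : Nd} (h : Valid X) {z : ℤ × ℤ} (hz : Q4 z) :
    ellp X z - ellm X z ≤ (X.p + X.q) * len z * dl X := by
  have h1 : (0 : ℝ) ≤ cu X z := by exact_mod_cast cu_nonneg h hz
  have h2 : (cv X z : ℝ) ≤ 0 := by exact_mod_cast cv_nonpos h hz
  have h3 : (cu X z : ℝ) ≤ len z * X.q := by exact_mod_cast cu_le h hz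
  have h4 : -((len z : ℝ) * X.p) ≤ cv X z := by exact_mod_cast cv_ge h hz
  have h5 := kp_ge h
  have h6 := km_ge h
  have h7 := dl_pos h
  unfold ellp ellm
  have e : cu X z * al X + cv X z * kp X - (cu X z * km X + cv X z * be X) =
      cu X z * (al X - km X) + (-(cv X z : ℝ)) * (be X - kp X) := by ring
  rw [e]
  have h8 : (cu X z : ℝ) * (al X - km X) ≤ (len z * X.q) * dl X := by
    calc (cu X z : ℝ) * (al X - km X) ≤ cu X z * dl X := mul_le_mul_of_nonneg_left h6 h1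
      _ ≤ (len z * X.q) * dl X := mul_le_mul_of_nonneg_right h3 h7.le
  have h9 : (-(cv X z : ℝ)) * (be X - kp X) ≤ (len z * X.p) * dl X := by
    calc (-(cv X z : ℝ)) * (be X - kp X) ≤ (-(cv X z : ℝ)) * dl X := mul_le_mul_of_nonneg_left h5 (by linarith)
      _ ≤ (len z * X.p) * dl X := mul_le_mul_of_nonneg_right (by linarith) h7.le
  calc _ ≤ (len z * X.q) * dl X + (len z * X.p) * dl X := add_le_add h8 h9
    _ = _ := by ring

/-! ### Liouville bounds on the corners -/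

/-- Property: the corner functionals are not too small on nonzero vectors of `Q4`. -/
def Liou (X : Nd) : Prop :=
  (∀ z : ℤ × ℤ, Q4 z → 1 ≤ len z → Real.exp (-(24 * len z * (X.p : ℝ) ^ 2)) ≤ |ellp X z|) ∧
  (∀ z : ℤ × ℤ, Q4 z → 1 ≤ len z → Real.exp (-(24 * len z * (X.q : ℝ) ^ 2)) ≤ |ellm X z|)

lemma cucv_ne {X : Nd} (h : Valid X) {z : ℤ × ℤ} (hz : 1 ≤ len z) : cu X z ≠ 0 ∨ cv X z ≠ 0 := by
  by_contra hcon
  push Not at hcon
  obtain ⟨h1, h2⟩ := hcon
  have hdet := h.det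
  have e1 : z.1 = cu X z * X.ux + cv X z * X.vx := by
    unfold cu cv
    linear_combination (-z.1) * hdet
  have e2 : z.2 = cu X z * X.uy + cv X z * X.vy := by
    unfold cu cv
    linear_combination (-z.2) * hdet
  rw [h1, h2] at e1 e2
  unfold len at hz
  omega

lemma liou_p {X : Nd} (h : Valid X) (hqp : X.q ≤ X.p) (z : ℤ × ℤ) (hz : Q4 z) (hl : 1 ≤ len z) :
    Real.exp (-(24 * len z * (X.p : ℝ) ^ 2)) ≤ |ellp X z| := by
  have h1 := liouville X.a X.b X.c h.mt X.p h.p1 h.ua (cu X z) (cv X z) (cucv_ne h hl)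
  refine le_trans ?_ h1
  apply Real.exp_le_exp.mpr
  have h2 : (cu X z : ℝ) ≤ len z * X.q := by exact_mod_cast cu_le h hz
  have h3 : -((len z : ℝ) * X.p) ≤ cv X z := by exact_mod_cast cv_ge h hz
  have h4 : (0 : ℝ) ≤ cu X z := by exact_mod_cast cu_nonneg h hz
  have h5 : (cv X z : ℝ) ≤ 0 := by exact_mod_cast cv_nonpos h hz
  rw [abs_of_nonneg h4, abs_of_nonpos h5]
  have h6 : (X.q : ℝ) ≤ X.p := by exact_mod_cast hqp
  have h7 : (1 : ℝ) ≤ len z := by exact_mod_cast hl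
  have h8 : (cu X z : ℝ) + -(cv X z) ≤ 2 * (len z * X.p) := by nlinarith
  have hp0 : (0 : ℝ) ≤ X.p := by positivity
  nlinarith [mul_le_mul_of_nonneg_left h8 hp0]

lemma liou_q {X : Nd} (h : Valid X) (hqp : X.p ≤ X.q) (z : ℤ × ℤ) (hz : Q4 z) (hl : 1 ≤ len z) :
    Real.exp (-(24 * len z * (X.q : ℝ) ^ 2)) ≤ |ellm X z| := by
  have h1 := liouville X.b X.a X.c h.mt.swap X.q h.q1 h.ub (cv X z) (cu X z) (cucv_ne h hl).symm
  have e : |(cv X z : ℝ) * g X.b + cu X z * Real.log (kap X.b X.a X.c)| = |ellm X z| := by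
    unfold ellm be km; congr 1; ring
  rw [e] at h1
  refine le_trans ?_ h1
  apply Real.exp_le_exp.mpr
  have h2 : (cu X z : ℝ) ≤ len z * X.q := by exact_mod_cast cu_le h hz
  have h3 : -((len z : ℝ) * X.p) ≤ cv X z := by exact_mod_cast cv_ge h hz
  have h4 : (0 : ℝ) ≤ cu X z := by exact_mod_cast cu_nonneg h hz
  have h5 : (cv X z : ℝ) ≤ 0 := by exact_mod_cast cv_nonpos h hz
  rw [abs_of_nonneg h4, abs_of_nonpos h5]
  have h6 : (X.p : ℝ) ≤ X.q := by exact_mod_cast hqp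
  have h7 : (1 : ℝ) ≤ len z := by exact_mod_cast hl
  have h8 : -(cv X z : ℝ) + cu X z ≤ 2 * (len z * X.q) := by nlinarith
  have hp0 : (0 : ℝ) ≤ X.q := by positivity
  nlinarith [mul_le_mul_of_nonneg_left h8 hp0]

lemma liou_root : Liou root := by
  refine ⟨fun z hz hl => liou_p valid_root (by simp [root]) z hz hl, fun z hz hl => liou_q valid_root (by simp [root]) z hz hl⟩

lemma Liou.lf {X : Nd} (h : Valid X) (hL : Liou X) : Liou (lf X) := by
  refine ⟨?_, ?_⟩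
  · intro z hz hl
    rw [ellp_lf h]
    exact hL.1 z hz hl
  · intro z hz hl
    apply liou_q h.lf _ z hz hl
    simp [Mk.lf]

lemma Liou.rt {X : Nd} (h : Valid X) (hL : Liou X) : Liou (rt X) := by
  refine ⟨?_, ?_⟩
  · intro z hz hl
    apply liou_p h.rt _ z hz hl
    simp [Mk.rt]
  · intro z hz hl
    rw [ellm_rt h]
    exact hL.2 z hz hl

end

end Pool.Agent.Helper862.Mk
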