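import Mathlib
import Pool.Agent.Helper862.Count

set_option autoImplicit false

namespace Pool.Agent.Helper862.Mk

open Pool.Agent.Helper862.Tri

noncomputable section

/-- Dirichlet approximation of `be / al`. -/
lemma exists_rat (Q : ℕ) (hQ : 0 < Q) (X : Nd) :
    ∃ r : ℚ, |be X / al X - r| ≤ 1 / ((Q + 1 : ℝ) * r.den) ∧ r.den ≤ Q :=
  Real.exists_rat_abs_sub_le_and_den_le (be X / al X) hQ

def rr (Q : ℕ) (X : Nd) : ℚ := if h : 0 < Q then (exists_rat Q h X).choose else 0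

lemma rr_spec (Q : ℕ) (hQ : 0 < Q) (X : Nd) :
    |be X / al X - (rr Q X : ℝ)| ≤ 1 / ((Q + 1 : ℝ) * (rr Q X).den) ∧ (rr Q X).den ≤ Q := by
  unfold rr
  rw [dif_pos hQ]
  exact (exists_rat Q hQ X).choose_spec

/-- the attached lattice vector -/
def ww (Q : ℕ) (X : Nd) : ℤ × ℤ :=
  ((rr Q X).num * X.ux - (rr Q X).den * X.vx, (rr Q X).num * X.uy - (rr Q X).den * X.vy)

lemma cu_ww (Q : ℕ) {X : Nd} (h : Valid X) : cu X (ww Q X) = (rr Q X).num := by
  unfold cu ww
  simp only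
  linear_combination (rr Q X).num * h.det

lemma cv_ww (Q : ℕ) {X : Nd} (h : Valid X) : cv X (ww Q X) = -((rr Q X).den : ℤ) := by
  unfold cv ww
  simp only
  linear_combination (-((rr Q X).den : ℤ)) * h.det

lemma ell_ww (Q : ℕ) (hQ : 0 < Q) {X : Nd} (h : Valid X) :
    |ell X (ww Q X)| ≤ al X / (Q + 1) := by
  obtain ⟨h1, h2⟩ := rr_spec Q hQ X
  have hal := al_lower h
  have hal0 : 0 < al X := by linarith
  have hden : (0 : ℝ) < (rr Q X).den := by exact_mod_cast (rr Q X).den_pos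
  unfold ell
  rw [cu_ww Q h, cv_ww Q h]
  have e : (((rr Q X).num : ℤ) : ℝ) * al X + ((-((rr Q X).den : ℤ) : ℤ) : ℝ) * be X =
      -(al X * (rr Q X).den * (be X / al X - (rr Q X : ℝ))) := by
    have h3 : ((rr Q X : ℚ) : ℝ) = ((rr Q X).num : ℝ) / (rr Q X).den := Rat.cast_def _
    rw [h3]
    push_cast
    field_simp
    ring
  rw [e, abs_neg, abs_mul, abs_of_pos (by positivity : 0 < al X * (rr Q X).den)]
  calc al X * (rr Q X).den * |be X / al X - (rr Q X : ℝ)| ≤ al X * (rr Q X).den * (1 / ((Q + 1 : ℝ) * (rr Q X).den)) :=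
        mul_le_mul_of_nonneg_left h1 (by positivity)
    _ = al X / (Q + 1) := by field_simp

lemma cop_ww (Q : ℕ) {X : Nd} (h : Valid X) : IsCoprime (ww Q X).1 (ww Q X).2 := by
  have h1 : IsCoprime (rr Q X).num ((rr Q X).den : ℤ) := by
    rw [Int.isCoprime_iff_gcd_eq_one]
    have := (rr Q X).reduced
    unfold Nat.Coprime at this
    unfold Int.gcd
    simpa using this
  obtain ⟨s, t, hst⟩ := h1
  have e1 := cu_ww Q h
  have e2 := cv_ww Q h
  unfold cu at e1
  unfold cv at e2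
  refine ⟨s * X.vy + t * X.uy, -(s * X.vx) - t * X.ux, ?_⟩
  linear_combination hst + s * e1 - t * e2

/-- coordinates of `ww` -/
lemma ww_coord (Q : ℕ) (X : Nd) :
    al X * (ww Q X).1 = (rr Q X).den * ell X (0, 1) + ell X (ww Q X) * X.ux * 1 + (0 : ℝ) * 0 +
      (al X * (ww Q X).1 - (rr Q X).den * ell X (0, 1) - ell X (ww Q X) * X.ux) := by ring

lemma ww1 (Q : ℕ) {X : Nd} (h : Valid X) :
    al X * ((ww Q X).1 : ℝ) = (rr Q X).den * ell X (0, 1) + ell X (ww Q X) * X.ux := by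
  have e1 : ell X (ww Q X) = (rr Q X).num * al X - (rr Q X).den * be X := by
    unfold ell; rw [cu_ww Q h, cv_ww Q h]; push_cast; ring
  rw [e1]
  unfold ell cu cv ww
  push_cast
  ring

lemma ww2 (Q : ℕ) {X : Nd} (h : Valid X) :
    al X * ((ww Q X).2 : ℝ) = -((rr Q X).den * ell X (1, 0)) + ell X (ww Q X) * X.uy := by
  have e1 : ell X (ww Q X) = (rr Q X).num * al X - (rr Q X).den * be X := by
    unfold ell; rw [cu_ww Q h, cv_ww Q h]; push_cast; ring
  rw [e1]
  unfold ell cu cv ww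
  push_cast
  ring

lemma ux_le {M : ℕ} {X : Nd} (h : IsLeaf M X) : (X.ux : ℝ) ≤ M ∧ (X.uy : ℝ) ≤ M ∧ (0 : ℝ) ≤ X.ux ∧ (0 : ℝ) ≤ X.uy := by
  have h1 := h.v.hp
  have h2 := h.v.ux0
  have h3 := h.v.uy0
  have h4 := h.p
  have h5 : X.ux ≤ (M : ℤ) := by omega
  have h6 : X.uy ≤ (M : ℤ) := by omega
  exact ⟨by exact_mod_cast h5, by exact_mod_cast h6, by exact_mod_cast h2, by exact_mod_cast h3⟩

/-- everything about `ww` at a leaf -/
lemma ww_leaf (M Q : ℕ) (hQ : 0 < Q) (hMQ : 8 * (M : ℝ) ^ 2 ≤ Q) (l : List Bool) (hl : IsLeaf M (desc root l)) :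
    0 < (ww Q (desc root l)).1 ∧ (ww Q (desc root l)).2 < 0 ∧
    |ell (desc root l) (ww Q (desc root l))| ≤ 2 * M / (Q + 1) ∧
    1 / ((rr Q (desc root l)).den : ℝ) ≤ 5 / (al (desc root l) * len (ww Q (desc root l))) := by
  have hA := ell_e1_lower l
  have hA2 := ell_e1_upper l
  have hB := ell_e2_lower l
  have hB2 := ell_e2_upper l
  set X := desc root l with hX
  have hXv := hl.v
  have hal := al_lower hXv
  have hal0 : 0 < al X := by linarith
  have hals := (al_size hXv).2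
  have hpM : (X.p : ℝ) ≤ M := by exact_mod_cast hl.p
  have hQ0 : (0 : ℝ) < Q := by exact_mod_cast hQ
  obtain ⟨hux, huy, hux0, huy0⟩ := ux_le hl
  have he1 := ell_ww Q hQ hXv
  have he2 : |ell X (ww Q X)| ≤ 2 * M / (Q + 1) := by
    refine he1.trans ?_
    apply div_le_div_of_nonneg_right _ (by positivity)
    linarith
  have hM0 : (0 : ℝ) ≤ M := by positivity
  have he3 : |ell X (ww Q X)| * M ≤ 1 / 4 := by
    calc |ell X (ww Q X)| * M ≤ 2 * M / (Q + 1) * M := mul_le_mul_of_nonneg_right he2 hM0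
      _ = 2 * (M : ℝ) ^ 2 / (Q + 1) := by ring
      _ ≤ 1 / 4 := by
          rw [div_le_div_iff₀ (by positivity) (by norm_num)]
          linarith
  have hden1 : (1 : ℝ) ≤ (rr Q X).den := by exact_mod_cast (rr Q X).den_pos
  have hw1 := ww1 Q hXv
  have hw2 := ww2 Q hXv
  have ha1 : |ell X (ww Q X) * X.ux| ≤ 1 / 4 := by
    rw [abs_mul, abs_of_nonneg hux0]
    exact (mul_le_mul_of_nonneg_left hux (abs_nonneg _)).trans he3
  have ha2 : |ell X (ww Q X) * X.uy| ≤ 1 / 4 := by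
    rw [abs_mul, abs_of_nonneg huy0]
    exact (mul_le_mul_of_nonneg_left huy (abs_nonneg _)).trans he3
  have hb1 := abs_le.mp ha1
  have hb2 := abs_le.mp ha2
  have hpos1 : 0 < al X * ((ww Q X).1 : ℝ) := by
    rw [hw1]; nlinarith [hb1.1]
  have hneg2 : al X * ((ww Q X).2 : ℝ) < 0 := by
    rw [hw2]; nlinarith [hb2.2]
  have hP1 : (0 : ℝ) < (ww Q X).1 := (pos_iff_pos_of_mul_pos hpos1).mp hal0
  have hN2 : ((ww Q X).2 : ℝ) < 0 := by
    by_contra hcon
    push Not at hcon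
    have := mul_nonneg hal0.le hcon
    linarith
  refine ⟨by exact_mod_cast hP1, by exact_mod_cast hN2, he2, ?_⟩
  have hlen : al X * (len (ww Q X) : ℝ) ≤ 5 * (rr Q X).den := by
    unfold len
    push_cast
    have : al X * (((ww Q X).1 : ℝ) - (ww Q X).2) = al X * ((ww Q X).1 : ℝ) - al X * ((ww Q X).2 : ℝ) := by ring
    rw [this, hw1, hw2]
    nlinarith [hb1.2, hb2.1]
  have hlen0 : 0 < al X * (len (ww Q X) : ℝ) := by
    unfold len
    push_cast
    apply mul_pos hal0; linarith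
  rw [div_le_div_iff₀ (by linarith) hlen0]
  linarith

lemma wdata (M Q : ℕ) (hQ : 0 < Q) (hMQ : 8 * (M : ℝ) ^ 2 ≤ Q) : WData M (ww Q) (2 * M / (Q + 1)) := by
  refine ⟨?_, ?_, ?_⟩
  · intro l hl
    have := ww_leaf M Q hQ hMQ l hl
    exact ⟨this.1, this.2.1⟩
  · intro l hl
    exact cop_ww Q hl.v
  · intro l hl
    exact (ww_leaf M Q hQ hMQ l hl).2.2.1

/-- error at a leaf -/
lemma leaf_error (M Q : ℕ) (hQ : 0 < Q) (hMQ : 8 * (M : ℝ) ^ 2 ≤ Q) (t : ℝ) (ht : 0 ≤ t)
    (l : List Bool) (hl : IsLeaf M (desc root l)) (hd : dl (desc root l) ≤ 1 / 4) :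
    er t (desc root l) ≤ 120 * t * (meas (desc root l) / len (ww Q (desc root l))) +
      (3 * M + 1 + Q + 128 * t ^ 2 / 4 ^ M) * 1 := by
  obtain ⟨hw1, hw2, hw3, hw4⟩ := ww_leaf M Q hQ hMQ l hl
  set X := desc root l with hX
  have hXv := hl.v
  have hal := al_lower hXv
  have hbe := be_lower hXv
  have hal0 : 0 < al X := by linarith
  have hbe0 : 0 < be X := by linarith
  have hbs := (be_size hXv).2
  have hqM : (X.q : ℝ) ≤ M := by exact_mod_cast hl.q
  obtain ⟨hr1, hr2⟩ := rr_spec Q hQ X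
  set r := rr Q X with hr
  have hdenpos : 0 < r.den := r.den_pos
  have hden0 : (0 : ℝ) < r.den := by exact_mod_cast hdenpos
  have hdenQ : (r.den : ℝ) ≤ Q := by exact_mod_cast hr2
  have hcop : IsCoprime r.num (r.den : ℤ) := by
    rw [Int.isCoprime_iff_gcd_eq_one]
    have := r.reduced
    unfold Nat.Coprime at this
    unfold Int.gcd
    simpa using this
  have happ : |be X / al X - r.num / r.den| ≤ 1 / (r.den : ℝ) ^ 2 := by
    have h3 : ((r : ℚ) : ℝ) = (r.num : ℝ) / r.den := Rat.cast_def _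
    rw [← h3]
    refine hr1.trans ?_
    apply one_div_le_one_div_of_le (by positivity)
    rw [sq]
    exact mul_le_mul_of_nonneg_right (by linarith) hden0.le
  have hdl0 := dl_pos hXv
  have ht' : 0 ≤ t * (1 + 2 * dl X) := by positivity
  have E1 := tri_estimate (al X) (be X) t hal0 hbe0 ht r.num r.den hdenpos hcop happ
  have E2 := tri_estimate (al X) (be X) (t * (1 + 2 * dl X)) hal0 hbe0 ht' r.num r.den hdenpos hcop happ
  have c1 : (tri (al X) (be X) t : ℝ) ≤ cnt X t := by exact_mod_cast tri_le_cnt hXv hd t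
  have c2 : (cnt X t : ℝ) ≤ tri (al X) (be X) (t * (1 + 2 * dl X)) := by exact_mod_cast cnt_le_tri hXv hd t
  have hba : be X / al X ≤ 3 * M := by
    rw [div_le_iff₀ hal0]
    have hM0 : (0 : ℝ) ≤ M := by positivity
    have h1 : 3 * (M : ℝ) * (3 / 4) ≤ 3 * M * al X := mul_le_mul_of_nonneg_left hal (by positivity)
    linarith
  set T' := t * (1 + 2 * dl X) with hT'
  have hT'2 : T' ≤ 2 * t := by
    rw [hT', mul_comm]
    exact mul_le_mul_of_nonneg_right (by linarith) ht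
  have hTT' : t ≤ T' := by
    rw [hT']
    exact le_mul_of_one_le_right ht (by linarith)
  -- main oscillation term
  have hosc : 3 * (T' / (be X * r.den)) ≤ 120 * t * (meas X / len (ww Q X)) := by
    have hlen0 : (0 : ℝ) < len (ww Q X) := by
      have : (0 : ℤ) < len (ww Q X) := by unfold len; omega
      exact_mod_cast this
    have h1 : T' / (be X * r.den) = T' * (1 / be X) * (1 / r.den) := by field_simp
    have h2 : T' * (1 / be X) * (1 / (r.den : ℝ)) ≤ (2 * t) * (1 / be X) * (5 / (al X * len (ww Q X))) := by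
      apply mul_le_mul _ hw4 (by positivity) (by positivity)
      exact mul_le_mul_of_nonneg_right hT'2 (by positivity)
    have h3 : (2 * t) * (1 / be X) * (5 / (al X * len (ww Q X))) = 10 * t * (1 / (al X * be X)) / len (ww Q X) := by
      field_simp; ring
    have hp0 : (0 : ℝ) < X.p := by exact_mod_cast hXv.p1
    have hq0 : (0 : ℝ) < X.q := by exact_mod_cast hXv.q1
    have h4 : 1 / (al X * be X) ≤ 4 * meas X := by
      unfold meas
      have ha := (al_size hXv).1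
      have hb := (be_size hXv).1
      have h5 : (X.p : ℝ) / 2 * (X.q / 2) ≤ al X * be X := mul_le_mul ha hb (by positivity) hal0.le
      calc 1 / (al X * be X) ≤ 1 / ((X.p : ℝ) / 2 * (X.q / 2)) := one_div_le_one_div_of_le (by positivity) h5
        _ = 4 * (1 / ((X.p : ℝ) * X.q)) := by field_simp; norm_num
    rw [h1]
    calc 3 * (T' * (1 / be X) * (1 / (r.den : ℝ))) ≤ 3 * (10 * t * (1 / (al X * be X)) / len (ww Q X)) := by
          rw [← h3]; linarith
      _ ≤ 3 * (10 * t * (4 * meas X) / len (ww Q X)) := by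
          apply mul_le_mul_of_nonneg_left _ (by norm_num)
          apply div_le_div_of_nonneg_right _ hlen0.le
          exact mul_le_mul_of_nonneg_left h4 (by positivity)
      _ = 120 * t * (meas X / len (ww Q X)) := by ring
  have hosc0 : 3 * (t / (be X * r.den)) ≤ 3 * (T' / (be X * r.den)) := by
    apply mul_le_mul_of_nonneg_left _ (by norm_num)
    exact div_le_div_of_nonneg_right hTT' (by positivity)
  -- area difference
  have hhf : hf X ≤ 1 := by
    unfold hf
    rw [div_le_one (by positivity)]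
    have h1 : (3 / 4 : ℝ) * (3 / 4) ≤ al X * be X := mul_le_mul hal hbe (by norm_num) hal0.le
    linarith
  have hhf0 : 0 ≤ hf X := by unfold hf; positivity
  have harea : (T' ^ 2 - t ^ 2) * hf X ≤ 128 * t ^ 2 / 4 ^ M := by
    have h1 : T' ^ 2 - t ^ 2 = t ^ 2 * (4 * dl X + 4 * dl X ^ 2) := by rw [hT']; ring
    have h2 : T' ^ 2 - t ^ 2 ≤ 8 * t ^ 2 * dl X := by
      rw [h1]
      have h2a : dl X ^ 2 ≤ dl X := by
        rw [sq]; exact mul_le_of_le_one_left hdl0.le (by linarith)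
      calc t ^ 2 * (4 * dl X + 4 * dl X ^ 2) ≤ t ^ 2 * (8 * dl X) :=
            mul_le_mul_of_nonneg_left (by linarith) (sq_nonneg t)
        _ = 8 * t ^ 2 * dl X := by ring
    have h3 : 0 ≤ T' ^ 2 - t ^ 2 := by rw [h1]; positivity
    have h4 : dl X ≤ 16 / 4 ^ M := by
      refine (dl_size hXv).trans ?_
      apply div_le_div_of_nonneg_left (by norm_num) (by positivity)
      exact pow_le_pow_right₀ (by norm_num) hl.s
    calc (T' ^ 2 - t ^ 2) * hf X ≤ (T' ^ 2 - t ^ 2) * 1 := mul_le_mul_of_nonneg_left hhf h3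
      _ ≤ 8 * t ^ 2 * dl X := by linarith
      _ ≤ 8 * t ^ 2 * (16 / 4 ^ M) := mul_le_mul_of_nonneg_left h4 (by positivity)
      _ = 128 * t ^ 2 / 4 ^ M := by ring
  have harea0 : 0 ≤ 128 * t ^ 2 / 4 ^ M := by positivity
  have hhf' : t ^ 2 * hf X = t ^ 2 / (2 * al X * be X) := by unfold hf; ring
  have hhf'' : T' ^ 2 * hf X = T' ^ 2 / (2 * al X * be X) := by unfold hf; ring
  have hS0 : 0 ≤ 1 / al X + 1 / be X := by positivity
  have hSS : t / 2 * (1 / al X + 1 / be X) ≤ T' / 2 * (1 / al X + 1 / be X) := by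
    apply mul_le_mul_of_nonneg_right _ hS0
    linarith
  unfold er
  rw [← hhf'] at E1
  rw [← hhf''] at E2
  rw [abs_le] at E1 E2 ⊢
  constructor
  · linarith [E1.1]
  · have : (T' ^ 2 - t ^ 2) * hf X = T' ^ 2 * hf X - t ^ 2 * hf X := by ring
    linarith [E2.2]

lemma dl_desc (l : List Bool) : dl (desc root l) ≤ 1 / 4 := by
  have key : ∀ (l : List Bool) (X : Nd), Valid X → dl X ≤ 1 / 4 → dl (desc X l) ≤ 1 / 4 := by
    intro l
    induction l with
    | nil => intro X _ h; exact h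
    | cons b l ih =>
      intro X hX h
      have hpos := dl_pos hX
      cases b
      · apply ih _ hX.rt
        have := dl_rt hX; linarith
      · apply ih _ hX.lf
        have := dl_lf hX; linarith
  apply key l root valid_root
  unfold dl root; norm_num

/-- total error bound for given parameters -/
lemma total_error (A : ℝ) (hA : ∀ M : ℕ, 1 ≤ M → |A - LS M hf M root| ≤ 64 * (M : ℝ) ^ 2 / 4 ^ M)
    (M V Q : ℕ) (hQ : 0 < Q) (hMQ : 8 * (M : ℝ) ^ 2 ≤ Q) (hP : Params M V (2 * M / (Q + 1))) (t : ℝ) (ht : 0 ≤ t) :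
    |(cnt root t : ℝ) + t / 2 * (1 / al root + 1 / be root) - A * t ^ 2| ≤
      120 * t * (2800 * (V : ℝ) ^ 2 / (M * Real.sqrt M) + 1 / (M : ℝ) ^ 2) +
      (3 * M + 1 + Q + 128 * t ^ 2 / 4 ^ M) * (M : ℝ) ^ 2 + (M : ℝ) ^ 2 + t ^ 2 * (64 * (M : ℝ) ^ 2 / 4 ^ M) := by
  have hI := inn_root M hP.M1
  have hdroot : dl root ≤ 1 / 4 := dl_desc []
  have h1 := main_rec M t ht M root valid_root hdroot
  have h2 := LS_le_desc M (er t) (fun X => 120 * t * (meas X / len (ww Q X)) + (3 * M + 1 + Q + 128 * t ^ 2 / 4 ^ M) * 1) M root hI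
    (fun l hl => leaf_error M Q hQ hMQ t ht l hl (dl_desc l))
  rw [LS_add M (fun X => 120 * t * (meas X / len (ww Q X))) (fun X => (3 * M + 1 + Q + 128 * t ^ 2 / 4 ^ M) * 1),
    LS_smul M (120 * t) (fun X => meas X / len (ww Q X)),
    LS_smul M (3 * M + 1 + Q + 128 * t ^ 2 / 4 ^ M) (fun _ => 1)] at h2
  have h3 := propK (wdata M Q hQ hMQ) hP
  have h4 := LS_one_le M M root hI
  have h5 : meas root = 1 := by unfold meas root; norm_num
  rw [h5, mul_one] at h4
  have h6 := hA M hP.M1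
  have h7 : 120 * t * LS M (fun X => meas X / len (ww Q X)) M root ≤ 120 * t * (2800 * (V : ℝ) ^ 2 / (M * Real.sqrt M) + 1 / (M : ℝ) ^ 2) :=
    mul_le_mul_of_nonneg_left h3 (by positivity)
  have h8 : (3 * M + 1 + Q + 128 * t ^ 2 / 4 ^ M) * LS M (fun _ => 1) M root ≤ (3 * M + 1 + Q + 128 * t ^ 2 / 4 ^ M) * (M : ℝ) ^ 2 :=
    mul_le_mul_of_nonneg_left h4 (by positivity)
  have h9 : |t ^ 2 * (LS M hf M root - A)| ≤ t ^ 2 * (64 * (M : ℝ) ^ 2 / 4 ^ M) := by
    rw [abs_mul, abs_of_nonneg (by positivity : 0 ≤ t ^ 2), abs_sub_comm]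
    exact mul_le_mul_of_nonneg_left h6 (by positivity)
  have e : (cnt root t : ℝ) + t / 2 * (1 / al root + 1 / be root) - A * t ^ 2 =
      ((cnt root t : ℝ) + t / 2 * (1 / al root + 1 / be root) - t ^ 2 * LS M hf M root) + t ^ 2 * (LS M hf M root - A) := by ring
  rw [e]
  refine (abs_add_le _ _).trans ?_
  linarith

end

end Pool.Agent.Helper862.Mk
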