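import Mathlib
import Pool.Agent.Helper862.Axer

set_option autoImplicit false

namespace Pool.Agent.Helper862.Axer

noncomputable section

/-- auxiliary increasing function -/
def phi (T x : ℝ) : ℝ := (Real.log (T / x)) ^ (-(1 / 4) : ℝ)

lemma phi_step (T d : ℝ) (hd : 1 ≤ d) (hT : 2 * (d + 1) ≤ T) :
    (1 / d) * (Real.log (T / d)) ^ (-(5 / 4) : ℝ) ≤ 8 * (phi T (d + 1) - phi T d) := by
  have hTpos : 0 < T := by linarith
  have hlog : ∀ x, d ≤ x → x ≤ d + 1 → 0 < Real.log (T / x) := by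
    intro x hx1 hx2
    apply Real.log_pos
    rw [lt_div_iff₀ (by linarith)]
    linarith
  have hderiv : ∀ x ∈ Set.Icc d (d + 1), HasDerivAt (phi T)
      ((1 / 4) * (1 / x) * (Real.log (T / x)) ^ (-(5 / 4) : ℝ)) x := by
    intro x hx
    have hx0 : 0 < x := by linarith [hx.1]
    have hl := hlog x hx.1 hx.2
    have h1 : HasDerivAt (fun x : ℝ => T / x) (-(T / x ^ 2)) x := by
      have := (hasDerivAt_inv hx0.ne').const_mul T
      convert! this using 1
      field_simp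
    have h2 : HasDerivAt (fun x : ℝ => Real.log (T / x)) (-(T / x ^ 2) / (T / x)) x :=
      h1.log (by positivity)
    have h3 := h2.rpow_const (p := (-(1 / 4) : ℝ)) (Or.inl hl.ne')
    unfold phi
    convert! h3 using 1
    have e : (-(1 / 4) : ℝ) - 1 = -(5 / 4) := by norm_num
    rw [e]
    field_simp
  have hcont : ContinuousOn (phi T) (Set.Icc d (d + 1)) := fun x hx => (hderiv x hx).continuousAt.continuousWithinAt
  obtain ⟨ξ, hξ, hξ2⟩ := exists_hasDerivAt_eq_slope (phi T)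
    (fun x => (1 / 4) * (1 / x) * (Real.log (T / x)) ^ (-(5 / 4) : ℝ)) (by linarith : d < d + 1) hcont
    (fun x hx => hderiv x ⟨hx.1.le, hx.2.le⟩)
  rw [show d + 1 - d = 1 by ring, div_one] at hξ2
  rw [← hξ2]
  have hξ0 : 0 < ξ := by linarith [hξ.1]
  have hl1 := hlog ξ hξ.1.le hξ.2.le
  have h1 : (Real.log (T / d)) ^ (-(5 / 4) : ℝ) ≤ (Real.log (T / ξ)) ^ (-(5 / 4) : ℝ) := by
    apply Real.rpow_le_rpow_of_nonpos hl1 _ (by norm_num)
    apply Real.log_le_log (by positivity)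
    apply div_le_div_of_nonneg_left hTpos.le (by linarith) hξ.1.le
  have h2 : 1 / d ≤ 2 * (1 / ξ) := by
    have hd0 : 0 < d := by linarith
    rw [div_le_iff₀ hd0]
    have : 1 ≤ 2 * d / ξ := by
      rw [le_div_iff₀ hξ0]; linarith [hξ.2]
    calc (1 : ℝ) ≤ 2 * d / ξ := this
      _ = _ := by field_simp
  have h3 : 0 ≤ (Real.log (T / ξ)) ^ (-(5 / 4) : ℝ) := by positivity
  calc (1 / d) * (Real.log (T / d)) ^ (-(5 / 4) : ℝ) ≤ (2 * (1 / ξ)) * (Real.log (T / ξ)) ^ (-(5 / 4) : ℝ) :=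
        mul_le_mul h2 h1 (by have := hlog d (le_refl _) (by linarith); positivity) (by positivity)
    _ = 8 * (1 / 4 * (1 / ξ) * (Real.log (T / ξ)) ^ (-(5 / 4) : ℝ)) := by ring

/-- A bound `|R(t)| ≤ C t / (log t)^{5/4}` gives a small tail. -/
theorem tailSmall_of_bound (R : ℝ → ℝ) (C t0 : ℝ) (hC : 0 ≤ C)
    (hR : ∀ t : ℝ, t0 ≤ t → |R t| ≤ C * t * (Real.log t) ^ (-(5 / 4) : ℝ)) : TailSmall R := by
  intro ε hε
  -- choose Y with 8 C (log (Y/2))^{-1/4} ≤ ε
  obtain ⟨Y, hY4, hYt, hYε⟩ : ∃ Y : ℝ, 8 ≤ Y ∧ t0 ≤ Y ∧ 8 * C * (Real.log (Y / 2)) ^ (-(1 / 4) : ℝ) ≤ ε := by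
    have hlim : Filter.Tendsto (fun Y : ℝ => 8 * C * (Real.log (Y / 2)) ^ (-(1 / 4) : ℝ)) Filter.atTop (nhds (8 * C * 0)) := by
      apply Filter.Tendsto.const_mul
      have h1 : Filter.Tendsto (fun x : ℝ => x ^ (-(1 / 4) : ℝ)) Filter.atTop (nhds 0) :=
        tendsto_rpow_neg_atTop (by norm_num)
      apply h1.comp
      apply Real.tendsto_log_atTop.comp
      exact Filter.tendsto_id.atTop_div_const (by norm_num)
    rw [mul_zero] at hlim
    have h2 := (hlim.eventually (gt_mem_nhds hε)).and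
      ((Filter.eventually_ge_atTop (8 : ℝ)).and (Filter.eventually_ge_atTop t0))
    obtain ⟨Y, hY1, hY2, hY3⟩ := h2.exists
    exact ⟨Y, hY2, hY3, hY1.le⟩
  refine ⟨Y, by linarith, ?_⟩
  intro T hT
  have hTpos : 0 < T := by linarith
  have hYpos : 0 < Y := by linarith
  set m := ⌊T / Y⌋₊ with hm
  have hmle : (m : ℝ) ≤ T / Y := Nat.floor_le (by positivity)
  have hmY : (m : ℝ) * Y ≤ T := by rwa [le_div_iff₀ hYpos] at hmle
  have hstep : ∀ d ∈ Finset.Ioc 0 m, |R (T / d)| ≤ C * T * (8 * (phi T (d + 1) - phi T d)) := by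
    intro d hd
    rw [Finset.mem_Ioc] at hd
    have hd1 : (1 : ℝ) ≤ d := by exact_mod_cast hd.1
    have hdm : (d : ℝ) ≤ m := by exact_mod_cast hd.2
    have hdY : (d : ℝ) * Y ≤ T := by nlinarith
    have h1 : Y ≤ T / d := by rw [le_div_iff₀ (by linarith)]; linarith
    have h2 := hR (T / d) (by linarith)
    have h3 := phi_step T d hd1 (by nlinarith)
    calc |R (T / d)| ≤ C * (T / d) * (Real.log (T / d)) ^ (-(5 / 4) : ℝ) := h2
      _ = C * T * ((1 / d) * (Real.log (T / d)) ^ (-(5 / 4) : ℝ)) := by ring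
      _ ≤ C * T * (8 * (phi T (d + 1) - phi T d)) := mul_le_mul_of_nonneg_left h3 (by positivity)
  have htel : ∀ k : ℕ, ∑ d ∈ Finset.Ioc 0 k, (phi T ((d : ℝ) + 1) - phi T d) = phi T ((k : ℝ) + 1) - phi T 1 := by
    intro k
    induction k with
    | zero => simp
    | succ k ih =>
      rw [Finset.sum_Ioc_succ_top (by omega), ih]
      push_cast
      ring
  have hphi1 : 0 ≤ phi T 1 := by
    unfold phi
    have : 0 ≤ Real.log (T / 1) := Real.log_nonneg (by rw [div_one]; linarith)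
    positivity
  have hphim : phi T ((m : ℝ) + 1) ≤ (Real.log (Y / 2)) ^ (-(1 / 4) : ℝ) := by
    unfold phi
    apply Real.rpow_le_rpow_of_nonpos _ _ (by norm_num)
    · apply Real.log_pos; linarith
    · apply Real.log_le_log (by positivity)
      rw [le_div_iff₀ (by positivity)]
      nlinarith
  calc ∑ d ∈ Finset.Ioc 0 m, |R (T / d)| ≤ ∑ d ∈ Finset.Ioc 0 m, C * T * (8 * (phi T (d + 1) - phi T d)) :=
        Finset.sum_le_sum hstep
    _ = C * T * 8 * (phi T ((m : ℝ) + 1) - phi T 1) := by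
        rw [← htel, Finset.mul_sum]
        apply Finset.sum_congr rfl
        intro d _; ring
    _ ≤ C * T * 8 * (Real.log (Y / 2)) ^ (-(1 / 4) : ℝ) := by
        apply mul_le_mul_of_nonneg_left _ (by positivity)
        linarith
    _ = (8 * C * (Real.log (Y / 2)) ^ (-(1 / 4) : ℝ)) * T := by ring
    _ ≤ ε * T := mul_le_mul_of_nonneg_right hYε hTpos.le

end

end Pool.Agent.Helper862.Axer
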