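import Mathlib
import Pool.Agent.Helper862.LeafErr
import Pool.Agent.Helper862.Tail

set_option autoImplicit false

namespace Pool.Agent.Helper862.Mk

open Pool.Agent.Helper862.Axer Filter

noncomputable section

lemma pow_exp (k : ℕ) (b ε : ℝ) (hb : 0 < b) (hε : 0 < ε) :
    ∃ X : ℝ, ∀ x : ℝ, X ≤ x → x ^ k ≤ ε * Real.exp (b * x) := by
  have h := isLittleO_pow_exp_pos_mul_atTop (k := k) hb
  have h2 := h.bound hε
  obtain ⟨X, hX⟩ := eventually_atTop.mp h2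
  refine ⟨X, fun x hx => ?_⟩
  have := hX x hx
  rw [Real.norm_eq_abs, Real.norm_eq_abs, abs_of_pos (Real.exp_pos _)] at this
  exact (le_abs_self _).trans this

lemma ten_log (L : ℕ) (hL : 7 ≤ L) : 10 * (L + 1) ≤ 2 ^ L := by
  induction L, hL using Nat.le_induction with
  | base => norm_num
  | succ n hn ih => rw [pow_succ]; omega

/-- the parameters are admissible -/
lemma params_ev (M Q : ℕ) (hM : 128 ≤ M) (hE : 64 * (M : ℝ) ^ 3 ≤ Real.exp (M / 200))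
    (hQ : Real.exp ((M - 1) / 5) ≤ Q + 1) :
    8 * (M : ℝ) ^ 2 ≤ Q ∧ Params M (10 * (Nat.log 2 M + 1)) (2 * M / (Q + 1)) := by
  set E := Real.exp ((M : ℝ) / 200) with hEdef
  have hMr : (128 : ℝ) ≤ M := by exact_mod_cast hM
  have hM0 : (0 : ℝ) < M := by linarith
  have hE1 : 1 ≤ E := Real.one_le_exp (by positivity)
  have hE0 : 0 < E := by linarith
  have e40 : Real.exp ((M : ℝ) / 5) = E ^ 40 := by
    rw [hEdef, ← Real.exp_nat_mul]; congr 1; push_cast; ring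
  have e20 : Real.exp ((M : ℝ) / 10) = E ^ 20 := by
    rw [hEdef, ← Real.exp_nat_mul]; congr 1; push_cast; ring
  have e5 : Real.exp ((M : ℝ) / 40) = E ^ 5 := by
    rw [hEdef, ← Real.exp_nat_mul]; congr 1; push_cast; ring
  have e4 : Real.exp ((M : ℝ) / 50) = E ^ 4 := by
    rw [hEdef, ← Real.exp_nat_mul]; congr 1; push_cast; ring
  have hQ1 : 4 / 5 * E ^ 40 ≤ Q + 1 := by
    refine le_trans ?_ hQ
    have : Real.exp (((M : ℝ) - 1) / 5) = Real.exp ((M : ℝ) / 5) * Real.exp (-(1 / 5)) := by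
      rw [← Real.exp_add]; congr 1; ring
    rw [this, e40, mul_comm]
    apply mul_le_mul_of_nonneg_left _ (by positivity)
    have := Real.add_one_le_exp (-(1 / 5) : ℝ)
    linarith
  have hQpos : (0 : ℝ) < Q + 1 := by positivity
  have hM3 : (M : ℝ) ≤ (M : ℝ) ^ 3 := by
    have : (M : ℝ) ^ 3 = M * (M * M) := by ring
    rw [this]
    exact le_mul_of_one_le_right hM0.le (by nlinarith)
  have hM2 : (M : ℝ) ^ 2 ≤ (M : ℝ) ^ 3 := by
    have : (M : ℝ) ^ 3 = M ^ 2 * M := by ring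
    rw [this]
    exact le_mul_of_one_le_right (by positivity) (by linarith)
  have hM31 : (1 : ℝ) ≤ (M : ℝ) ^ 3 := by linarith
  have hpow : ∀ n : ℕ, E ^ n * E ≤ E ^ 40 ∨ 40 ≤ n := by
    intro n
    by_cases h : 40 ≤ n
    · right; exact h
    · left
      rw [← pow_succ]
      exact pow_le_pow_right₀ hE1 (by omega)
  have hEE : E ≤ E ^ 40 := by
    have := (hpow 0).resolve_right (by norm_num)
    simpa using this
  have hη : 2 * (M : ℝ) / (Q + 1) ≤ 5 / 2 * M / E ^ 40 := by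
    rw [div_le_div_iff₀ hQpos (by positivity)]
    have : 2 * (M : ℝ) * E ^ 40 = 5 / 2 * M * (4 / 5 * E ^ 40) := by ring
    rw [this]
    exact mul_le_mul_of_nonneg_left hQ1 (by positivity)
  have hη0 : 0 ≤ 2 * (M : ℝ) / (Q + 1) := by positivity
  refine ⟨?_, ?_⟩
  · have h1 : 4 / 5 * E ≤ Q + 1 := le_trans (mul_le_mul_of_nonneg_left hEE (by norm_num)) hQ1
    linarith
  set L := Nat.log 2 M with hL
  have hL7 : 7 ≤ L := by
    rw [hL]
    have h128 : Nat.log 2 128 = 7 := by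
      rw [show (128 : ℕ) = 2 ^ 7 by norm_num]
      exact Nat.log_pow (by norm_num) 7
    rw [← h128]
    exact Nat.log_mono_right hM
  have hLM : 2 ^ L ≤ M := Nat.pow_log_le_self 2 (by omega)
  have hML : M < 2 ^ (L + 1) := Nat.lt_pow_succ_log_self (by norm_num) M
  refine ⟨by omega, (ten_log L hL7).trans hLM, by omega, hη0, ?_, ?_, ?_⟩
  · -- uniq
    have h1 : (M : ℝ) ^ 10 ≤ 2 ^ (10 * (L + 1)) := by
      have : (M : ℝ) ≤ 2 ^ (L + 1) := by exact_mod_cast hML.le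
      calc (M : ℝ) ^ 10 ≤ (2 ^ (L + 1)) ^ 10 := pow_le_pow_left₀ hM0.le this 10
        _ = 2 ^ (10 * (L + 1)) := by rw [← pow_mul, mul_comm]
    have h2 : (M : ℝ) ^ 2 * ((M : ℝ) ^ 2 * (16 / 2 ^ (10 * (L + 1)))) ≤ 1 / 8 := by
      have h2a : (16 : ℝ) / 2 ^ (10 * (L + 1)) ≤ 16 / (M : ℝ) ^ 10 :=
        div_le_div_of_nonneg_left (by norm_num) (by positivity) h1
      calc (M : ℝ) ^ 2 * ((M : ℝ) ^ 2 * (16 / 2 ^ (10 * (L + 1)))) ≤ (M : ℝ) ^ 2 * ((M : ℝ) ^ 2 * (16 / (M : ℝ) ^ 10)) := by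
            apply mul_le_mul_of_nonneg_left _ (by positivity)
            exact mul_le_mul_of_nonneg_left h2a (by positivity)
        _ = 16 / (M : ℝ) ^ 6 := by field_simp
        _ ≤ 16 / (128 : ℝ) ^ 6 := by
            apply div_le_div_of_nonneg_left (by norm_num) (by positivity)
            exact pow_le_pow_left₀ (by norm_num) hMr 6
        _ ≤ 1 / 8 := by norm_num
    have h3 : (M : ℝ) ^ 2 * (2 * (2 * (M : ℝ) / (Q + 1))) ≤ 5 / 64 := by
      calc (M : ℝ) ^ 2 * (2 * (2 * (M : ℝ) / (Q + 1))) ≤ (M : ℝ) ^ 2 * (2 * (5 / 2 * M / E ^ 40)) := by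
            apply mul_le_mul_of_nonneg_left _ (by positivity)
            linarith
        _ = 5 * M ^ 3 / E ^ 40 := by ring
        _ ≤ 5 * M ^ 3 / E := div_le_div_of_nonneg_left (by positivity) hE0 hEE
        _ ≤ 5 / 64 := by
            rw [div_le_div_iff₀ hE0 (by norm_num)]
            linarith
    have e : (M : ℝ) ^ 2 * (2 * (2 * (M : ℝ) / (Q + 1)) + (M : ℝ) ^ 2 * (16 / 2 ^ (10 * (L + 1)))) =
        (M : ℝ) ^ 2 * (2 * (2 * (M : ℝ) / (Q + 1))) + (M : ℝ) ^ 2 * ((M : ℝ) ^ 2 * (16 / 2 ^ (10 * (L + 1)))) := by ring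
    rw [e]
    linarith
  · -- jump
    intro s hs
    have hsr : 40 * (s : ℝ) ≤ M := by exact_mod_cast hs
    have h36 : (36 : ℝ) ^ s ≤ E ^ 20 := by
      rw [← e20]
      have h1 : (36 : ℝ) ≤ Real.exp 4 := by
        have := Real.exp_one_gt_d9
        have h2 : Real.exp 4 = Real.exp 1 ^ 4 := by rw [← Real.exp_nat_mul]; norm_num
        rw [h2]
        calc (36 : ℝ) ≤ 2.7 ^ 4 := by norm_num
          _ ≤ Real.exp 1 ^ 4 := pow_le_pow_left₀ (by norm_num) (by linarith) 4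
      calc (36 : ℝ) ^ s ≤ (Real.exp 4) ^ s := pow_le_pow_left₀ (by norm_num) h1 s
        _ = Real.exp (s * 4) := by rw [← Real.exp_nat_mul]
        _ ≤ Real.exp ((M : ℝ) / 10) := Real.exp_le_exp.mpr (by linarith)
    rw [lt_div_iff₀ (by positivity)]
    have h1 : 2 * (2 * (M : ℝ) / (Q + 1)) * 36 ^ s ≤ (5 * M / E ^ 40) * E ^ 20 := by
      apply mul_le_mul _ h36 (by positivity) (by positivity)
      calc 2 * (2 * (M : ℝ) / (Q + 1)) ≤ 2 * (5 / 2 * M / E ^ 40) := by linarith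
        _ = 5 * M / E ^ 40 := by ring
    have h2 : (5 * (M : ℝ) / E ^ 40) * E ^ 20 ≤ 5 * M / E := by
      rw [div_mul_eq_mul_div, div_le_div_iff₀ (by positivity) hE0]
      have := (hpow 20).resolve_right (by norm_num)
      calc 5 * (M : ℝ) * E ^ 20 * E = 5 * M * (E ^ 20 * E) := by ring
        _ ≤ 5 * M * E ^ 40 := mul_le_mul_of_nonneg_left this (by positivity)
    have h3 : 5 * (M : ℝ) / E ≤ 5 / 64 := by
      rw [div_le_div_iff₀ hE0 (by norm_num)]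
      linarith
    linarith
  · -- small
    intro s hs1 hs2
    have hs1r : (M : ℝ) ≤ 40 * s := by exact_mod_cast hs1.le
    have hs2r : (s : ℝ) ≤ 2 * M := by exact_mod_cast hs2
    have h4s : E ^ 5 ≤ (4 : ℝ) ^ s := by
      rw [← e5]
      have h1 : Real.exp 1 ≤ 4 := by have := Real.exp_one_lt_d9; linarith
      calc Real.exp ((M : ℝ) / 40) ≤ Real.exp (s * 1) := Real.exp_le_exp.mpr (by linarith)
        _ = (Real.exp 1) ^ s := by rw [Real.exp_nat_mul]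
        _ ≤ 4 ^ s := pow_le_pow_left₀ (Real.exp_pos 1).le h1 s
    have hexp : Real.exp (-((M : ℝ) / 50)) = 1 / E ^ 4 := by
      rw [Real.exp_neg, e4, one_div]
    rw [hexp]
    have h1 : 2 * (M : ℝ) / (Q + 1) ≤ 1 / 2 * (1 / E ^ 4) := by
      calc 2 * (M : ℝ) / (Q + 1) ≤ 5 / 2 * M / E ^ 40 := hη
        _ ≤ 5 / 2 * M / (E ^ 4 * E) := by
            apply div_le_div_of_nonneg_left (by positivity) (by positivity)
            exact (hpow 4).resolve_right (by norm_num)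
        _ = (5 / 2 * M / E) * (1 / E ^ 4) := by field_simp
        _ ≤ 1 / 2 * (1 / E ^ 4) := by
            apply mul_le_mul_of_nonneg_right _ (by positivity)
            rw [div_le_div_iff₀ hE0 (by norm_num)]
            linarith
    have h2 : (s : ℝ) * (M : ℝ) ^ 2 * (16 / 4 ^ s) ≤ 1 / 2 * (1 / E ^ 4) := by
      calc (s : ℝ) * (M : ℝ) ^ 2 * (16 / 4 ^ s) ≤ (2 * M) * (M : ℝ) ^ 2 * (16 / E ^ 5) := by
            apply mul_le_mul
            · exact mul_le_mul_of_nonneg_right hs2r (by positivity)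
            · exact div_le_div_of_nonneg_left (by norm_num) (by positivity) h4s
            · positivity
            · positivity
        _ = (32 * M ^ 3 / E) * (1 / E ^ 4) := by field_simp; norm_num
        _ ≤ 1 / 2 * (1 / E ^ 4) := by
            apply mul_le_mul_of_nonneg_right _ (by positivity)
            rw [div_le_div_iff₀ hE0 (by norm_num)]
            linarith
    linarith

/-- the error bound for the lattice-type count -/
theorem R_bound (A : ℝ) (hA : ∀ M : ℕ, 1 ≤ M → |A - LS M hf M root| ≤ 64 * (M : ℝ) ^ 2 / 4 ^ M) :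
    ∃ C t0 : ℝ, 0 ≤ C ∧ ∀ t : ℝ, t0 ≤ t →
      |(cnt root t : ℝ) + t / 2 * (1 / al root + 1 / be root) - A * t ^ 2| ≤
        C * t * (Real.log t) ^ (-(5 / 4) : ℝ) := by
  obtain ⟨X1, hX1⟩ := pow_exp 3 (1 / 200) (1 / 64) (by norm_num) (by norm_num)
  obtain ⟨X2, hX2⟩ := pow_exp 2 (1 / 4) 1 (by norm_num) (by norm_num)
  refine ⟨120 * (2800 * 900 + 1) + 1, Real.exp (max 128 (max X1 (max (Real.exp X2) (Real.exp 1)))), by norm_num, ?_⟩
  intro t ht
  have htpos : 0 < t := lt_of_lt_of_le (Real.exp_pos _) ht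
  set ℓ := Real.log t with hℓ
  have hℓt : Real.exp ℓ = t := Real.exp_log htpos
  have hℓ1 : max 128 (max X1 (max (Real.exp X2) (Real.exp 1))) ≤ ℓ := (Real.le_log_iff_exp_le htpos).mpr ht
  have hℓ128 : 128 ≤ ℓ := (le_max_left _ _).trans hℓ1
  have hℓX1 : X1 ≤ ℓ := ((le_max_left _ _).trans (le_max_right _ _)).trans hℓ1
  have hℓX2 : Real.exp X2 ≤ ℓ := (((le_max_left _ _).trans (le_max_right _ _)).trans (le_max_right _ _)).trans hℓ1
  have hℓe : Real.exp 1 ≤ ℓ := (((le_max_right _ _).trans (le_max_right _ _)).trans (le_max_right _ _)).trans hℓ1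
  set M := ⌈(5 / 2) * ℓ⌉₊ with hMdef
  have hM1 : (5 / 2) * ℓ ≤ M := Nat.le_ceil _
  have hM2 : (M : ℝ) < (5 / 2) * ℓ + 1 := Nat.ceil_lt_add_one (by linarith)
  have hℓM : ℓ ≤ M := by linarith
  have hMr : (128 : ℝ) ≤ M := by linarith
  have hM128 : 128 ≤ M := by exact_mod_cast hMr
  have hM0 : (0 : ℝ) < M := by linarith
  have hE : 64 * (M : ℝ) ^ 3 ≤ Real.exp (M / 200) := by
    have := hX1 M (by linarith)
    have e : 1 / 200 * (M : ℝ) = M / 200 := by ring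
    rw [e] at this
    linarith
  set Q := ⌊Real.sqrt t⌋₊ with hQdef
  have hQ1 : Real.sqrt t < Q + 1 := Nat.lt_floor_add_one _
  have hQ2 : (Q : ℝ) ≤ Real.sqrt t := Nat.floor_le (Real.sqrt_nonneg _)
  have hsq : Real.sqrt t = Real.exp (ℓ / 2) := by
    have h1 : t = Real.exp (ℓ / 2) * Real.exp (ℓ / 2) := by
      rw [← Real.exp_add, ← hℓt]; congr 1; ring
    rw [h1]
    exact Real.sqrt_mul_self (Real.exp_pos _).le
  have hexpM : Real.exp (((M : ℝ) - 1) / 5) ≤ Real.sqrt t := by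
    rw [hsq]; apply Real.exp_le_exp.mpr; linarith
  obtain ⟨hP1, hP2⟩ := params_ev M Q hM128 hE (hexpM.trans hQ1.le)
  have hQpos : 0 < Q := by
    have : (0 : ℝ) < Q := lt_of_lt_of_le (by positivity) hP1
    exact_mod_cast this
  have hmain := total_error A hA M _ Q hQpos hP1 hP2 t htpos.le
  -- size of t
  have hsqM : 2 * (M : ℝ) ^ 4 ≤ Real.sqrt t := by
    have h1 : Real.exp (((M : ℝ) - 1) / 5) = Real.exp ((M : ℝ) / 200) ^ 2 * Real.exp (19 * M / 100 - 1 / 5) := by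
      rw [← Real.exp_nat_mul, ← Real.exp_add]; congr 1; push_cast; ring
    have h2 : 1 ≤ Real.exp (19 * (M : ℝ) / 100 - 1 / 5) := Real.one_le_exp (by linarith)
    have h3 : (64 * (M : ℝ) ^ 3) ^ 2 ≤ Real.exp ((M : ℝ) / 200) ^ 2 := pow_le_pow_left₀ (by positivity) hE 2
    have h4 : 2 * (M : ℝ) ^ 4 ≤ (64 * (M : ℝ) ^ 3) ^ 2 := by
      have : (64 * (M : ℝ) ^ 3) ^ 2 = (2 * (M : ℝ) ^ 4) * (2048 * M ^ 2) := by ring
      rw [this]
      exact le_mul_of_one_le_right (by positivity) (by nlinarith)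
    calc 2 * (M : ℝ) ^ 4 ≤ Real.exp ((M : ℝ) / 200) ^ 2 := h4.trans h3
      _ ≤ Real.exp ((M : ℝ) / 200) ^ 2 * Real.exp (19 * M / 100 - 1 / 5) :=
          le_mul_of_one_le_right (by positivity) h2
      _ ≤ Real.sqrt t := by rw [← h1]; exact hexpM
  have hss : Real.sqrt t * Real.sqrt t = t := Real.mul_self_sqrt htpos.le
  have hsq0 : 0 < Real.sqrt t := Real.sqrt_pos.mpr htpos
  have hT1 : (M : ℝ) ^ 4 * Real.sqrt t ≤ t / 2 := by
    have : 2 * (M : ℝ) ^ 4 * Real.sqrt t ≤ Real.sqrt t * Real.sqrt t := mul_le_mul_of_nonneg_right hsqM hsq0.le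
    linarith
  have hT2 : 5 * (M : ℝ) ^ 5 ≤ t / 2 := by
    have h1 : 2 * (M : ℝ) ^ 4 * (2 * (M : ℝ) ^ 4) ≤ Real.sqrt t * Real.sqrt t := mul_le_mul hsqM hsqM (by positivity) hsq0.le
    have h2 : 10 * (M : ℝ) ^ 5 ≤ 2 * (M : ℝ) ^ 4 * (2 * (M : ℝ) ^ 4) := by
      have : 2 * (M : ℝ) ^ 4 * (2 * (M : ℝ) ^ 4) = (10 * (M : ℝ) ^ 5) * (2 / 5 * M ^ 3) := by ring
      rw [this]
      apply le_mul_of_one_le_right (by positivity)
      have : (128 : ℝ) ^ 3 ≤ (M : ℝ) ^ 3 := pow_le_pow_left₀ (by norm_num) hMr 3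
      linarith
    linarith
  have h4M : t ^ 2 ≤ (4 : ℝ) ^ M := by
    have hl2 := Real.log_two_gt_d9
    have hl4 : (4 : ℝ) = Real.exp (2 * Real.log 2) := by
      rw [mul_comm, Real.exp_mul, Real.exp_log (by norm_num)]; norm_num
    rw [hl4, ← hℓt, ← Real.exp_nat_mul, ← Real.exp_nat_mul]
    apply Real.exp_le_exp.mpr
    push_cast
    have h1 : (5 / 2) * ℓ * 1 ≤ M * (2 * Real.log 2) := mul_le_mul hM1 (by linarith) (by norm_num) (by positivity)
    linarith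
  have h4M' : t ^ 2 / 4 ^ M ≤ 1 := by
    rw [div_le_one (by positivity)]; exact h4M
  -- u
  set u := (M : ℝ) ^ (1 / 4 : ℝ) with hu
  have hu1 : 1 ≤ u := Real.one_le_rpow (by linarith) (by norm_num)
  have hu0 : 0 < u := by linarith
  have hu4 : u ^ 4 = M := by
    rw [hu, ← Real.rpow_natCast, ← Real.rpow_mul hM0.le]; norm_num
  have hsM : Real.sqrt M = u ^ 2 := by
    have h1 : (M : ℝ) = u ^ 2 * u ^ 2 := by rw [← hu4]; ring
    rw [h1]
    exact Real.sqrt_mul_self (by positivity)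
  have huM : (M : ℝ) ^ (-(5 / 4) : ℝ) = 1 / u ^ 5 := by
    rw [hu, ← Real.rpow_natCast, ← Real.rpow_mul hM0.le, Real.rpow_neg hM0.le, one_div]
    norm_num
  have hpow : 1 / u ^ 5 ≤ ℓ ^ (-(5 / 4) : ℝ) := by
    rw [← huM]
    exact Real.rpow_le_rpow_of_nonpos (by linarith) hℓM (by norm_num)
  -- V
  set V := 10 * (Nat.log 2 M + 1) with hV
  have hlogM1 : 1 ≤ Real.log M := by
    rw [Real.le_log_iff_exp_le hM0]; linarith
  have hlogMX : X2 ≤ Real.log M := by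
    rw [Real.le_log_iff_exp_le hM0]; linarith
  have hL : (Nat.log 2 M : ℝ) * Real.log 2 ≤ Real.log M := by
    rw [← Real.log_pow]
    apply Real.log_le_log (by positivity)
    exact_mod_cast Nat.pow_log_le_self 2 (by omega)
  have hVle : (V : ℝ) ≤ 30 * Real.log M := by
    rw [hV]; push_cast
    have hl2 := Real.log_two_gt_d9
    have hL0 : (0 : ℝ) ≤ (Nat.log 2 M : ℝ) := by positivity
    have hL1 : (Nat.log 2 M : ℝ) * (69 / 100) ≤ (Nat.log 2 M : ℝ) * Real.log 2 :=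
      mul_le_mul_of_nonneg_left (by linarith) hL0
    linarith
  have hV2 : (V : ℝ) ^ 2 ≤ 900 * u := by
    have h1 : (V : ℝ) ^ 2 ≤ (30 * Real.log M) ^ 2 := pow_le_pow_left₀ (by positivity) hVle 2
    have h2 := hX2 _ hlogMX
    have h3 : Real.exp (1 / 4 * Real.log M) = u := by
      rw [hu, Real.rpow_def_of_pos hM0]; congr 1; ring
    rw [h3] at h2
    have h4 : (30 * Real.log M) ^ 2 = 900 * Real.log M ^ 2 := by ring
    linarith
  have hMu : (M : ℝ) * Real.sqrt M = u ^ 6 := by rw [hsM, ← hu4]; ring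
  have hA1 : 2800 * (V : ℝ) ^ 2 / (M * Real.sqrt M) ≤ 2800 * 900 * (1 / u ^ 5) := by
    rw [hMu, mul_one_div, div_le_div_iff₀ (by positivity) (by positivity)]
    calc 2800 * (V : ℝ) ^ 2 * u ^ 5 ≤ 2800 * (900 * u) * u ^ 5 := by
          apply mul_le_mul_of_nonneg_right _ (by positivity)
          linarith
      _ = 2800 * 900 * u ^ 6 := by ring
  have hu58 : u ^ 5 ≤ (M : ℝ) ^ 2 := by
    have : (M : ℝ) ^ 2 = u ^ 5 * u ^ 3 := by rw [← hu4]; ring
    rw [this]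
    exact le_mul_of_one_le_right (by positivity) (one_le_pow₀ hu1)
  have hA2 : 1 / (M : ℝ) ^ 2 ≤ 1 / u ^ 5 := one_div_le_one_div_of_le (by positivity) hu58
  have hB : (3 * (M : ℝ) + 1 + Q + 128 * t ^ 2 / 4 ^ M) * (M : ℝ) ^ 2 + (M : ℝ) ^ 2 + t ^ 2 * (64 * (M : ℝ) ^ 2 / 4 ^ M) ≤ t * (1 / u ^ 5) := by
    have h1 : t ^ 2 * (64 * (M : ℝ) ^ 2 / 4 ^ M) = 64 * M ^ 2 * (t ^ 2 / 4 ^ M) := by ring
    have h2 : 128 * t ^ 2 / 4 ^ M = 128 * (t ^ 2 / 4 ^ M) := by ring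
    have h3 : t ^ 2 * (64 * (M : ℝ) ^ 2 / 4 ^ M) ≤ 64 * M ^ 2 := by
      rw [h1]; exact mul_le_of_le_one_right (by positivity) h4M'
    have h4 : 128 * t ^ 2 / 4 ^ M ≤ 128 := by rw [h2]; linarith
    have h5 : (3 * (M : ℝ) + 1 + Q + 128 * t ^ 2 / 4 ^ M) * (M : ℝ) ^ 2 ≤ (3 * M + 1 + Real.sqrt t + 128) * (M : ℝ) ^ 2 := by
      apply mul_le_mul_of_nonneg_right _ (by positivity)
      linarith
    have h6 : (3 * (M : ℝ) + 1 + Real.sqrt t + 128) * (M : ℝ) ^ 2 + (M : ℝ) ^ 2 + 64 * M ^ 2 ≤ (Real.sqrt t + 5 * M) * (M : ℝ) ^ 2 := by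
      have : (3 * (M : ℝ) + 1 + Real.sqrt t + 128) * (M : ℝ) ^ 2 + (M : ℝ) ^ 2 + 64 * M ^ 2 = (Real.sqrt t + 3 * M + 194) * (M : ℝ) ^ 2 := by ring
      rw [this]
      apply mul_le_mul_of_nonneg_right _ (by positivity)
      linarith
    have h7 : (Real.sqrt t + 5 * M) * (M : ℝ) ^ 2 * (M : ℝ) ^ 2 ≤ t := by
      have : (Real.sqrt t + 5 * M) * (M : ℝ) ^ 2 * (M : ℝ) ^ 2 = (M : ℝ) ^ 4 * Real.sqrt t + 5 * M ^ 5 := by ring
      rw [this]; linarith
    have h8 : (Real.sqrt t + 5 * M) * (M : ℝ) ^ 2 ≤ t * (1 / (M : ℝ) ^ 2) := by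
      rw [mul_one_div, le_div_iff₀ (by positivity)]
      exact h7
    have h9 : t * (1 / (M : ℝ) ^ 2) ≤ t * (1 / u ^ 5) := mul_le_mul_of_nonneg_left hA2 htpos.le
    linarith
  have hA3 : 120 * t * (2800 * (V : ℝ) ^ 2 / (M * Real.sqrt M) + 1 / (M : ℝ) ^ 2) ≤ 120 * t * (2800 * 900 * (1 / u ^ 5) + 1 / u ^ 5) := by
    apply mul_le_mul_of_nonneg_left _ (by positivity)
    linarith
  have hfin : 120 * t * (2800 * 900 * (1 / u ^ 5) + 1 / u ^ 5) + t * (1 / u ^ 5) = (120 * (2800 * 900 + 1) + 1) * t * (1 / u ^ 5) := by ring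
  have hfin2 : (120 * (2800 * 900 + 1) + 1) * t * (1 / u ^ 5) ≤ (120 * (2800 * 900 + 1) + 1) * t * ℓ ^ (-(5 / 4) : ℝ) :=
    mul_le_mul_of_nonneg_left hpow (by positivity)
  linarith

end

end Pool.Agent.Helper862.Mk
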