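import Mathlib
import Pool.Agent.Helper862.Bij

set_option autoImplicit false

namespace Pool.Agent.Helper862.Mk

noncomputable section

/-- `g x` is very close to `log (3x)` -/
lemma g_near (x : ℝ) (hx : 1 ≤ x) : g x ≤ Real.log (3 * x) ∧ Real.log (3 * x) - g x ≤ 1 / x ^ 2 := by
  have h1 := lam_lower x hx
  have h2 := lam_upper x hx
  have h3 := lam_pos x hx
  have h4 := lam_quad x hx
  have hx0 : 0 < x := by linarith
  constructor
  · unfold g
    exact Real.log_le_log h3 h2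
  · unfold g
    rw [← Real.log_div (by positivity) h3.ne']
    have h5 : Real.log (3 * x / lam x) ≤ 3 * x / lam x - 1 := Real.log_le_sub_one_of_pos (by positivity)
    have h6 : 3 * x / lam x - 1 = 1 / lam x ^ 2 := by
      rw [div_sub_one h3.ne', div_eq_div_iff h3.ne' (by positivity)]
      calc (3 * x - lam x) * lam x ^ 2 = (lam x * (3 * x - lam x)) * lam x := by ring
        _ = 1 * lam x := by rw [h4]
    have h7 : 1 / lam x ^ 2 ≤ 1 / x ^ 2 := by
      apply one_div_le_one_div_of_le (by positivity)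
      exact pow_le_pow_left₀ hx0.le (by linarith) 2
    linarith

/-- the main asymptotic statement -/
theorem main : ∃ c : ℝ, (fun x : ℝ =>
    (((Finset.Icc 1 ⌊x⌋₊ ×ˢ (Finset.Icc 1 ⌊x⌋₊ ×ˢ Finset.Icc 1 ⌊x⌋₊)).filter
      (fun t : ℕ × ℕ × ℕ => t.1 ≤ t.2.1 ∧ t.2.1 ≤ t.2.2 ∧
        t.1 ^ 2 + t.2.1 ^ 2 + t.2.2 ^ 2 = 3 * t.1 * t.2.1 * t.2.2)).card : ℝ) -
      c * (Real.log (3 * x)) ^ 2) =o[Filter.atTop] (fun x : ℝ => Real.log x) := by
  obtain ⟨c, hc⟩ := PP_asymp
  refine ⟨c, ?_⟩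
  rw [Asymptotics.isLittleO_iff]
  intro ε hε
  obtain ⟨T0, hT0, hT⟩ := hc (ε / 4) (by positivity)
  have hK : 0 ≤ (2 + 6 * |c|) / (ε / 2) := by positivity
  rw [Filter.eventually_atTop]
  refine ⟨max 3 (max (Real.exp T0) (Real.exp ((2 + 6 * |c|) / (ε / 2)))), ?_⟩
  intro x hx
  have hx3 : 3 ≤ x := (le_max_left _ _).trans hx
  have hxT : Real.exp T0 ≤ x := ((le_max_left _ _).trans (le_max_right _ _)).trans hx
  have hxK : Real.exp ((2 + 6 * |c|) / (ε / 2)) ≤ x := ((le_max_right _ _).trans (le_max_right _ _)).trans hx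
  have hx0 : 0 < x := by linarith
  rw [count_eq x (by linarith)]
  obtain ⟨hg1, hg2⟩ := g_near x (by linarith)
  have hlog : 1 ≤ Real.log x := by
    rw [Real.le_log_iff_exp_le hx0]
    have := Real.exp_one_lt_d9
    linarith
  have hlogK : (2 + 6 * |c|) / (ε / 2) ≤ Real.log x := (Real.le_log_iff_exp_le hx0).mpr hxK
  have hlog3 : Real.log (3 * x) ≤ 2 * Real.log x := by
    rw [Real.log_mul (by norm_num) hx0.ne']
    have : Real.log 3 ≤ Real.log x := Real.log_le_log (by norm_num) hx3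
    linarith
  have hgx : T0 ≤ g x := by
    have h1 : x ≤ lam x := by have := lam_lower x (by linarith); linarith
    unfold g
    rw [Real.le_log_iff_exp_le (lam_pos x (by linarith))]
    linarith
  have hT1 := hT (g x) hgx
  set T := g x with hTdef
  set L := Real.log (3 * x) with hL
  have hT1' : 1 ≤ T := hT0.trans hgx
  have hL0 : 0 ≤ L := by linarith
  have hLx : L ≤ 3 * x := by
    have := Real.log_le_sub_one_of_pos (by positivity : 0 < 3 * x)
    linarith
  have hsq : |c * (T ^ 2 - L ^ 2)| ≤ 6 * |c| := by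
    rw [abs_mul, mul_comm (6 : ℝ)]
    apply mul_le_mul_of_nonneg_left _ (abs_nonneg c)
    rw [abs_sub_comm, abs_of_nonneg (by nlinarith)]
    have e : L ^ 2 - T ^ 2 = (L - T) * (L + T) := by ring
    rw [e]
    have h1 : (L - T) * (L + T) ≤ 1 / x ^ 2 * (6 * x) := by
      apply mul_le_mul hg2 (by linarith) (by linarith) (by positivity)
    have h2 : 1 / x ^ 2 * (6 * x) = 6 / x := by field_simp
    have h3 : 6 / x ≤ 6 := by
      rw [div_le_iff₀ hx0]; linarith
    linarith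
  rw [Real.norm_eq_abs, Real.norm_eq_abs, abs_of_nonneg (by linarith : 0 ≤ Real.log x)]
  have e : ((2 + PP T : ℕ) : ℝ) - c * L ^ 2 = 2 + (((PP T : ℕ) : ℝ) - c * T ^ 2) + c * (T ^ 2 - L ^ 2) := by
    push_cast; ring
  rw [e]
  have h1 : |2 + (((PP T : ℕ) : ℝ) - c * T ^ 2) + c * (T ^ 2 - L ^ 2)| ≤ 2 + ε / 4 * T + 6 * |c| := by
    refine (abs_add_le _ _).trans ?_
    have h2 : |2 + (((PP T : ℕ) : ℝ) - c * T ^ 2)| ≤ 2 + ε / 4 * T := by
      refine (abs_add_le _ _).trans ?_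
      rw [abs_of_pos (by norm_num : (0 : ℝ) < 2)]
      linarith
    linarith
  have h3 : 2 + 6 * |c| ≤ ε / 2 * Real.log x := by
    rw [div_le_iff₀ (by positivity)] at hlogK
    linarith
  have h4 : ε / 4 * T ≤ ε / 4 * (2 * Real.log x) := mul_le_mul_of_nonneg_left (by linarith) (by positivity)
  linarith

end

end Pool.Agent.Helper862.Mk
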